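import Pool.Agent.MP_1ca372_al.H38.Spec

/-! Hive calculus: consequences of the exchange inequality, iterated moves. -/

namespace Pool.Agent.MP_1ca372_al.H38

open Multiset

universe u v

variable {X : Type v} {m : ℕ}

lemma hv_rot (E : Multiset X → ℤ) (x y z : X) : hv E y z x = rot (hv E x y z) := by
  funext j k i
  simp only [hv, rot]
  congr 1
  abel

lemma hv_swp (E : Multiset X → ℤ) (x y z : X) : hv E x z y = swp (hv E x y z) := by
  funext i k j
  simp only [hv, swp]
  congr 1
  abel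

lemma f012_h4 (E : Multiset X → ℤ) (x x' y z : X) : f012 (h4 E x x' y z) = hv E x x' y := by
  funext i j k
  simp [hv, h4, f012]

lemma f013_h4 (E : Multiset X → ℤ) (x x' y z : X) : f013 (h4 E x x' y z) = hv E x x' z := by
  funext i j k
  simp [hv, h4, f013]

lemma f023_h4 (E : Multiset X → ℤ) (x x' y z : X) : f023 (h4 E x x' y z) = hv E x y z := by
  funext i j k
  simp [hv, h4, f023]

lemma f123_h4 (E : Multiset X → ℤ) (x x' y z : X) : f123 (h4 E x x' y z) = hv E x' y z := by
  funext i j k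
  simp [hv, h4, f123]

namespace CalcAux

lemma side (E : Multiset X → ℤ) (x y z : X) :
    hv E x y z (m + 1) 0 1 + hv E x y z 1 0 (m + 1) = dd m E z x := by
  have e1 : replicate (m + 1) x + replicate 0 y + replicate 1 z = z ::ₘ replicate (m + 1) x := by
    rw [replicate_zero, add_zero, replicate_one, add_comm, singleton_add]
  have e2 : replicate 1 x + replicate 0 y + replicate (m + 1) z = x ::ₘ replicate (m + 1) z := by
    rw [replicate_zero, add_zero, replicate_one, singleton_add]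
  simp only [hv, dd]
  rw [e1, e2]

/-- exchange of the first two points -/
def flip (h : Hive) : Hive := fun i j k => h j i k

lemma sl_flip (h : Hive) (a b c : ℕ) : sl (flip h) a b c = sl h b a c := by
  simp only [sl, flip]
  ring

lemma coreZ_flip {τ : ℤ} {h : Hive} : CoreZ m τ (flip h) ↔ CoreZ m τ h := by
  constructor
  · intro H c hc
    obtain ⟨a, b, h1, h2⟩ := H c hc
    exact ⟨b, a, by omega, by rwa [sl_flip] at h2⟩
  · intro H c hc
    obtain ⟨a, b, h1, h2⟩ := H c hc
    exact ⟨b, a, by omega, by rwa [sl_flip]⟩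

lemma sl_sub (h : Hive) (a b c : ℕ) : sl h (a + 1) b c - sl h a (b + 1) c = tt h a b c := by
  simp only [sl, tt]
  ring

lemma tt_rot (h : Hive) (a b c : ℕ) : tt (rot h) a b c = tt h c a b := by
  simp only [tt, rot]
  ring

lemma gap_eq (h : Hive) (a c : ℕ) :
    2 * h (a + 1) 0 (c + 1) - h (a + 2) 0 c - h a 0 (c + 2) = sl h a 0 c + sl (rot h) 0 c a := by
  simp only [sl, rot]
  ring

lemma line_aux {h : Hive} {c : ℕ} {T : ℤ}
    (hT : ∀ a b, a + b + c + 1 = m → |tt h a b c| ≤ T) (k : ℕ) :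
    ∀ a b, a + b + k + c = m → |sl h (a + k) b c - sl h a (b + k) c| ≤ k * T := by
  induction k with
  | zero => intro a b _; simp
  | succ k ih =>
    intro a b hab
    have h1 := abs_le.1 (ih a (b + 1) (by omega))
    have h2 := abs_le.1 (hT (a + k) b (by omega))
    have h3 := sl_sub h (a + k) b c
    rw [show b + 1 + k = b + (k + 1) by ring] at h1
    rw [← add_assoc a, abs_le]
    push_cast
    constructor <;> linarith [h1.1, h1.2, h2.1, h2.2]

lemma line {h : Hive} {c : ℕ} {T : ℤ} (hT0 : 0 ≤ T)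
    (hT : ∀ a b, a + b + c + 1 = m → |tt h a b c| ≤ T) {a b a' b' : ℕ} (hab : a + b + c = m)
    (hab' : a' + b' + c = m) : sl h a b c ≤ sl h a' b' c + m * T := by
  rcases le_total a a' with hle | hle
  · obtain ⟨k, rfl⟩ := Nat.exists_eq_add_of_le hle
    obtain rfl : b = b' + k := by omega
    have h1 := abs_le.1 (line_aux hT k a b' (by omega))
    have h2 : (k : ℤ) * T ≤ m * T := mul_le_mul_of_nonneg_right (by omega) hT0
    linarith [h1.1]
  · obtain ⟨k, rfl⟩ := Nat.exists_eq_add_of_le hle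
    obtain rfl : b' = b + k := by omega
    have h1 := abs_le.1 (line_aux hT k a' b (by omega))
    have h2 : (k : ℤ) * T ≤ m * T := mul_le_mul_of_nonneg_right (by omega) hT0
    linarith [h1.2]

lemma all_sl {h : Hive} {τ T : ℤ} (hT0 : 0 ≤ T) (hc : CoreZ m τ h)
    (hT : ∀ a b c, a + b + c + 1 = m → |tt h a b c| ≤ T) (a b c : ℕ) (hab : a + b + c = m) :
    sl h a b c ≤ τ + m * T := by
  obtain ⟨a', b', h1, h2⟩ := hc c (by omega)
  have := line hT0 (fun a b => hT a b c) hab h1
  linarith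

lemma tele (g : ℕ → ℤ) (S : ℤ) (n : ℕ) (h : ∀ c ≤ n, 2 * g (c + 1) - g c - g (c + 2) ≤ S) :
    g 1 - g 0 - (g (n + 2) - g (n + 1)) ≤ (n + 1) * S := by
  induction n with
  | zero => have := h 0 le_rfl; simp only [zero_add, Nat.cast_zero] at this ⊢; linarith
  | succ n ih =>
    have h1 := ih fun c hc => h c (by omega)
    have h2 := h (n + 1) le_rfl
    push_cast
    rw [show n + 1 + 1 = n + 2 from rfl] at h2 ⊢
    linarith

lemma encard_biUnion_le {α β : Type*} {s : Set α} (hs : s.Finite) (t : α → Set β) (b : ℕ∞)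
    (ht : ∀ w, (t w).encard ≤ b) : (⋃ w ∈ s, t w).encard ≤ s.encard * b := by
  induction s, hs using Set.Finite.induction_on with
  | empty => simp
  | @insert a s ha _ ih =>
    rw [Set.biUnion_insert, Set.encard_insert_of_notMem ha, add_mul, one_mul, add_comm]
    exact (Set.encard_union_le _ _).trans (add_le_add (ht a) ih)

lemma gain_sl (m c : ℕ) :
    gain m c (c + 1) + gain m c (c + 1) - gain m c (c + 2) - gain m c c = -(m + 2) := by
  simp only [gain]
  push_cast
  rw [max_eq_right (by omega : (c : ℤ) + 1 - (c + 1) ≤ 0),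
    max_eq_left (by omega : (0 : ℤ) ≤ c + 2 - (c + 1)),
    max_eq_right (by omega : (c : ℤ) - (c + 1) ≤ 0)]
  ring

end CalcAux

open CalcAux

lemma diam_iff (E : Multiset X → ℤ) (Δ : ℤ) (x y z : X) :
    Diam m Δ (hv E x y z) ↔ dd m E x y ≤ Δ ∧ dd m E y z ≤ Δ ∧ dd m E z x ≤ Δ := by
  have h1 := side (m := m) E x y z
  have h2 := side (m := m) E y z x
  have h3 := side (m := m) E z x y
  rw [hv_rot E y z x, hv_rot E x y z] at h3
  rw [hv_rot E x y z] at h2
  simp only [rot] at h2 h3
  rw [← h1, ← h2, ← h3]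
  rfl

lemma dd_comm (E : Multiset X → ℤ) (x y : X) : dd m E x y = dd m E y x := add_comm _ _

lemma TInv.rot {Q : Hive → Prop} (h : TInv m Q) : TInv m fun h => Q (rot h) := by
  intro g g' A B C hg hQ
  refine h _ _ B C A (fun i j k hijk => ?_) hQ
  simp only [H38.rot]
  rw [hg k i j (by omega)]
  ring

lemma core_rot {τ : ℤ} {h : Hive} : Core m τ (rot h) ↔ Core m τ h :=
  ⟨fun H => ⟨H.2.2, H.1, H.2.1⟩, fun H => ⟨H.2.1, H.2.2, H.1⟩⟩

lemma core_swp {τ : ℤ} {h : Hive} : Core m τ (swp h) ↔ Core m τ h := by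
  have h1 : CoreZ m τ (swp h) ↔ CoreZ m τ (rot (rot h)) := coreZ_flip (h := rot (rot h))
  have h2 : CoreZ m τ (rot (swp h)) ↔ CoreZ m τ (rot h) := coreZ_flip (h := rot h)
  have h3 : CoreZ m τ (rot (rot (swp h))) ↔ CoreZ m τ h := coreZ_flip (h := h)
  unfold Core
  rw [h1, h2, h3]
  tauto

namespace Geo

variable (G : Geo X m)

/-- the rhombus inequality -/
lemma rh (a c f : X) (p : Multiset X) (hp : card p = m) :
    G.E (a ::ₘ a ::ₘ p) + G.E (c ::ₘ f ::ₘ p) ≤ G.E (a ::ₘ c ::ₘ p) + G.E (a ::ₘ f ::ₘ p) := by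
  have := G.p1 a a c f p hp
  rwa [add_comm (G.E (a ::ₘ f ::ₘ p)), max_self] at this

lemma sw (a b : X) (p : Multiset X) : G.E (a ::ₘ b ::ₘ p) = G.E (b ::ₘ a ::ₘ p) := by
  rw [cons_swap]

lemma isM (x x' y z : X) : IsM m (h4 G.E x x' y z) := by
  let P : ℕ → ℕ → ℕ → ℕ → Multiset X := fun a b c d =>
    replicate a x + replicate b x' + replicate c y + replicate d z
  have hP : ∀ a b c d, a + b + c + d = m → card (P a b c d) = m := fun a b c d h => by
    simp only [P, card_add, card_replicate]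
    exact h
  have e00 : ∀ a b c d, h4 G.E x x' y z (a + 2) b c d = G.E (x ::ₘ x ::ₘ P a b c d) :=
    fun a b c d => by simp only [h4, P, replicate_succ, ← singleton_add]; congr 1
  have e11 : ∀ a b c d, h4 G.E x x' y z a (b + 2) c d = G.E (x' ::ₘ x' ::ₘ P a b c d) :=
    fun a b c d => by simp only [h4, P, replicate_succ, ← singleton_add]; congr 1; abel
  have e22 : ∀ a b c d, h4 G.E x x' y z a b (c + 2) d = G.E (y ::ₘ y ::ₘ P a b c d) :=
    fun a b c d => by simp only [h4, P, replicate_succ, ← singleton_add]; congr 1; abel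
  have e33 : ∀ a b c d, h4 G.E x x' y z a b c (d + 2) = G.E (z ::ₘ z ::ₘ P a b c d) :=
    fun a b c d => by simp only [h4, P, replicate_succ, ← singleton_add]; congr 1; abel
  have e01 : ∀ a b c d, h4 G.E x x' y z (a + 1) (b + 1) c d = G.E (x ::ₘ x' ::ₘ P a b c d) :=
    fun a b c d => by simp only [h4, P, replicate_succ, ← singleton_add]; congr 1; abel
  have e02 : ∀ a b c d, h4 G.E x x' y z (a + 1) b (c + 1) d = G.E (x ::ₘ y ::ₘ P a b c d) :=
    fun a b c d => by simp only [h4, P, replicate_succ, ← singleton_add]; congr 1; abel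
  have e03 : ∀ a b c d, h4 G.E x x' y z (a + 1) b c (d + 1) = G.E (x ::ₘ z ::ₘ P a b c d) :=
    fun a b c d => by simp only [h4, P, replicate_succ, ← singleton_add]; congr 1; abel
  have e12 : ∀ a b c d, h4 G.E x x' y z a (b + 1) (c + 1) d = G.E (x' ::ₘ y ::ₘ P a b c d) :=
    fun a b c d => by simp only [h4, P, replicate_succ, ← singleton_add]; congr 1; abel
  have e13 : ∀ a b c d, h4 G.E x x' y z a (b + 1) c (d + 1) = G.E (x' ::ₘ z ::ₘ P a b c d) :=
    fun a b c d => by simp only [h4, P, replicate_succ, ← singleton_add]; congr 1; abel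
  have e23 : ∀ a b c d, h4 G.E x x' y z a b (c + 1) (d + 1) = G.E (y ::ₘ z ::ₘ P a b c d) :=
    fun a b c d => by simp only [h4, P, replicate_succ, ← singleton_add]; congr 1; abel
  refine ⟨fun a b c d h => ?_, fun a b c d h => ?_, fun a b c d h => ?_, fun a b c d h => ?_,
    fun a b c d h => ?_, fun a b c d h => ?_, fun a b c d h => ?_, fun a b c d h => ?_,
    fun a b c d h => ?_, fun a b c d h => ?_, fun a b c d h => ?_, fun a b c d h => ?_,
    fun a b c d h => ?_, fun a b c d h => ?_, fun a b c d h => ?_, ?_, ?_, ?_, ?_⟩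
  · rw [e00, e12, e01, e02]; exact G.rh x x' y _ (hP a b c d h)
  · rw [e00, e13, e01, e03]; exact G.rh x x' z _ (hP a b c d h)
  · rw [e00, e23, e02, e03]; exact G.rh x y z _ (hP a b c d h)
  · rw [e11, e02, e01, e12, G.sw x x']; exact G.rh x' x y _ (hP a b c d h)
  · rw [e11, e03, e01, e13, G.sw x x']; exact G.rh x' x z _ (hP a b c d h)
  · rw [e11, e23, e12, e13]; exact G.rh x' y z _ (hP a b c d h)
  · rw [e22, e01, e02, e12, G.sw x y, G.sw x' y]; exact G.rh y x x' _ (hP a b c d h)
  · rw [e22, e03, e02, e23, G.sw x y]; exact G.rh y x z _ (hP a b c d h)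
  · rw [e22, e13, e12, e23, G.sw x' y]; exact G.rh y x' z _ (hP a b c d h)
  · rw [e33, e01, e03, e13, G.sw x z, G.sw x' z]; exact G.rh z x x' _ (hP a b c d h)
  · rw [e33, e02, e03, e23, G.sw x z, G.sw y z]; exact G.rh z x y _ (hP a b c d h)
  · rw [e33, e12, e13, e23, G.sw x' z, G.sw y z]; exact G.rh z x' y _ (hP a b c d h)
  · rw [e01, e23, e02, e13, e03, e12]; exact G.p1 x x' y z _ (hP a b c d h)
  · rw [e01, e23, e02, e13, e03, e12, G.sw x' y]; exact G.p1 x y x' z _ (hP a b c d h)
  · rw [e01, e23, e02, e13, e03, e12, G.sw y z, G.sw x' z]; exact G.p1 x z x' y _ (hP a b c d h)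
  · simpa [h4] using G.diag x
  · simpa [h4] using G.diag x'
  · simpa [h4] using G.diag y
  · simpa [h4] using G.diag z

lemma low_aux (x y : X) (q : Multiset X) : ∀ n : ℕ, n + card q = m + 1 →
    -G.E (y ::ₘ replicate (m + 1) x) ≤
      G.E (x ::ₘ (replicate n x + q)) - G.E (y ::ₘ (replicate n x + q)) := by
  induction q using Multiset.induction_on with
  | empty =>
    intro n hn
    obtain rfl : n = m + 1 := by simpa using hn
    rw [add_zero, ← replicate_succ, G.diag, zero_sub]
  | cons u q ih =>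
    intro n hn
    rw [card_cons] at hn
    have h1 := ih (n + 1) (by omega)
    have h2 := G.rh x y u (replicate n x + q) (by rw [card_add, card_replicate]; omega)
    have h3 := G.sw x y (replicate n x + q)
    rw [replicate_succ x n, cons_add] at h1
    rw [add_cons]
    linarith

lemma low (x y : X) (q : Multiset X) (hq : card q = m + 1) :
    -G.E (y ::ₘ replicate (m + 1) x) ≤ G.E (x ::ₘ q) - G.E (y ::ₘ q) := by
  have := G.low_aux x y q 0 (by omega)
  rwa [replicate_zero, zero_add] at this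

/-- oscillation of `E (x, q) - E (y, q)` -/
lemma osc (x y : X) (q q' : Multiset X) (hq : card q = m + 1) (hq' : card q' = m + 1) :
    G.E (x ::ₘ q) - G.E (y ::ₘ q) ≤ G.E (x ::ₘ q') - G.E (y ::ₘ q') + dd m G.E x y := by
  have h1 := G.low y x q hq
  have h2 := G.low x y q' hq'
  unfold dd
  linarith

lemma dd_self (x : X) : dd m G.E x x = 0 := by
  unfold dd
  rw [← replicate_succ, G.diag, add_zero]

lemma dd_nonneg (x y : X) : 0 ≤ dd m G.E x y := by
  have := G.osc x y (replicate (m + 1) x) (replicate (m + 1) x) (card_replicate _ _)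
    (card_replicate _ _)
  linarith

lemma dd_tri (x y z : X) : dd m G.E x z ≤ dd m G.E x y + dd m G.E y z := by
  have h1 := G.osc x y (replicate (m + 1) z) (replicate (m + 1) x) (card_replicate _ _)
    (card_replicate _ _)
  have h2 := G.osc y z (replicate (m + 1) z) (replicate (m + 1) x) (card_replicate _ _)
    (card_replicate _ _)
  rw [← replicate_succ, G.diag] at h1 h2
  have h3 : dd m G.E x z = G.E (x ::ₘ replicate (m + 1) z) + G.E (z ::ₘ replicate (m + 1) x) := rfl
  linarith

lemma sl_eq (x y z : X) (a b c : ℕ) :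
    sl (hv G.E x y z) a b c =
      G.E (z ::ₘ x ::ₘ (replicate a x + replicate b y + replicate c z)) +
        G.E (z ::ₘ y ::ₘ (replicate a x + replicate b y + replicate c z)) -
        G.E (z ::ₘ z ::ₘ (replicate a x + replicate b y + replicate c z)) -
        G.E (x ::ₘ y ::ₘ (replicate a x + replicate b y + replicate c z)) := by
  have e := fun s t : Multiset X => congrArg (a₁ := s) (a₂ := t) G.E
  simp only [sl, hv, replicate_succ, ← singleton_add]
  congr 1
  · congr 1
    · congr 1 <;> exact e _ _ (by abel)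
    · exact e _ _ (by abel)
  · exact e _ _ (by abel)

lemma sl_nonneg (x y z : X) {a b c : ℕ} (h : a + b + c = m) : 0 ≤ sl (hv G.E x y z) a b c := by
  have := G.rh z x y (replicate a x + replicate b y + replicate c z)
    (by simp only [card_add, card_replicate]; exact h)
  rw [G.sl_eq]
  linarith

lemma sl_le (x y z : X) {a b c : ℕ} (h : a + b + c = m) :
    sl (hv G.E x y z) a b c ≤ dd m G.E z x := by
  have hp : card (replicate a x + replicate b y + replicate c z) = m := by
    simp only [card_add, card_replicate]; exact h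
  have h1 := G.osc z x (y ::ₘ (replicate a x + replicate b y + replicate c z))
    (z ::ₘ (replicate a x + replicate b y + replicate c z)) (by rw [card_cons, hp])
    (by rw [card_cons, hp])
  have h2 := G.sw x z (replicate a x + replicate b y + replicate c z)
  rw [G.sl_eq]
  linarith

/-- the distance is the sum of the gaps -/
lemma dd_le_of_gap {x y z : X} {S : ℤ} (h : ∀ a c, a + c = m →
    2 * hv G.E x y z (a + 1) 0 (c + 1) - hv G.E x y z (a + 2) 0 c - hv G.E x y z a 0 (c + 2) ≤ S) :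
    dd m G.E z x ≤ (m + 1) * S := by
  have h1 := tele (fun i => hv G.E x y z (m + 2 - i) 0 i) S m fun c hc => by
    have := h (m - c) c (by omega)
    rwa [show m + 2 - (c + 1) = m - c + 1 by omega, show m + 2 - c = m - c + 2 by omega,
      show m + 2 - (c + 2) = m - c by omega]
  have h2 : hv G.E x y z (m + 2) 0 0 = 0 := by simpa [hv] using G.diag x
  have h3 : hv G.E x y z 0 0 (m + 2) = 0 := by simpa [hv] using G.diag z
  rw [show m + 2 - 1 = m + 1 by omega, Nat.sub_zero, Nat.sub_self,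
    show m + 2 - (m + 1) = 1 by omega, h2, h3] at h1
  rw [← side G.E x y z]
  linarith

lemma dd_le_of_sl {x y z : X} {S : ℤ}
    (h1 : ∀ a b c, a + b + c = m → sl (hv G.E x y z) a b c ≤ S)
    (h2 : ∀ a b c, a + b + c = m → sl (rot (hv G.E x y z)) a b c ≤ S) :
    dd m G.E z x ≤ 2 * (m + 1) * S := by
  have := G.dd_le_of_gap (x := x) (y := y) (z := z) (S := 2 * S) fun a c hac => by
    rw [gap_eq]
    linarith [h1 a 0 c (by omega), h2 0 c a (by omega)]
  linarith

/-- a core with small triple ratios is small -/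
lemma core_diam {x y z : X} {τ T : ℤ} (hT0 : 0 ≤ T) (h : Core m τ (hv G.E x y z))
    (hT : ∀ a b c, a + b + c + 1 = m → |tt (hv G.E x y z) a b c| ≤ T) :
    Diam m (2 * (m + 1) * (τ + m * T)) (hv G.E x y z) := by
  have s0 := all_sl hT0 h.1 hT
  have hT1 : ∀ a b c, a + b + c + 1 = m → |tt (rot (hv G.E x y z)) a b c| ≤ T :=
    fun a b c e => by rw [tt_rot]; exact hT _ _ _ (by omega)
  have hT2 : ∀ a b c, a + b + c + 1 = m → |tt (rot (rot (hv G.E x y z))) a b c| ≤ T :=
    fun a b c e => by rw [tt_rot]; exact hT1 _ _ _ (by omega)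
  have s1 := all_sl hT0 h.2.1 hT1
  have s2 := all_sl hT0 h.2.2 hT2
  rw [diam_iff]
  refine ⟨G.dd_le_of_sl (y := z) ?_ ?_, G.dd_le_of_sl (y := x) ?_ ?_, G.dd_le_of_sl s0 s1⟩
  · rwa [hv_rot G.E x y z]
  · rwa [hv_rot G.E x y z]
  · rwa [hv_rot G.E y z x, hv_rot G.E x y z]
  · rw [hv_rot G.E y z x, hv_rot G.E x y z]
    exact s0

lemma ball_pow (x : X) (R : ℕ) :
    {y | dd m G.E x y ≤ (m + 2) * (R + 1)}.encard ≤ G.N ^ (R + 1) := by
  induction R with
  | zero => simpa using G.ball x
  | succ R ih =>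
    have hfin : {y | dd m G.E x y ≤ (m + 2) * (R + 1)}.Finite :=
      Set.finite_of_encard_le_coe (k := G.N ^ (R + 1)) (by exact_mod_cast ih)
    have hsub : {y | dd m G.E x y ≤ (m + 2) * ((R + 1 : ℕ) + 1)} ⊆
        ⋃ w ∈ {y | dd m G.E x y ≤ (m + 2) * (R + 1)}, {y | dd m G.E w y ≤ m + 2} := by
      intro y hy
      obtain ⟨w, h1, h2⟩ := G.split x y (R + 1) hy
      exact Set.mem_biUnion (x := w) (by exact_mod_cast h1) h2
    refine (Set.encard_le_encard hsub).trans
      ((encard_biUnion_le hfin _ G.N fun w => G.ball w).trans ?_)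
    rw [pow_succ _ (R + 1)]
    exact mul_le_mul_left ih _

/-- iterated steps -/
def Mv (c : ℕ) (x : X) : ℕ → X → X → Prop
  | 0 => fun z w => w = z
  | ν + 1 => fun z w => ∃ u, G.St c z x u ∧ Mv c x ν u w

lemma Mv_uniq {c ν : ℕ} {x z w w' : X} (h : G.Mv c x ν z w) (h' : G.Mv c x ν z w') : w = w' := by
  induction ν generalizing z with
  | zero => exact Eq.trans h (Eq.symm h')
  | succ ν ih =>
    obtain ⟨u, h1, h2⟩ := h
    obtain ⟨u', h1', h2'⟩ := h'
    obtain rfl := G.uniq _ _ _ _ _ h1 h1'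
    exact ih h2 h2'

lemma Mv_smul {Γ : Type u} [Group Γ] [MulAction Γ X] {S : ℕ} (hA : G.Act Γ S) (γ : Γ) {c ν : ℕ}
    {x z w : X} (h : G.Mv c x ν z w) : G.Mv c (γ • x) ν (γ • z) (γ • w) := by
  induction ν generalizing z with
  | zero => exact congrArg (γ • ·) h
  | succ ν ih =>
    obtain ⟨u, h1, h2⟩ := h
    exact ⟨γ • u, hA.St_inv γ _ _ _ _ h1, ih h2⟩

lemma Mv_inv {Γ : Type u} [Group Γ] [MulAction Γ X] {S : ℕ} (hA : G.Act Γ S) (γ : Γ) {c ν : ℕ}
    {x z w : X} : G.Mv c (γ • x) ν (γ • z) (γ • w) ↔ G.Mv c x ν z w :=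
  ⟨fun h => by simpa only [inv_smul_smul] using G.Mv_smul hA γ⁻¹ h, G.Mv_smul hA γ⟩

lemma move {c ν : ℕ} {x y z : X} (hc : c ≤ m)
    (h : ∀ a b, a + b + c = m → ((m + 2) * ν : ℤ) ≤ sl (hv G.E x y z) a b c) :
    ∃ w, G.Mv c x ν z w ∧ G.Mv c y ν z w ∧
      ∀ a b i, a + b + i = m + 2 → hv G.E x y w a b i = hv G.E x y z a b i + ν * gain m c i := by
  induction ν generalizing z with
  | zero => exact ⟨z, rfl, rfl, fun a b i _ => by simp⟩
  | succ ν ih =>
    have h0 : (0 : ℤ) ≤ (m + 2) * ν := by positivity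
    obtain ⟨u, u1, u2, u3⟩ := G.step c x y z hc fun a b hab => by
      have := h a b hab
      push_cast at this
      linarith
    obtain ⟨w, w1, w2, w3⟩ := ih (z := u) fun a b hab => by
      have h1 := h a b hab
      have h2 := gain_sl m c
      push_cast at h1
      simp only [sl] at h1 ⊢
      rw [u3 _ _ _ (by omega), u3 _ _ _ (by omega), u3 _ _ _ (by omega), u3 _ _ _ (by omega)]
      linarith
    refine ⟨w, ⟨u, u1, w1⟩, ⟨u, u2, w2⟩, fun a b i hi => ?_⟩
    rw [w3 a b i hi, u3 a b i hi]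
    push_cast
    ring

lemma abs_tt_le (x y z : X) {a b c : ℕ} (h : a + b + c + 1 = m) :
    |tt (hv G.E x y z) a b c| ≤ dd m G.E x y := by
  rw [← tt_rot, ← sl_sub, ← hv_rot, abs_le]
  have h1 := G.sl_nonneg y z x (a := b + 1) (b := c) (c := a) (by omega)
  have h2 := G.sl_nonneg y z x (a := b) (b := c + 1) (c := a) (by omega)
  have h3 := G.sl_le y z x (a := b + 1) (b := c) (c := a) (by omega)
  have h4 := G.sl_le y z x (a := b) (b := c + 1) (c := a) (by omega)
  constructor <;> linarith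

/-- FAR, geometric half: if `x, y` are close and every line at `z` has a small slack, all is close;
`gap c z x = 2 h(m+1-c, 0, c+1) - h(m+2-c, 0, c) - h(m-c, 0, c+2)` depends on `(z, x)` only -/
lemma far_gap {x y z : X} {R τ : ℤ} {a c a' b' : ℕ} (hR : dd m G.E x y ≤ R) (hac : a + c = m)
    (hab : a' + b' + c = m) (h : sl (hv G.E x y z) a' b' c ≤ τ) :
    2 * hv G.E x y z (a + 1) 0 (c + 1) - hv G.E x y z (a + 2) 0 c - hv G.E x y z a 0 (c + 2) ≤
      τ + (2 * m + 1) * R := by
  have hR0 : 0 ≤ R := (G.dd_nonneg x y).trans hR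
  have h1 := line (h := hv G.E x y z) (c := c) hR0
    (fun a b e => (G.abs_tt_le x y z e).trans hR) (a := a) (b := 0) (by omega) hab
  have h2 := G.sl_le y z x (a := 0) (b := c) (c := a) (by omega)
  have h3 : (0 : ℤ) ≤ m * R := by positivity
  rw [gap_eq, ← hv_rot]
  linarith

lemma far_diam {x y z : X} {R τ : ℤ} (hR : dd m G.E x y ≤ R) (h : CoreZ m τ (hv G.E x y z)) :
    dd m G.E z x ≤ (m + 1) * (τ + (2 * m + 1) * R) :=
  G.dd_le_of_gap (y := y) fun a c hac => by
    obtain ⟨a', b', h1, h2⟩ := h c (by omega)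
    exact G.far_gap hR hac h1 h2

end Geo

end Pool.Agent.MP_1ca372_al.H38
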