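import Mathlib

/-! Stabilisers of homothety classes of lattices. -/

namespace Pool.Agent.MP_1ca372_al.H38

/-- The stabiliser of the homothety class of `L`: the elements of `Γ` whose image in `PGL` has a lift
to `GL` mapping `L` onto `L`. -/
def stab {O K Γ : Type*} [CommRing O] [Field K] [Algebra O K] [Group Γ] {n : ℕ}
    (ρ : Γ →* Matrix.ProjGenLinGroup (Fin n) K) (L : Submodule O (Fin n → K)) : Set Γ :=
  {γ | ∃ g : GL (Fin n) K, Matrix.ProjGenLinGroup.mk g = ρ γ ∧ g.val.mulVec '' L = L}

end Pool.Agent.MP_1ca372_al.H38
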