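import Mathlib

/-! Valuations of determinants of multisets of vectors. -/

namespace Pool.Agent.MP_1ca372_al.H38

open Multiset Module WithZero Function

lemma exists_enum {ι α : Type*} [Fintype ι] {m : Multiset α} (h : card m = Fintype.card ι) :
    ∃ u : ι → α, Finset.univ.val.map u = m := by
  classical
  let e : ι ≃ m := Fintype.equivOfCardEq (by rw [Multiset.card_coe, h])
  refine ⟨fun i => (e i : α), ?_⟩
  have h1 := Multiset.map_univ_val_equiv e
  calc _ = (Finset.univ.val.map e).map fun x : m => (x : α) := by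
        rw [Multiset.map_map]
        rfl
    _ = m := by rw [h1, Multiset.map_univ_coe]

lemma exists_perm {ι α : Type*} [Fintype ι] {u u' : ι → α}
    (h : Finset.univ.val.map u = Finset.univ.val.map u') : ∃ σ : Equiv.Perm ι, u = u' ∘ σ := by
  classical
  have key : ∀ c, Fintype.card {a // u a = c} = Fintype.card {a // u' a = c} := by
    intro c
    have h1 := congrArg (Multiset.count c) h
    rw [Multiset.count_map, Multiset.count_map] at h1
    rw [Fintype.card_subtype, Fintype.card_subtype]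
    simp only [Finset.card_def, Finset.filter_val, eq_comm (b := c)]
    exact h1
  exact ⟨Equiv.ofFiberEquiv fun c => Fintype.equivOfCardEq (key c),
    funext fun a => (Equiv.ofFiberEquiv_map _ a).symm⟩

lemma map_univ_cons {ι α : Type*} [Fintype ι] [DecidableEq ι] (u : ι → α) (i : ι) (c : α) :
    Finset.univ.val.map (update u i c) = c ::ₘ (Finset.univ.erase i).val.map u := by
  have h : (Finset.univ : Finset ι).val = i ::ₘ (Finset.univ.erase i).val :=
    (Multiset.cons_erase (Finset.mem_univ_val i)).symm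
  rw [h, Multiset.map_cons, update_self]
  congr 1
  exact Multiset.map_congr rfl fun j hj =>
    update_of_ne (Finset.ne_of_mem_erase hj) _ _

lemma rel_rep {α β : Type*} {r : α → β → Prop} {m : Multiset α} {b : β} {n : ℕ} :
    Rel r m (replicate n b) ↔ card m = n ∧ ∀ x ∈ m, r x b := by
  induction n generalizing m with
  | zero =>
    simp only [replicate_zero, rel_zero_right, card_eq_zero]
    exact ⟨fun h => ⟨h, by simp [h]⟩, fun h => h.1⟩
  | succ n ih =>
    rw [replicate_succ, rel_cons_right]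
    constructor
    · rintro ⟨a, m', h1, h2, rfl⟩
      obtain ⟨h3, h4⟩ := ih.1 h2
      exact ⟨by simp [h3], by simpa using ⟨h1, h4⟩⟩
    · rintro ⟨h1, h2⟩
      obtain ⟨a, ha⟩ := card_pos_iff_exists_mem.1 (show 0 < card m by omega)
      obtain ⟨m', rfl⟩ := exists_cons_of_mem ha
      exact ⟨a, m', h2 a ha, ih.2 ⟨by simpa using h1, fun x hx => h2 x (mem_cons_of_mem hx)⟩, rfl⟩

variable {K V ι : Type*} [Field K] [AddCommGroup V] [Module K V] [Fintype ι] [DecidableEq ι]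
  (v : Valuation K ℤᵐ⁰) (e : Basis ι K V)

open Classical in
/-- valuation of the determinant of a multiset of vectors -/
noncomputable def dv (m : Multiset V) : ℤᵐ⁰ :=
  if h : ∃ u : ι → V, Finset.univ.val.map u = m then v (e.det h.choose) else 0

lemma dv_map (u : ι → V) : dv v e (Finset.univ.val.map u) = v (e.det u) := by
  have h : ∃ u' : ι → V, Finset.univ.val.map u' = Finset.univ.val.map u := ⟨u, rfl⟩
  rw [dv, dif_pos h]
  obtain ⟨σ, hσ⟩ := exists_perm h.choose_spec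
  rw [hσ, AlternatingMap.map_perm]
  rcases Int.units_eq_one_or (Equiv.Perm.sign σ) with h1 | h1 <;> simp [h1]

lemma dv_zero {m : Multiset V} (h : card m ≠ Fintype.card ι) : dv v e m = 0 := by
  rw [dv, dif_neg]
  rintro ⟨u, rfl⟩
  simp at h

lemma dv_lin (m : Multiset V) : ∃ l : V →ₗ[K] K, (∀ c, dv v e (c ::ₘ m) = v (l c)) ∧
    ∀ c ∈ m, l c = 0 := by
  by_cases h : card ((0 : V) ::ₘ m) = Fintype.card ι
  · obtain ⟨u, hu⟩ := exists_enum h
    obtain ⟨i, -, hi⟩ := Multiset.mem_map.1 (hu ▸ mem_cons_self (0 : V) m)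
    have h1 := map_univ_cons u i (u i)
    rw [update_eq_self, hu, hi, cons_inj_right] at h1
    refine ⟨e.det.toMultilinearMap.toLinearMap u i, fun c => ?_, fun c hc => ?_⟩
    · rw [h1, ← map_univ_cons, dv_map]
      rfl
    · rw [h1] at hc
      obtain ⟨j, hj, rfl⟩ := Multiset.mem_map.1 hc
      have h2 := Finset.ne_of_mem_erase hj
      exact e.det.map_eq_zero_of_eq _ (by simp [h2]) h2
  · exact ⟨0, fun c => by rw [dv_zero v e (by simpa using h)]; simp, fun _ _ => rfl⟩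

lemma cramer_basis (u : ι → V) (c : V) : e.det u • c = ∑ i, e.det (update u i c) • u i := by
  have h := Matrix.mulVec_cramer (e.toMatrix u) (e.repr c)
  refine e.ext_elem fun l => ?_
  have h1 := congrFun h l
  simp only [Matrix.mulVec, dotProduct, Matrix.cramer_apply, Pi.smul_apply, smul_eq_mul] at h1
  simp only [map_smul, map_sum, Finsupp.smul_apply, Finsupp.finsetSum_apply, smul_eq_mul,
    Basis.det_apply, Basis.toMatrix_update]
  rw [← h1]
  exact Finset.sum_congr rfl fun i _ => by rw [Basis.toMatrix_apply, mul_comm]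

/-- the exchange inequality -/
lemma exch [Nonempty ι] {m : Multiset V} (hm : card m = Fintype.card ι) (l : V →ₗ[K] K) (c : V) :
    ∃ u m', m = u ::ₘ m' ∧ dv v e m * v (l c) ≤ dv v e (c ::ₘ m') * v (l u) := by
  obtain ⟨u, rfl⟩ := exists_enum hm
  obtain ⟨i, -, hi⟩ := Finset.exists_max_image Finset.univ
    (fun i => v (e.det (update u i c) * l (u i))) Finset.univ_nonempty
  refine ⟨u i, (Finset.univ.erase i).val.map u, ?_, ?_⟩
  · rw [← map_univ_cons, update_eq_self]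
  · rw [← map_univ_cons, dv_map, dv_map, ← map_mul, ← map_mul, ← smul_eq_mul, ← map_smul,
      cramer_basis, map_sum]
    exact v.map_sum_le fun j hj => by simpa using hi j hj

lemma dv_gp [Nonempty ι] (a b c f : V) (w : Multiset V) :
    dv v e (a ::ₘ b ::ₘ w) * dv v e (c ::ₘ f ::ₘ w) ≤
      max (dv v e (a ::ₘ c ::ₘ w) * dv v e (b ::ₘ f ::ₘ w))
        (dv v e (a ::ₘ f ::ₘ w) * dv v e (b ::ₘ c ::ₘ w)) := by
  by_cases h : card (a ::ₘ b ::ₘ w) = Fintype.card ι
  swap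
  · rw [dv_zero v e h, zero_mul]
    exact zero_le
  obtain ⟨l, h1, h2⟩ := dv_lin v e (f ::ₘ w)
  obtain ⟨u, m', h3, h4⟩ := exch v e h l c
  rw [← h1, ← h1] at h4
  have hu : u ∈ a ::ₘ b ::ₘ w := h3 ▸ mem_cons_self _ _
  rcases mem_cons.1 hu with rfl | hu
  · obtain rfl := (cons_inj_right _).1 h3
    refine le_max_of_le_right (h4.trans_eq ?_)
    rw [mul_comm, cons_swap c b]
  rcases mem_cons.1 hu with rfl | hu
  · rw [cons_swap] at h3
    obtain rfl := (cons_inj_right _).1 h3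
    refine le_max_of_le_left (h4.trans_eq ?_)
    rw [cons_swap c a]
  · rw [h1 u, h2 u (mem_cons_of_mem hu), v.map_zero, mul_zero] at h4
    exact h4.trans zero_le

lemma dv_add (u u' : V) (m : Multiset V) :
    dv v e ((u + u') ::ₘ m) ≤ max (dv v e (u ::ₘ m)) (dv v e (u' ::ₘ m)) := by
  obtain ⟨l, h, -⟩ := dv_lin v e m
  rw [h, h, h, l.map_add]
  exact v.map_add _ _

lemma dv_smul (c : K) (u : V) (m : Multiset V) :
    dv v e ((c • u) ::ₘ m) = v c * dv v e (u ::ₘ m) := by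
  obtain ⟨l, h, -⟩ := dv_lin v e m
  rw [h, h, map_smul, smul_eq_mul, map_mul]

lemma dv_comp (f : V →ₗ[K] V) (m : Multiset V) :
    dv v e (m.map f) = v (LinearMap.det f) * dv v e m := by
  by_cases h : card m = Fintype.card ι
  · obtain ⟨u, rfl⟩ := exists_enum h
    rw [Multiset.map_map, dv_map, dv_map, Basis.det_comp, map_mul]
  · rw [dv_zero v e h, dv_zero v e (by simpa using h), mul_zero]

lemma val_det_le (u : ι → V) (γ : ι → ι → ℤ) (k : ℤ)
    (h : ∀ i l, v (e.repr (u i) l) ≤ exp (γ i l)) (hk : ∀ σ : Equiv.Perm ι, ∑ i, γ i (σ i) ≤ k) :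
    v (e.det u) ≤ exp k := by
  rw [Basis.det_apply, Matrix.det_apply]
  refine v.map_sum_le fun σ _ => ?_
  have h1 : v (∏ i, e.toMatrix u (σ i) i) ≤ exp k := by
    rw [map_prod]
    refine le_trans (Finset.prod_le_prod' fun i _ => h i (σ i)) ?_
    refine le_trans (le_of_eq ?_) (exp_le_exp.2 (hk σ))
    exact (map_prod (⟨⟨fun a => exp a.toAdd, rfl⟩, fun _ _ => rfl⟩ : Multiplicative ℤ →* ℤᵐ⁰)
      (fun i => Multiplicative.ofAdd (γ i (σ i))) Finset.univ).symm
  rcases Int.units_eq_one_or (Equiv.Perm.sign σ) with h2 | h2 <;> simpa [h2] using h1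

lemma val_det_diag (c : ι → K) : v (e.det fun i => c i • e i) = ∏ i, v (c i) := by
  rw [← map_prod]
  congr 1
  have := e.det.toMultilinearMap.map_smul_univ c e
  simpa [Basis.det_self] using this

/-- a common maximiser -/
lemma common {α : Type*} {r : V → α → Prop} (hr : ∀ A u u', r u A → r u' A → r (u + u') A)
    (p : Multiset α) (P Q : Multiset V → Prop)
    (hP : ∀ u u' m, P (u ::ₘ m) → P ((u + u') ::ₘ m) ∨ P (u' ::ₘ m))
    (hQ : ∀ u u' m, Q (u ::ₘ m) → Q ((u + u') ::ₘ m) ∨ Q (u' ::ₘ m))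
    (h1 : ∃ m, Rel r m p ∧ P m) (h2 : ∃ m, Rel r m p ∧ Q m) : ∃ m, Rel r m p ∧ P m ∧ Q m := by
  induction p using Multiset.induction_on generalizing P Q with
  | empty =>
    obtain ⟨m, k1, k2⟩ := h1
    obtain ⟨m', k3, k4⟩ := h2
    rw [rel_zero_right] at k1 k3
    exact ⟨0, Rel.zero, k1 ▸ k2, k3 ▸ k4⟩
  | cons A p ih =>
    obtain ⟨m, k1, k2⟩ := h1
    obtain ⟨m', k3, k4⟩ := h2
    obtain ⟨u, m, a1, a2, rfl⟩ := rel_cons_right.1 k1
    obtain ⟨u', m', a3, a4, rfl⟩ := rel_cons_right.1 k3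
    have key : ∃ w, r w A ∧ P (w ::ₘ m) ∧ Q (w ::ₘ m') := by
      rcases hP u u' m k2 with b1 | b1
      · rcases hQ u' u m' k4 with b2 | b2
        · exact ⟨u + u', hr _ _ _ a1 a3, b1, add_comm u u' ▸ b2⟩
        · exact ⟨u, a1, k2, b2⟩
      · exact ⟨u', a3, b1, k4⟩
    obtain ⟨w, b1, b2, b3⟩ := key
    obtain ⟨m'', c1, c2, c3⟩ := ih (fun m => P (w ::ₘ m)) (fun m => Q (w ::ₘ m))
      (fun u u' m h => by simpa only [cons_swap w] using hP u u' (w ::ₘ m) (cons_swap w u m ▸ h))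
      (fun u u' m h => by simpa only [cons_swap w] using hQ u u' (w ::ₘ m) (cons_swap w u m ▸ h))
      ⟨m, a2, b2⟩ ⟨m', a4, b3⟩
    exact ⟨w ::ₘ m'', c1.cons b1, c2, c3⟩

variable {α : Type*} (r : V → α → Prop)

/-- the largest determinant -/
noncomputable def D (s : Multiset α) : ℤ := sSup {k | ∃ m, Rel r m s ∧ exp k ≤ dv v e m}

def Fine (s : Multiset α) : Prop :=
  (∃ m, Rel r m s ∧ dv v e m ≠ 0) ∧ ∃ k, ∀ m, Rel r m s → dv v e m ≤ exp k

variable {v e r} {s : Multiset α}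

lemma Fine.le_D (h : Fine v e r s) {m : Multiset V} {k : ℤ} (hm : Rel r m s)
    (hk : exp k ≤ dv v e m) : k ≤ D v e r s := by
  obtain ⟨k', hk'⟩ := h.2
  exact le_csSup ⟨k', fun j ⟨m', h1, h2⟩ => exp_le_exp.1 (h2.trans (hk' m' h1))⟩ ⟨m, hm, hk⟩

lemma Fine.dv_le (h : Fine v e r s) {m : Multiset V} (hm : Rel r m s) :
    dv v e m ≤ exp (D v e r s) := by
  rcases eq_or_ne (dv v e m) 0 with h0 | h0
  · rw [h0]
    exact zero_le
  · rw [← exp_log h0, exp_le_exp]
    exact h.le_D hm (exp_log h0).le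

lemma Fine.max (h : Fine v e r s) : ∃ m, Rel r m s ∧ exp (D v e r s) ≤ dv v e m := by
  obtain ⟨k', hk'⟩ := h.2
  obtain ⟨m, h1, h2⟩ := h.1
  exact Int.csSup_mem (s := {k | ∃ m, Rel r m s ∧ exp k ≤ dv v e m}) ⟨_, m, h1, (exp_log h2).le⟩
    ⟨k', fun j ⟨m', h1, h2⟩ => exp_le_exp.1 (h2.trans (hk' m' h1))⟩

lemma Fine.D_le (h : Fine v e r s) {k : ℤ} (hk : ∀ m, Rel r m s → dv v e m ≤ exp k) :
    D v e r s ≤ k := by
  obtain ⟨m, h1, h2⟩ := h.max
  exact exp_le_exp.1 (h2.trans (hk m h1))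

lemma D_p1 [Nonempty ι] {n : ℕ} (hf : ∀ s, card s = n + 2 → Fine v e r s)
    (hr : ∀ A u u', r u A → r u' A → r (u + u') A) (A B C F : α) (p : Multiset α)
    (hp : card p = n) : D v e r (A ::ₘ B ::ₘ p) + D v e r (C ::ₘ F ::ₘ p) ≤
      max (D v e r (A ::ₘ C ::ₘ p) + D v e r (B ::ₘ F ::ₘ p))
        (D v e r (A ::ₘ F ::ₘ p) + D v e r (B ::ₘ C ::ₘ p)) := by
  have hf' : ∀ A B, Fine v e r (A ::ₘ B ::ₘ p) := fun A B => hf _ (by simp [hp])
  obtain ⟨m, h1, h2⟩ := (hf' A B).max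
  obtain ⟨m', h3, h4⟩ := (hf' C F).max
  obtain ⟨a, m1, a1, h5, rfl⟩ := rel_cons_right.1 h1
  obtain ⟨b, m2, a2, h6, rfl⟩ := rel_cons_right.1 h5
  obtain ⟨c, m3, a3, h7, rfl⟩ := rel_cons_right.1 h3
  obtain ⟨f, m4, a4, h8, rfl⟩ := rel_cons_right.1 h7
  have hU : ∀ (k : ℤᵐ⁰) (a b u u' : V) m, k ≤ dv v e (a ::ₘ b ::ₘ u ::ₘ m) →
      k ≤ dv v e (a ::ₘ b ::ₘ (u + u') ::ₘ m) ∨ k ≤ dv v e (a ::ₘ b ::ₘ u' ::ₘ m) := by
    intro k a b u u' m h
    have h5 := dv_add v e (u + u') ((-1 : K) • u') (a ::ₘ b ::ₘ m)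
    rw [dv_smul] at h5
    simp only [neg_smul, one_smul, add_neg_cancel_right, Valuation.map_neg, map_one, one_mul] at h5
    have h6 : ∀ w, a ::ₘ b ::ₘ w ::ₘ m = w ::ₘ a ::ₘ b ::ₘ m := fun w => by
      rw [cons_swap b w, cons_swap a w]
    rw [h6] at h
    rw [h6, h6]
    exact le_max_iff.1 (h.trans h5)
  obtain ⟨w, k1, k2, k3⟩ := common hr p (fun m => exp (D v e r (A ::ₘ B ::ₘ p)) ≤
    dv v e (a ::ₘ b ::ₘ m)) (fun m => exp (D v e r (C ::ₘ F ::ₘ p)) ≤ dv v e (c ::ₘ f ::ₘ m))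
    (hU _ a b) (hU _ c f) ⟨m2, h6, h2⟩ ⟨m4, h8, h4⟩
  rcases le_max_iff.1 ((mul_le_mul' k2 k3).trans (dv_gp v e a b c f w)) with h | h
  · have h9 := h.trans (mul_le_mul' ((hf' A C).dv_le ((k1.cons a3).cons a1))
      ((hf' B F).dv_le ((k1.cons a4).cons a2)))
    rw [← exp_add, ← exp_add, exp_le_exp] at h9
    exact le_max_of_le_left h9
  · have h9 := h.trans (mul_le_mul' ((hf' A F).dv_le ((k1.cons a4).cons a1))
      ((hf' B C).dv_le ((k1.cons a3).cons a2)))
    rw [← exp_add, ← exp_add, exp_le_exp] at h9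
    exact le_max_of_le_right h9

end Pool.Agent.MP_1ca372_al.H38
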