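import Pool.Agent.MP_1ca372_al.H38.Vol

/-! The potentials of a family of lattices: volumes of spans of tensors. -/

set_option linter.unusedSectionVars false

namespace Pool.Agent.MP_1ca372_al.H38

open Multiset Module WithZero Function

lemma exists_fun {K V : Type*} [Field K] [AddCommGroup V] [Module K V] {n i : ℕ}
    (v : Valuation K ℤᵐ⁰) (e0 e : Basis (Fin n) K V) {m : Multiset V} (h : i + card m = n) :
    ∃ l : ((Fin i → Fin n) → K) →ₗ[K] K, ∀ u : Fin i → V,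
      v (l fun f => ∏ a, e.repr (u a) (f a)) = dv v e0 (Finset.univ.val.map u + m) := by
  obtain ⟨j, hj⟩ : ∃ j, j + i = n := ⟨card m, by omega⟩
  obtain ⟨w, rfl⟩ := exists_enum (ι := Fin j) (m := m) (by rw [Fintype.card_fin]; omega)
  let φ : Fin j ⊕ Fin i ≃ Fin n := finSumFinEquiv.trans (finCongr hj)
  let μ := (e0.det.toMultilinearMap.domDomCongr φ.symm).currySum w
  refine ⟨Fintype.linearCombination K fun f => μ fun a => e (f a), fun u => ?_⟩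
  have h1 : μ u = ∑ f : Fin i → Fin n, (∏ a, e.repr (u a) (f a)) • μ fun a => e (f a) := by
    conv_lhs => rw [show u = fun a => ∑ l, e.repr (u a) l • e l from
      funext fun a => (e.sum_repr _).symm]
    rw [μ.map_sum]
    exact Finset.sum_congr rfl fun f _ => μ.map_smul_univ _ _
  have h2 : Finset.univ.val.map (Sum.elim w u ∘ φ.symm) =
      Finset.univ.val.map u + Finset.univ.val.map w := by
    rw [← Multiset.map_map, Multiset.map_univ_val_equiv, ← Finset.univ_disjSum_univ,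
      Finset.val_disjSum, Multiset.disjSum, Multiset.map_add, Multiset.map_map, Multiset.map_map,
      add_comm]
    rfl
  rw [Fintype.linearCombination_apply, ← h1, ← h2, dv_map]
  rfl

variable {O K : Type*} [CommRing O] [IsDomain O] [IsPrincipalIdealRing O] [Field K] [Algebra O K]
  [IsFractionRing O K] {n : ℕ}

namespace Val

variable (W : Val O K)

lemma pot_one [NeZero n] (Y : Lat O K n) (R i : ℕ) : ∃ Φ : Set (Lat O K n) → ℤ,
    ∀ 𝒴 ⊆ {X | W.sc (-R) Y ≤ X ∧ X ≤ Y}, ∀ 𝒴' ⊆ 𝒴, 𝒴'.Nonempty →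
      -(n ^ i * (i * R) : ℤ) ≤ Φ 𝒴' ∧ Φ 𝒴' ≤ Φ 𝒴 ∧ Φ 𝒴 ≤ 0 ∧
      ∀ X ∈ 𝒴, ∀ q : Multiset (Lat O K n), i + card q = n → ∃ X' ∈ 𝒴',
        W.DL (replicate i X + q) ≤ W.DL (replicate i X' + q) + (Φ 𝒴 - Φ 𝒴') := by
  obtain ⟨e, -, -, hY, -⟩ := W.smith Y Y
  let S : Set (Lat O K n) → Set ((Fin i → Fin n) → K) := fun 𝒴 =>
    {t | ∃ X ∈ 𝒴, ∃ u : Fin i → Fin n → K, (∀ a, u a ∈ X.1) ∧ t = fun f => ∏ a, e.repr (u a) (f a)}
  let b := Pi.basisFun K (Fin i → Fin n)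
  let N := Fintype.card (Fin i → Fin n)
  have hf : ∀ 𝒴 ⊆ {X | W.sc (-R) Y ≤ X ∧ X ≤ Y}, 𝒴.Nonempty →
      Fine W.v b (· ∈ ·) (replicate N (S 𝒴)) ∧
      -(N * (i * R : ℤ)) ≤ D W.v b (· ∈ ·) (replicate N (S 𝒴)) ∧
      D W.v b (· ∈ ·) (replicate N (S 𝒴)) ≤ N * 0 := by
    rintro 𝒴 h ⟨X, hX⟩
    refine fine_of (card_replicate _ _) _ _ (fun A hA f => ?_) fun A hA t ht f => ?_
    · rw [eq_of_mem_replicate hA]
      refine ⟨W.π ^ (i * R : ℤ), (W.v_pow _).ge, X, hX, fun a => W.π ^ (R : ℤ) • e (f a),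
        fun a => le_iff.1 (h hX).1 _ ((hY.sc _).mem _ (by rw [v_pow]; simp)), ?_⟩
      funext g
      simp only [map_smul, Basis.repr_self, Finsupp.smul_apply, smul_eq_mul,
        Finset.prod_mul_distrib, Finset.prod_const, Finset.card_univ, Fintype.card_fin,
        Pi.smul_apply, b, Pi.basisFun_apply, Pi.single_apply, Finsupp.single_apply,
        Finset.prod_boole, Finset.mem_univ, forall_const, ← funext_iff, eq_comm (a := g)]
      rw [mul_comm (i : ℤ), zpow_mul, zpow_natCast _ i]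
    · rw [eq_of_mem_replicate hA] at ht
      obtain ⟨X, hX, u, hu, rfl⟩ := ht
      rw [Pi.basisFun_repr, map_prod]
      exact Finset.prod_le_one' fun a _ => (hY _).1 (le_iff.1 (h hX).2 _ (hu a)) _
  refine ⟨fun 𝒴 => D W.v b (· ∈ ·) (replicate N (S 𝒴)), fun 𝒴 h 𝒴' h' hne => ?_⟩
  obtain ⟨f1, -, f2⟩ := hf 𝒴 h (hne.mono h')
  obtain ⟨f3, f4, -⟩ := hf 𝒴' (h'.trans h) hne
  have hS : S 𝒴' ⊆ S 𝒴 := fun t ⟨X, hX, ht⟩ => ⟨X, h' hX, ht⟩
  obtain ⟨β, b1, b2⟩ := f3.max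
  obtain ⟨b3, b4⟩ := rel_rep.1 b1
  refine ⟨by simpa [N] using f4, f1.le_D (rel_rep.2 ⟨b3, fun t ht => hS (b4 t ht)⟩) b2,
    by simpa using f2, fun X hX q hq => ?_⟩
  obtain ⟨m, m1, m2⟩ := (W.fine (s := replicate i X + q) (by simpa using hq)).max
  obtain ⟨t1, t2, k1, k2, rfl⟩ := rel_add_right.1 m1
  obtain ⟨k3, k4⟩ := rel_rep.1 k1
  obtain ⟨u, rfl⟩ := exists_enum (ι := Fin i) (m := t1) (by simpa using k3)
  obtain ⟨l, hl⟩ := exists_fun W.v (Pi.basisFun K (Fin n)) e (i := i) (m := t2)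
    (by rw [card_eq_card_of_rel k2, hq])
  obtain ⟨t, β', rfl, h1⟩ := exch W.v b b3 l fun f => ∏ a, e.repr (u a) (f a)
  obtain ⟨X', hX', u', hu', rfl⟩ := b4 t (mem_cons_self _ _)
  refine ⟨X', hX', ?_⟩
  rw [hl, hl] at h1
  have h2 := f1.dv_le (m := (fun f => ∏ a, e.repr (u a) (f a)) ::ₘ β') (rel_rep.2 ⟨by simpa using b3,
    fun t ht => (mem_cons.1 ht).elim (fun h => ⟨X, hX, u, fun a => k4 _
      (mem_map_of_mem _ (Finset.mem_univ_val a)), h⟩) fun h => hS (b4 t (mem_cons_of_mem h))⟩)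
  have h3 := (W.fine (s := replicate i X' + q) (by simpa using hq)).dv_le
    (Rel.add (rel_rep.2 ⟨(by simp : card (Finset.univ.val.map u') = i), fun t ht => by
      obtain ⟨a, -, rfl⟩ := Multiset.mem_map.1 ht
      exact hu' a⟩) k2)
  have h4 := ((mul_le_mul' b2 m2).trans h1).trans (mul_le_mul' h2 h3)
  rw [← exp_add, ← exp_add, exp_le_exp] at h4
  unfold DL
  linarith

lemma pot [NeZero n] (Y : Lat O K n) (R : ℕ) : ∃ Φ : Set (Lat O K n) → ℤ,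
    ∀ 𝒴 ⊆ {X | W.sc (-R) Y ≤ X ∧ X ≤ Y}, ∀ 𝒴' ⊆ 𝒴, 𝒴'.Nonempty →
      0 ≤ Φ 𝒴 ∧ Φ 𝒴 ≤ (∑ i ∈ Finset.range (n + 1), n ^ i * i : ℕ) * R ∧
      ∀ X ∈ 𝒴, ∀ (i : ℕ) (q : Multiset (Lat O K n)), i + card q = n → ∃ X' ∈ 𝒴',
        W.DL (replicate i X + q) ≤ W.DL (replicate i X' + q) + (Φ 𝒴 - Φ 𝒴') := by
  choose Φ hΦ using W.pot_one Y R
  refine ⟨fun 𝒴 => ∑ i ∈ Finset.range (n + 1), (Φ i 𝒴 + n ^ i * (i * R)), fun 𝒴 h 𝒴' h' hne =>
    ⟨Finset.sum_nonneg fun i _ => ?_, ?_, fun X hX i q hq => ?_⟩⟩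
  · obtain ⟨h1, h2, -⟩ := hΦ i 𝒴 h 𝒴' h' hne
    linarith
  · push_cast
    rw [Finset.sum_mul]
    refine Finset.sum_le_sum fun i _ => ?_
    obtain ⟨-, -, h1, -⟩ := hΦ i 𝒴 h 𝒴' h' hne
    linarith
  · obtain ⟨X', hX', h1⟩ := (hΦ i 𝒴 h 𝒴' h' hne).2.2.2 X hX q hq
    refine ⟨X', hX', h1.trans (add_le_add_right ?_ _)⟩
    rw [← Finset.sum_sub_distrib]
    simp only [add_sub_add_right_eq_sub]
    exact Finset.single_le_sum (f := fun i => Φ i 𝒴 - Φ i 𝒴')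
      (fun j _ => sub_nonneg.2 (hΦ j 𝒴 h 𝒴' h' hne).2.1) (Finset.mem_range.2 (by omega))

end Val

end Pool.Agent.MP_1ca372_al.H38
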