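import Pool.Agent.MP_1ca372_al.H38.Step
import Pool.Agent.MP_1ca372_al.H38.Pot

/-! Homothety classes of lattices form a geometry. -/

set_option linter.unusedSectionVars false

namespace Pool.Agent.MP_1ca372_al.H38

open Multiset Module WithZero Function

variable {O K : Type*} [CommRing O] [IsDomain O] [IsPrincipalIdealRing O] [Field K] [Algebra O K]
  [IsFractionRing O K] {n m : ℕ}

namespace Val

variable (W : Val O K)

/-- homothety -/
def rel (n : ℕ) : Setoid (Lat O K n) where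
  r A B := ∃ k, B = W.sc k A
  iseqv := ⟨fun A => ⟨0, (W.sc_zero A).symm⟩, fun ⟨k, h⟩ => ⟨-k, by
    rw [h, sc_sc, neg_add_cancel, sc_zero]⟩, fun ⟨k, h⟩ ⟨l, h'⟩ => ⟨l + k, by rw [h', h, sc_sc]⟩⟩

abbrev Cls (n : ℕ) := Quotient (W.rel n)

abbrev cl (A : Lat O K n) : W.Cls n := Quotient.mk _ A

lemma cl_sc (k : ℤ) (A : Lat O K n) : W.cl (W.sc k A) = W.cl A :=
  (Quotient.sound (s := W.rel n) ⟨k, rfl⟩).symm

/-- the normalised volume -/
noncomputable def E0 (s : Multiset (Lat O K n)) : ℤ := n * W.DL s - (s.map W.vol).sum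

lemma vol_sc (k : ℤ) (A : Lat O K n) : W.vol (W.sc k A) = W.vol A + n * k := by
  simpa [vol] using W.DL_rep_sc (A := A) (q := 0) (a := n) k (by simp)

lemma E0_congr {s t : Multiset (Lat O K n)} (h : Rel (W.rel n).r s t) :
    ∀ q, card s + card q = n → W.E0 (s + q) = W.E0 (t + q) := by
  induction h with
  | zero => exact fun _ _ => rfl
  | @cons A B s t h1 _ ih =>
    intro q hq
    obtain ⟨k, rfl⟩ := h1
    have h2 := ih (W.sc k A ::ₘ q) (by simp at hq ⊢; omega)
    rw [add_cons, add_cons] at h2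
    rw [cons_add, cons_add, ← h2]
    simp only [E0, map_cons, sum_cons, vol_sc]
    rw [W.DL_sc k (by simp at hq ⊢; omega)]
    ring

noncomputable def Eb (s : Multiset (W.Cls n)) : ℤ := W.E0 (s.map Quotient.out)

lemma Eb_cl {s : Multiset (Lat O K n)} (h : card s = n) : W.Eb (s.map W.cl) = W.E0 s := by
  have h1 := W.E0_congr (s := (s.map W.cl).map Quotient.out) (t := s) (by
    rw [Multiset.map_map, rel_map_left]
    exact rel_refl_of_refl_on fun A _ => Quotient.mk_out (s := W.rel n) A) 0 (by simpa using h)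
  simpa only [add_zero, Eb] using h1

lemma exists_cl (p : Multiset (W.Cls n)) : ∃ q : Multiset (Lat O K n), p = q.map W.cl :=
  ⟨p.map Quotient.out, by simp⟩

lemma hv_cl (x y z : Lat O K n) {a b i : ℕ} (h : a + b + i = n) :
    hv W.Eb (W.cl x) (W.cl y) (W.cl z) a b i =
      n * hv W.DL x y z a b i - (a * W.vol x + b * W.vol y + i * W.vol z) := by
  have h1 := W.Eb_cl (s := replicate a x + replicate b y + replicate i z) (by simpa using h)
  simpa [E0, hv] using h1

lemma dd_cl (x y : Lat O K (m + 2)) : dd m W.Eb (W.cl x) (W.cl y) = (m + 2) *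
    (W.DL (x ::ₘ replicate (m + 1) y) + W.DL (y ::ₘ replicate (m + 1) x) - W.vol x - W.vol y) := by
  have h1 := W.Eb_cl (s := x ::ₘ replicate (m + 1) y) (by simp)
  have h2 := W.Eb_cl (s := y ::ₘ replicate (m + 1) x) (by simp)
  simp only [map_cons, map_replicate, E0, sum_cons, sum_replicate, nsmul_eq_mul] at h1 h2
  rw [dd, h1, h2]
  push_cast
  ring

lemma dd_le {X Y : Lat O K (m + 2)} {R : ℕ} (h1 : W.sc (-R) Y ≤ X) (h2 : X ≤ Y) :
    dd m W.Eb (W.cl X) (W.cl Y) ≤ (m + 2) * R ∧ dd m W.Eb (W.cl Y) (W.cl X) ≤ (m + 2) * R := by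
  have k1 := W.DL_mono (q := replicate (m + 1) Y) h2 (by simp)
  have k2 := W.DL_mono (q := replicate (m + 1) X) h1 (by simp)
  rw [W.DL_sc _ (by simp)] at k2
  have k3 : ∀ A : Lat O K (m + 2), W.DL (A ::ₘ replicate (m + 1) A) = W.vol A := fun A => rfl
  rw [k3] at k1 k2
  rw [dd_cl, dd_cl]
  constructor <;> exact mul_le_mul_of_nonneg_left (by omega) (by positivity)

lemma near_of_dd (Y : Lat O K (m + 2)) (x : W.Cls (m + 2)) {R : ℕ}
    (h : dd m W.Eb (W.cl Y) x ≤ (m + 2) * R) : ∃ X, W.cl X = x ∧ W.sc (-R) Y ≤ X ∧ X ≤ Y := by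
  induction x using Quotient.ind with | _ X
  obtain ⟨e, μ, hμ, hY, hX⟩ := W.smith Y X
  have two : ∀ b i, b + i = m + 2 → W.DL (replicate b X + replicate i Y) = W.κ e + top μ b :=
    fun b i hb => by simpa using hY.two hX (by simpa using hμ) hb
  have k1 := two 1 (m + 1) (by omega)
  have k2 := two (m + 1) 1 rfl
  rw [add_comm (replicate _ X)] at k2
  rw [replicate_one, singleton_add] at k1 k2
  rw [top_succ μ (show 0 < m + 2 by omega), top_zero] at k1
  have k3 := hX.vol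
  rw [← top_all, top_succ μ (show m + 1 < m + 2 by omega)] at k3
  have k4 : W.vol Y = W.κ e := by simpa using hY.vol
  rw [dd_cl, k1, k2, k3, k4] at h
  have k5 := le_of_mul_le_mul_left h (by positivity)
  have k6 : ∀ l, μ ⟨m + 1, by omega⟩ ≤ μ l ∧ μ l ≤ μ ⟨0, by omega⟩ := fun l =>
    ⟨hμ (Fin.le_last l), hμ (Fin.zero_le l)⟩
  refine ⟨W.sc (-μ ⟨0, by omega⟩) X, W.cl_sc _ _, (hY.sc _).le (hX.sc _) fun l => ?_,
    (hX.sc _).le hY fun l => ?_⟩ <;> have := k6 l <;> simp only [Pi.zero_apply] <;> omega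

lemma St_sc {j : ℕ} {Z M w : Lat O K n} (h : W.St j Z M w) (k l : ℤ) :
    W.St j (W.sc k Z) (W.sc l M) (W.sc k w) := by
  obtain ⟨s, h1, h2⟩ := h
  refine ⟨s + l - k, ?_, by rw [vol_sc, vol_sc, h2]; ring⟩
  simp only [h1, sc_sup, sc_inf, sc_sc]
  congr 3 <;> ring

lemma vol_act (f : (Fin n → K) ≃ₗ[K] (Fin n → K)) (A : Lat O K n) :
    W.vol (act f A) = W.vol A + log (W.v (LinearMap.det f.toLinearMap)) := by
  simpa [vol] using W.DL_act f (s := replicate n A) (by simp)

lemma St_act {j : ℕ} {Z M w : Lat O K n} (h : W.St j Z M w) (f : (Fin n → K) ≃ₗ[K] (Fin n → K)) :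
    W.St j (act f Z) (act f M) (act f w) := by
  obtain ⟨s, h1, h2⟩ := h
  refine ⟨s, ?_, by rw [vol_act, vol_act, h2]; ring⟩
  simp only [h1, act_sup, act_inf, act_sc]

lemma E0_act (f : (Fin n → K) ≃ₗ[K] (Fin n → K)) {s : Multiset (Lat O K n)} (hs : card s = n) :
    W.E0 (s.map (act f)) = W.E0 s := by
  simp only [E0, W.DL_act f hs, Multiset.map_map, comp_apply, vol_act, sum_map_add, map_const',
    sum_replicate, hs, nsmul_eq_mul]
  ring

lemma ball {ρ : Type*} [Finite ρ] (res : O → ρ)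
    (hres : ∀ a a', res a = res a' → W.v (algebraMap O K (a - a')) ≤ exp (-1)) (X : Lat O K n) :
    {L | W.sc (-1) X ≤ L ∧ L ≤ X}.encard ≤ Nat.card (Set (Fin n → ρ)) := by
  obtain ⟨e, -, -, hX, -⟩ := W.smith X X
  have key : ∀ L L' : Lat O K n, W.sc (-1) X ≤ L' → L ≤ X →
      {r | ∃ a : Fin n → O, res ∘ a = r ∧ ∑ l, algebraMap O K (a l) • e l ∈ L.1} =
      {r | ∃ a : Fin n → O, res ∘ a = r ∧ ∑ l, algebraMap O K (a l) • e l ∈ L'.1} → L ≤ L' := by
    intro L L' h1 h2 h3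
    refine le_iff.2 fun u hu => ?_
    choose a ha using fun l => (W.int _).1 ((hX u).1 (le_iff.1 h2 u hu) l)
    have h4 : ∑ l, algebraMap O K (a l) • e l = u := by simp only [ha, e.sum_repr]
    obtain ⟨a', h5, h6⟩ := (Set.ext_iff.1 h3 (res ∘ a)).1 ⟨a, rfl, h4 ▸ hu⟩
    have h7 : ∑ l, algebraMap O K (a l - a' l) • e l ∈ L'.1 := Submodule.sum_mem _ fun l _ =>
      le_iff.1 h1 _ ((hX.sc _).mem l (by simpa using hres _ _ (congrFun h5 l).symm))
    have h8 := L'.1.add_mem h7 h6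
    simp only [← Finset.sum_add_distrib, ← add_smul, map_sub, sub_add_cancel] at h8
    exact h4 ▸ h8
  refine (Set.encard_le_encard_of_injOn (t := Set.univ) (f := fun L =>
    {r | ∃ a : Fin n → O, res ∘ a = r ∧ ∑ l, algebraMap O K (a l) • e l ∈ L.1})
    (fun _ _ => trivial) fun L h L' h' k =>
      le_antisymm (key L L' h'.1 h.2 k) (key L' L h.1 h'.2 k.symm)).trans ?_
  rw [Set.encard_univ, ENat.card_eq_coe_natCard]

/-- the geometry of lattice classes -/
noncomputable def geo {ρ : Type*} [Finite ρ] (res : O → ρ)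
    (hres : ∀ a a', res a = res a' → W.v (algebraMap O K (a - a')) ≤ exp (-1)) (m : ℕ) :
    Geo (W.Cls (m + 2)) m where
  E := W.Eb
  St c z x w := ∃ Z X V, W.cl Z = z ∧ W.cl X = x ∧ W.cl V = w ∧ W.St (m + 1 - c) Z X V
  N := Nat.card (Set (Fin (m + 2) → ρ))
  B := (m + 2) * ∑ i ∈ Finset.range (m + 2 + 1), (m + 2) ^ i * i
  p1 a b c f p hp := by
    induction a using Quotient.ind with | _ a
    induction b using Quotient.ind with | _ b
    induction c using Quotient.ind with | _ c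
    induction f using Quotient.ind with | _ f
    obtain ⟨p, rfl⟩ := W.exists_cl p
    rw [card_map] at hp
    have h : ∀ a b, W.Eb (W.cl a ::ₘ W.cl b ::ₘ p.map W.cl) = (m + 2) * W.DL (a ::ₘ b ::ₘ p) -
        (W.vol a + (W.vol b + (p.map W.vol).sum)) := fun a b => by
      have := W.Eb_cl (s := a ::ₘ b ::ₘ p) (by simp [hp])
      simpa [E0] using this
    simp only [h]
    have h0 : (0 : ℤ) ≤ m + 2 := by positivity
    rcases le_max_iff.1 (W.DL_p1 a b c f p hp) with k | k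
    · exact le_max_of_le_left (by linarith [mul_le_mul_of_nonneg_left k h0])
    · exact le_max_of_le_right (by linarith [mul_le_mul_of_nonneg_left k h0])
  diag x := by
    induction x using Quotient.ind with | _ x
    have := W.Eb_cl (s := replicate (m + 2) x) (by simp)
    rw [map_replicate] at this
    rw [this, E0, map_replicate, sum_replicate, nsmul_eq_mul, vol, sub_self]
  uniq := by
    rintro c _ _ _ _ ⟨Z, X, V, rfl, rfl, rfl, h⟩ ⟨Z', X', V', h1, h2, rfl, h'⟩
    obtain ⟨k, rfl⟩ := Quotient.exact h1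
    obtain ⟨l, rfl⟩ := Quotient.exact h2
    rw [h.uniq (W.St_sc h' k l) le_rfl ((W.sc_zero _).ge.trans (W.sc_mono zero_le_one le_rfl)),
      cl_sc]
  step c x y z hc h := by
    induction x using Quotient.ind with | _ x
    induction y using Quotient.ind with | _ y
    induction z using Quotient.ind with | _ z
    obtain ⟨w, h1, h2, h3⟩ := step (W := W) x y z hc fun a b hab => by
      have h1 := h a b hab
      unfold sl at h1 ⊢
      rw [hv_cl _ _ _ _ (by omega), hv_cl _ _ _ _ (by omega), hv_cl _ _ _ _ (by omega),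
        hv_cl _ _ _ _ (by omega)] at h1
      refine le_of_mul_le_mul_left (a := (m + 2 : ℤ)) ?_ (by positivity)
      push_cast at h1
      linarith
    refine ⟨W.cl w, ⟨z, x, w, rfl, rfl, rfl, h1⟩, ⟨z, y, w, rfl, rfl, rfl, h2⟩, fun a b i hi => ?_⟩
    obtain ⟨-, -, h4⟩ := h1
    rw [hv_cl _ _ _ _ hi, hv_cl _ _ _ _ hi, h3 a b i hi, h4, gain,
      Nat.cast_sub (show c ≤ m + 1 by omega)]
    push_cast
    ring
  split x y R h := by
    induction y using Quotient.ind with | _ Y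
    obtain ⟨X, rfl, h1, h2⟩ := W.near_of_dd Y x (R := R + 1) (by
      rw [dd, add_comm] at h
      exact_mod_cast h)
    refine ⟨W.cl (X ⊔ W.sc (-1) Y), (W.dd_le ?_ le_sup_left).1, ?_⟩
    · rw [sc_sup, sc_sc]
      refine sup_le ((W.sc_mono (by omega) le_rfl).trans (W.sc_zero X).le) (le_trans ?_ h1)
      exact W.sc_mono (by omega) le_rfl
    · simpa using (W.dd_le (R := 1) (X := X ⊔ W.sc (-1) Y) le_sup_right
        (sup_le h2 ((W.sc_mono (by omega) le_rfl).trans (W.sc_zero Y).le))).1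
  ball x := by
    induction x using Quotient.ind with | _ X
    refine le_trans (Set.encard_le_encard fun y hy => ?_)
      ((Set.encard_image_le W.cl _).trans (W.ball res hres X))
    obtain ⟨Y, h1, h2⟩ := W.near_of_dd X y (R := 1) (by simpa using hy)
    exact ⟨Y, h2, h1⟩
  pot y R := by
    induction y using Quotient.ind with | _ Y
    obtain ⟨Φ, hΦ⟩ := W.pot Y R
    have h0 : (0 : ℤ) ≤ m + 2 := by positivity
    have key : ∀ x, ∃ X, W.cl X = x ∧
        (dd m W.Eb (W.cl Y) x ≤ R → W.sc (-R) Y ≤ X ∧ X ≤ Y) := fun x => by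
      by_cases h : dd m W.Eb (W.cl Y) x ≤ R
      · obtain ⟨X, h1, h2⟩ := W.near_of_dd Y x (R := R) (h.trans (by nlinarith))
        exact ⟨X, h1, fun _ => h2⟩
      · exact ⟨x.out, x.out_eq, fun h' => absurd h' h⟩
    choose r r1 r2 using key
    have sub : ∀ 𝒴 ⊆ {x | dd m W.Eb (W.cl Y) x ≤ R}, r '' 𝒴 ⊆ {X | W.sc (-R) Y ≤ X ∧ X ≤ Y} := by
      rintro 𝒴 h _ ⟨x, hx, rfl⟩
      exact r2 x (h hx)
    refine ⟨fun x => W.vol (r x), fun 𝒴 => (m + 2) * Φ (r '' 𝒴), fun 𝒴 h hne => ?_,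
      fun 𝒴 h 𝒴' h' hne x hx i q hq => ?_⟩
    · obtain ⟨h1, h2, -⟩ := hΦ _ (sub 𝒴 h) _ subset_rfl (hne.image r)
      refine ⟨mul_nonneg h0 h1, (mul_le_mul_of_nonneg_left h2 h0).trans_eq ?_⟩
      push_cast
      ring
    · obtain ⟨q, rfl⟩ := W.exists_cl q
      rw [card_map] at hq
      obtain ⟨_, ⟨x', hx', rfl⟩, h1⟩ := (hΦ _ (sub 𝒴 h) _ (Set.image_mono h') (hne.image r)).2.2
        (r x) ⟨x, hx, rfl⟩ i q hq
      have h2 : ∀ x, W.Eb (replicate i x + q.map W.cl) = (m + 2) * W.DL (replicate i (r x) + q) -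
          (i * W.vol (r x) + (q.map W.vol).sum) := fun x => by
        have := W.Eb_cl (s := replicate i (r x) + q) (by simpa using hq)
        simpa [E0, r1] using this
      refine ⟨x', hx', ?_⟩
      rw [h2, h2]
      linarith [mul_le_mul_of_nonneg_left h1 h0]

end Val

end Pool.Agent.MP_1ca372_al.H38
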