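import Pool.Agent.MP_1ca372_al.H38.Spec

/-! Good pairs and the copy inequality restricted to good pairs. -/

namespace Pool.Agent.MP_1ca372_al.H38

open Pool.Agent.MP_1ca372_al.H73
open scoped ENNReal

universe u v

namespace Good

/-- descent to a stable finite set -/
lemma descend {α : Type*} (S : Set α) (Φ : Set α → ℤ) (ε : ℤ) (hε : 0 ≤ ε) (K : ℝ≥0∞)
    (hK : 1 ≤ K) (h0 : ∀ Y ⊆ S, Y.Nonempty → 0 ≤ Φ Y) (w : α → ℝ≥0∞) (L : ℕ) :
    ∀ Y : Finset α, (Y : Set α) ⊆ S → Y.Nonempty → Φ Y ≤ L * ε →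
      ∃ Z ⊆ Y, Z.Nonempty ∧ ∑ x ∈ Y, w x ≤ K ^ L * ∑ x ∈ Z, w x ∧
        ∀ Z' ⊆ Z, Z'.Nonempty → ∑ x ∈ Z, w x ≤ K * ∑ x ∈ Z', w x → Φ Z - Φ Z' ≤ ε := by
  induction L with
  | zero =>
    intro Y hY hne hΦ
    refine ⟨Y, subset_rfl, hne, by simp, fun Z' hZ' hne' _ => ?_⟩
    have := h0 Z' ((Finset.coe_subset.2 hZ').trans hY) (Finset.coe_nonempty.2 hne')
    simp only [Nat.cast_zero, zero_mul] at hΦ
    omega
  | succ L ih =>
    intro Y hY hne hΦ
    by_cases hs : ∀ Z' ⊆ Y, Z'.Nonempty → ∑ x ∈ Y, w x ≤ K * ∑ x ∈ Z', w x → Φ Y - Φ Z' ≤ ε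
    · exact ⟨Y, subset_rfl, hne, le_mul_of_one_le_left' (one_le_pow_of_one_le' hK _), hs⟩
    · push Not at hs
      obtain ⟨Y', hY', hne', hw, hΦ'⟩ := hs
      obtain ⟨Z, hZ, hZne, hZw, hZs⟩ := ih Y' ((Finset.coe_subset.2 hY').trans hY) hne' (by
        push_cast at hΦ
        linarith)
      refine ⟨Z, hZ.trans hY', hZne, hw.trans ?_, hZs⟩
      rw [pow_succ', mul_assoc]
      exact mul_le_mul' le_rfl hZw

/-- on a stable set few pairs are far below the maximum -/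
lemma bad {α : Type*} (Z : Finset α) (hne : Z.Nonempty) (f : α → α → ℤ) (Φ : Set α → ℤ) (ε : ℤ)
    (K : ℝ≥0∞) (w : α → ℝ≥0∞)
    (hs : ∀ Z' ⊆ Z, Z'.Nonempty → ∑ x ∈ Z, w x ≤ K * ∑ x ∈ Z', w x → Φ Z - Φ Z' ≤ ε)
    (h2 : ∀ Y' ⊆ (Z : Set α), Y'.Nonempty → ∀ x ∈ Z, ∀ x' ∈ Z,
      (∃ u ∈ Y', f x x' ≤ f u x' + (Φ Z - Φ Y')) ∧ ∃ u ∈ Y', f x' x ≤ f x' u + (Φ Z - Φ Y')) :
    ∃ c : ℤ, (∀ x ∈ Z, ∀ x' ∈ Z, f x x' ≤ c) ∧
      K * ∑ x ∈ Z, ∑ x' ∈ Z, ind (f x x' < c - 2 * ε) * (w x * w x') ≤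
        2 * (∑ x ∈ Z, w x) ^ 2 := by
  classical
  obtain ⟨q, hq, hmax⟩ := (Z ×ˢ Z).exists_max_image (fun q => f q.1 q.2) (hne.product hne)
  obtain ⟨hq1, hq2⟩ := Finset.mem_product.1 hq
  set c := f q.1 q.2 with hc
  refine ⟨c, fun x hx x' hx' => hmax (x, x') (Finset.mem_product.2 ⟨hx, hx'⟩), ?_⟩
  have small : ∀ Z' ⊆ Z, (Z'.Nonempty → ¬ Φ Z - Φ Z' ≤ ε) →
      K * ∑ x ∈ Z', w x ≤ ∑ x ∈ Z, w x := by
    intro Z' hZ' h
    rcases Z'.eq_empty_or_nonempty with rfl | hn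
    · simp
    · by_contra hlt
      exact h hn (hs Z' hZ' hn (not_le.1 hlt).le)
  have hA : K * ∑ x ∈ Z.filter (fun x => ∀ x' ∈ Z, f x x' < c - ε), w x ≤ ∑ x ∈ Z, w x := by
    refine small _ (Finset.filter_subset _ _) fun hn hle => ?_
    obtain ⟨u, hu, h3⟩ := (h2 _ (Finset.coe_subset.2 (Finset.filter_subset _ _))
      (Finset.coe_nonempty.2 hn) q.1 hq1 q.2 hq2).1
    have h4 := (Finset.mem_filter.1 (Finset.mem_coe.1 hu)).2 q.2 hq2
    omega
  have hB : ∀ x ∈ Z, ¬ (∀ x' ∈ Z, f x x' < c - ε) →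
      K * ∑ x' ∈ Z.filter (fun x' => f x x' < c - 2 * ε), w x' ≤ ∑ x ∈ Z, w x := by
    intro x hx hxa
    push Not at hxa
    obtain ⟨x1, hx1, h5⟩ := hxa
    refine small _ (Finset.filter_subset _ _) fun hn hle => ?_
    obtain ⟨u, hu, h3⟩ := (h2 _ (Finset.coe_subset.2 (Finset.filter_subset _ _))
      (Finset.coe_nonempty.2 hn) x1 hx1 x hx).2
    have h4 := (Finset.mem_filter.1 (Finset.mem_coe.1 hu)).2
    omega
  have hrow : ∀ x ∈ Z, K * ∑ x' ∈ Z, ind (f x x' < c - 2 * ε) * (w x * w x') ≤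
      K * (if ∀ x' ∈ Z, f x x' < c - ε then w x else 0) * (∑ x ∈ Z, w x) +
        w x * ∑ x ∈ Z, w x := by
    intro x hx
    by_cases hxa : ∀ x' ∈ Z, f x x' < c - ε
    · rw [if_pos hxa, mul_assoc]
      refine le_trans (mul_le_mul' le_rfl ?_) le_self_add
      rw [Finset.mul_sum]
      exact Finset.sum_le_sum fun x' _ => mul_le_of_le_one_left' (ind_le_one _)
    · refine le_trans ?_ le_add_self
      refine le_trans (le_of_eq ?_) (mul_le_mul' (le_refl (w x)) (hB x hx hxa))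
      rw [mul_left_comm, Finset.mul_sum (a := w x), Finset.sum_filter]
      congr 1
      refine Finset.sum_congr rfl fun x' _ => ?_
      by_cases h : f x x' < c - 2 * ε
      · rw [ind_pos h, if_pos h, one_mul]
      · rw [ind_neg h, if_neg h, zero_mul]
  rw [Finset.mul_sum]
  refine (Finset.sum_le_sum hrow).trans ?_
  rw [Finset.sum_add_distrib, ← Finset.sum_mul, ← Finset.sum_mul, ← Finset.mul_sum,
    ← Finset.sum_filter, two_mul, sq]
  exact add_le_add (mul_le_mul' hA le_rfl) le_rfl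

/-- on a stable set half of the pairs are good -/
lemma stable {α P : Type*} [Fintype P] (Z : Finset α) (hne : Z.Nonempty) (f : P → α → α → ℤ)
    (Φ : Set α → ℤ) (ε : ℤ) (hε : 0 ≤ ε) (w : α → ℝ≥0∞)
    (hs : ∀ Z' ⊆ Z, Z'.Nonempty →
      ∑ x ∈ Z, w x ≤ (4 * Fintype.card P + 4) * ∑ x ∈ Z', w x → Φ Z - Φ Z' ≤ ε)
    (h2 : ∀ Y' ⊆ (Z : Set α), Y'.Nonempty → ∀ x ∈ Z, ∀ x' ∈ Z, ∀ p,
      (∃ u ∈ Y', f p x x' ≤ f p u x' + (Φ Z - Φ Y')) ∧
      ∃ u ∈ Y', f p x' x ≤ f p x' u + (Φ Z - Φ Y')) :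
    (∑ x ∈ Z, w x) ^ 2 ≤
      2 * ∑ x ∈ Z, ∑ x' ∈ Z, ind (∀ p, f p x x' ≤ f p x' x + 2 * ε) * (w x * w x') := by
  choose c hc hb using fun p => bad Z hne (f p) Φ ε _ w hs
    fun Y' hY' hn x hx x' hx' => h2 Y' hY' hn x hx x' hx' p
  set G := ∑ x ∈ Z, ∑ x' ∈ Z, ind (∀ p, f p x x' ≤ f p x' x + 2 * ε) * (w x * w x') with hG
  by_cases htop : ∑ x ∈ Z, w x = ⊤
  · obtain ⟨x, hx, hw⟩ := ENNReal.sum_eq_top.1 htop
    have h1 : ind (∀ p, f p x x ≤ f p x x + 2 * ε) * (w x * w x) ≤ G :=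
      (Finset.single_le_sum (f := fun x' => ind (∀ p, f p x x' ≤ f p x' x + 2 * ε) *
        (w x * w x')) (fun _ _ => bot_le) hx).trans
      (Finset.single_le_sum (f := fun x => ∑ x' ∈ Z, ind (∀ p, f p x x' ≤ f p x' x + 2 * ε) *
        (w x * w x')) (fun _ _ => bot_le) hx)
    rw [ind_pos fun p => by omega, hw] at h1
    have h3 : G = ⊤ := by simpa using h1
    simp [h3]
  set W := ∑ x ∈ Z, w x with hW
  have h3 : W ^ 2 ≤ G + ∑ p, ∑ x ∈ Z, ∑ x' ∈ Z, ind (f p x x' < c p - 2 * ε) * (w x * w x') := by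
    have h4 : ∑ p, ∑ x ∈ Z, ∑ x' ∈ Z, ind (f p x x' < c p - 2 * ε) * (w x * w x') =
        ∑ x ∈ Z, ∑ x' ∈ Z, ∑ p, ind (f p x' x < c p - 2 * ε) * (w x * w x') := by
      rw [Finset.sum_comm, Finset.sum_comm (s := Z) (t := Z)]
      refine Finset.sum_congr rfl fun x _ => ?_
      rw [Finset.sum_comm]
      exact Finset.sum_congr rfl fun x' _ => Finset.sum_congr rfl fun p _ => by
        rw [mul_comm (w x)]
    rw [h4, hG, ← Finset.sum_add_distrib, sq, hW, Finset.sum_mul_sum]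
    refine Finset.sum_le_sum fun x hx => ?_
    rw [← Finset.sum_add_distrib]
    refine Finset.sum_le_sum fun x' hx' => ?_
    by_cases hg : ∀ p, f p x x' ≤ f p x' x + 2 * ε
    · rw [ind_pos hg, one_mul]
      exact le_self_add
    · push Not at hg
      obtain ⟨p, hp⟩ := hg
      have h5 := hc p x hx x' hx'
      refine le_trans ?_ le_add_self
      refine le_trans (le_of_eq ?_) (Finset.single_le_sum (f := fun p =>
        ind (f p x' x < c p - 2 * ε) * (w x * w x')) (fun _ _ => bot_le) (Finset.mem_univ p))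
      rw [ind_pos (by omega), one_mul]
  have h5 : (4 * Fintype.card P + 4 : ℝ≥0∞) * W ^ 2 ≤
      (4 * Fintype.card P + 4) * G + Fintype.card P * (2 * W ^ 2) := by
    refine (mul_le_mul' le_rfl h3).trans ?_
    rw [mul_add]
    refine add_le_add le_rfl ?_
    rw [Finset.mul_sum]
    refine (Finset.sum_le_sum fun p _ => hb p).trans_eq ?_
    rw [Finset.sum_const, Finset.card_univ, nsmul_eq_mul]
  have hfin : (Fintype.card P : ℝ≥0∞) * (2 * W ^ 2) ≠ ⊤ := by finiteness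
  have h6 : (2 * Fintype.card P + 4 : ℝ≥0∞) * W ^ 2 ≤ (4 * Fintype.card P + 4) * G := by
    refine ENNReal.le_of_add_le_add_right hfin (le_trans (le_of_eq ?_) h5)
    ring
  have h7 : (2 * Fintype.card P + 4 : ℝ≥0∞) * W ^ 2 ≤ (2 * Fintype.card P + 4) * (2 * G) := by
    refine h6.trans ?_
    rw [show (2 * Fintype.card P + 4 : ℝ≥0∞) * (2 * G) =
      (4 * Fintype.card P + 4) * G + 4 * G by ring]
    exact le_self_add
  exact (ENNReal.mul_le_mul_iff_right (by simp) (by finiteness)).1 h7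

end Good

/-- weighted good pairs (plan, section 3): descend to a stable finite set, eta = 1 / (4 |P| + 4) -/
theorem good_pairs {α P : Type*} [Fintype P] (S : Set α) (f : P → α → α → ℤ) (Φ : Set α → ℤ)
    (ε : ℤ) (L : ℕ) (hε : 0 ≤ ε) (h1 : ∀ Y ⊆ S, Y.Nonempty → 0 ≤ Φ Y ∧ Φ Y ≤ L * ε)
    (h2 : ∀ Y ⊆ S, ∀ Y' ⊆ Y, Y'.Nonempty → ∀ x ∈ Y, ∀ x' ∈ Y, ∀ p,
      (∃ u ∈ Y', f p x x' ≤ f p u x' + (Φ Y - Φ Y')) ∧
      ∃ u ∈ Y', f p x' x ≤ f p x' u + (Φ Y - Φ Y')) (w : α → ℝ≥0∞) :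
    (∑' x, ind (x ∈ S) * w x) ^ 2 ≤ (2 * (4 * Fintype.card P + 4) ^ (2 * L) : ℕ) *
      ∑' x, ∑' x', ind (x ∈ S ∧ x' ∈ S ∧ ∀ p, f p x x' ≤ f p x' x + 2 * ε) * (w x * w x') := by
  classical
  generalize hR : ((2 * (4 * Fintype.card P + 4) ^ (2 * L) : ℕ) : ℝ≥0∞) *
    ∑' x, ∑' x', ind (x ∈ S ∧ x' ∈ S ∧ ∀ p, f p x x' ≤ f p x' x + 2 * ε) * (w x * w x') = R
  have key : ∀ Y : Finset α, (Y : Set α) ⊆ S → (∑ x ∈ Y, w x) ^ 2 ≤ R := by
    intro Y hY
    rcases Y.eq_empty_or_nonempty with rfl | hne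
    · simp
    obtain ⟨Z, hZ, hZne, hZw, hZs⟩ := Good.descend S Φ ε hε (4 * Fintype.card P + 4)
      (le_trans (by norm_num) le_add_self) (fun Y hY hn => (h1 Y hY hn).1) w L Y hY hne
      (h1 Y hY (Finset.coe_nonempty.2 hne)).2
    have hZS : (Z : Set α) ⊆ S := (Finset.coe_subset.2 hZ).trans hY
    have h3 := Good.stable Z hZne f Φ ε hε w hZs fun Y' hY' hn x hx x' hx' p =>
      h2 Z hZS Y' hY' hn x hx x' hx' p
    have h4 : ∑ x ∈ Z, ∑ x' ∈ Z, ind (∀ p, f p x x' ≤ f p x' x + 2 * ε) * (w x * w x') ≤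
        ∑' x, ∑' x', ind (x ∈ S ∧ x' ∈ S ∧ ∀ p, f p x x' ≤ f p x' x + 2 * ε) * (w x * w x') := by
      refine le_trans (Finset.sum_le_sum fun x hx => ?_) (ENNReal.sum_le_tsum Z)
      refine le_trans (Finset.sum_le_sum fun x' hx' => ?_) (ENNReal.sum_le_tsum Z)
      exact mul_le_mul' (ind_mono fun h => ⟨hZS hx, hZS hx', h⟩) le_rfl
    refine (pow_le_pow_left' hZw 2).trans ?_
    rw [mul_pow, ← hR]
    refine (mul_le_mul' le_rfl (h3.trans (mul_le_mul' le_rfl h4))).trans_eq ?_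
    push_cast
    ring
  have h5 : ∑' x, ind (x ∈ S) * w x ≤ rt R := by
    rw [ENNReal.tsum_eq_iSup_sum]
    refine iSup_le fun s => ?_
    have h6 := rt_mono (key (s.filter (· ∈ S)) fun x hx =>
      (Finset.mem_filter.1 (Finset.mem_coe.1 hx)).2)
    rw [rt_of_sq, Finset.sum_filter] at h6
    refine le_trans (le_of_eq (Finset.sum_congr rfl fun x _ => ?_)) h6
    by_cases h : x ∈ S
    · rw [ind_pos h, if_pos h, one_mul]
    · rw [ind_neg h, if_neg h, zero_mul]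
  exact (pow_le_pow_left' h5 2).trans_eq (rt_sq R)

/-- `bd_copy` of H73.Ana with the covering hypothesis weakened to a weighted inequality -/
theorem bd_copy_good {Γ : Type u} [Group Γ] {I : Type v} {T : Γ × I → Γ × I → Γ × I → Prop}
    {M C : ℝ≥0∞} (hT : Inv3 T) {ι : Type*} (s : Finset ι)
    {U V : ι → Γ × I → Γ × I → Γ × I → Prop} (hU : ∀ i, Inv3 (U i)) (hV : ∀ i, Inv3 (V i))
    {m m' : ι → ℝ≥0∞} (bU : ∀ i ∈ s, Bd (U i) (m i)) (bV : ∀ i ∈ s, Bd (V i) (m' i))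
    (hc : ∀ x z (w : Γ × I → ℝ≥0∞), (∑' y, ind (T x y z) * w y) ^ 2 ≤
      C * ∑' y, ∑' y', ind (∃ i ∈ s, U i x y y' ∧ V i z y y') * (w y * w y'))
    (hM : C * ∑ i ∈ s, m i * m' i ≤ M ^ 2) : Bd T M := by
  intro f g k hf hg hk
  have hT' : Inv3 fun y z x => T x y z := fun γ y z x => hT γ x y z
  rw [← Lam_cyc hT hf hg hk, ← Lam_cyc hT' hg hk hf]
  have h1 := cs2 k fun z x => ∑' y, ind (T x y z) * (f x y * g y z)
  have h2 : nrm (fun z x => ∑' y, ind (T x y z) * (f x y * g y z)) ≤ M * (nrm f * nrm g) := by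
    refine rt_le ?_
    calc _ ≤ S2 fun z x => C * ∑ i ∈ s, ∑' y, ∑' y', ind (U i x y y') * (f x y * f x y') *
            (ind (V i z y y') * (g y z * g y' z)) := by
          refine S2_mono fun z x => (hc x z fun y => f x y * g y z).trans (mul_le_mul' le_rfl ?_)
          rw [← Summable.tsum_finsetSum fun _ _ => ENNReal.summable]
          refine ENNReal.tsum_le_tsum fun y => ?_
          rw [← Summable.tsum_finsetSum fun _ _ => ENNReal.summable]
          refine ENNReal.tsum_le_tsum fun y' => ?_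
          by_cases hy : ∃ i ∈ s, U i x y y' ∧ V i z y y'
          · rw [ind_pos hy]
            obtain ⟨i, hi, h3, h4⟩ := hy
            refine le_trans (le_of_eq ?_) (Finset.single_le_sum (f := fun i =>
              ind (U i x y y') * (f x y * f x y') * (ind (V i z y y') * (g y z * g y' z)))
              (fun _ _ => bot_le) hi)
            rw [ind_pos h3, ind_pos h4]
            ring
          · simp [ind_neg hy]
      _ = C * ∑ i ∈ s, S2 fun y y' => (∑' x, ind (U i x y y') * (f x y * f x y')) *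
            ∑' z, ind (V i z y y') * (g y z * g y' z) := by
          rw [S2_mul, S2_sum]
          congr 1
          refine Finset.sum_congr rfl fun i _ => ?_
          rw [S2_comm, ← S2_swap]
          · simp only [← ENNReal.tsum_mul_right]
            simp only [← ENNReal.tsum_mul_left]
            unfold S2
            refine tsum_congr fun j => ?_
            rw [ENNReal.tsum_comm]
            simp only [ENNReal.tsum_comm (f := fun z y' => ind (U i _ (1, j) y') * _ * _)]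
            exact ENNReal.tsum_comm
          · refine Inv3.tsum fun γ z y x => ?_
            rw [← (act γ).tsum_eq]
            simp only [hU i γ, hV i γ, hf γ, hg γ]
      _ ≤ C * ∑ i ∈ s, m i * (nrm f * nrm f) * (m' i * (nrm g * nrm g)) := by
          refine mul_le_mul' le_rfl
            (Finset.sum_le_sum fun i hi => (cs2 _ _).trans (mul_le_mul' ?_ ?_))
          · have h3 := (bU i hi).conv (hU i) hf hf.swap
            rwa [nrm_swap hf] at h3
          · have h3 := (bV i hi).conv (hV i) hg.swap hg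
            rwa [nrm_swap hg] at h3
      _ = (C * ∑ i ∈ s, m i * m' i) * (nrm f * nrm g) ^ 2 := by
          rw [mul_assoc, Finset.sum_mul]
          congr 1
          exact Finset.sum_congr rfl fun i _ => by ring
      _ ≤ _ := by
          rw [mul_pow M]
          exact mul_le_mul' hM le_rfl
  refine le_trans (le_of_eq ?_) (h1.trans ((mul_le_mul' le_rfl h2).trans_eq (by ring)))
  refine S2_congr fun z x => ?_
  rw [← ENNReal.tsum_mul_left]
  exact tsum_congr fun y => by ring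

/-- good pairs for a geometry: most pairs over a fixed side are symmetric -/
theorem Geo.good {X : Type v} {m : ℕ} (G : Geo X m) (L : ℕ) : ∃ C : ℕ, ∀ {α : Type (max u v)}
    (π : α → X) (y z : X) (t : ℕ) (S : Set α) (_ : ∀ x ∈ S, dd m G.E y (π x) ≤ L * t)
    (w : α → ℝ≥0∞), (∑' x, ind (x ∈ S) * w x) ^ 2 ≤
      C * ∑' x, ∑' x', ind (x ∈ S ∧ x' ∈ S ∧ Sym m (4 * t) (h4 G.E (π x) (π x') y z)) *
        (w x * w x') := by
  let P := {q : Fin (m + 3) × Fin (m + 3) × Fin (m + 3) × Fin (m + 3) //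
    (q.1 : ℕ) + q.2.1 + q.2.2.1 + q.2.2.2 = m + 2}
  refine ⟨2 * (4 * Fintype.card P + 4) ^ (2 * (G.B * L)), ?_⟩
  intro α π y z t S hS w
  obtain ⟨a, Φ, hΦ1, hΦ2⟩ := G.pot y (L * t)
  have him : ∀ Y ⊆ S, π '' Y ⊆ {x | dd m G.E y x ≤ ((L * t : ℕ) : ℤ)} := by
    rintro Y hY _ ⟨x, hx, rfl⟩
    have := hS x (hY hx)
    simpa using this
  have h := good_pairs (P := P) S (fun p x x' => h4 G.E (π x) (π x') y z p.1.1 p.1.2.1 p.1.2.2.1
      p.1.2.2.2 + (p.1.1 : ℕ) * a (π x) + (p.1.2.1 : ℕ) * a (π x')) (fun Y => Φ (π '' Y)) t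
    (G.B * L) (Nat.cast_nonneg t) (fun Y hY hn => by
      have h1 := hΦ1 _ (him Y hY) (hn.image π)
      refine ⟨h1.1, h1.2.trans_eq ?_⟩
      push_cast
      ring) (fun Y hY Y' hY' hn x hx x' hx' p => by
      obtain ⟨⟨i, i', j, k⟩, hp⟩ := p
      dsimp only at hp
      constructor
      · obtain ⟨_, ⟨u, hu, rfl⟩, h1⟩ := hΦ2 _ (him Y hY) _ (Set.image_mono hY') (hn.image π) _
          ⟨x, hx, rfl⟩ i (Multiset.replicate i' (π x') + Multiset.replicate j y +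
            Multiset.replicate k z) (by simp only [Multiset.card_add, Multiset.card_replicate]; omega)
        refine ⟨u, hu, ?_⟩
        simp only [h4, add_assoc] at h1 ⊢
        linarith
      · obtain ⟨_, ⟨u, hu, rfl⟩, h1⟩ := hΦ2 _ (him Y hY) _ (Set.image_mono hY') (hn.image π) _
          ⟨x, hx, rfl⟩ i' (Multiset.replicate i (π x') + Multiset.replicate j y +
            Multiset.replicate k z) (by simp only [Multiset.card_add, Multiset.card_replicate]; omega)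
        refine ⟨u, hu, ?_⟩
        simp only [h4, add_assoc] at h1 ⊢
        rw [add_left_comm (Multiset.replicate (i : ℕ) (π x')) (Multiset.replicate (i' : ℕ) (π x)),
          add_left_comm (Multiset.replicate (i : ℕ) (π x')) (Multiset.replicate (i' : ℕ) (π u))]
        linarith) w
  refine h.trans (mul_le_mul' le_rfl (ENNReal.tsum_le_tsum fun x => ENNReal.tsum_le_tsum
    fun x' => mul_le_mul' (ind_mono ?_) le_rfl))
  rintro ⟨hx, hx', hg⟩
  refine ⟨hx, hx', fun i i' j k hp => ?_⟩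
  have h1 := hg ⟨(⟨i, by omega⟩, ⟨i', by omega⟩, ⟨j, by omega⟩, ⟨k, by omega⟩), hp⟩
  have h2 := hg ⟨(⟨m + 2, by omega⟩, ⟨0, by omega⟩, ⟨0, by omega⟩, ⟨0, by omega⟩), rfl⟩
  have h3 := hg ⟨(⟨0, by omega⟩, ⟨m + 2, by omega⟩, ⟨0, by omega⟩, ⟨0, by omega⟩), by simp⟩
  simp only [h4, Multiset.replicate_zero, add_zero, zero_add, G.diag, Nat.cast_zero,
    zero_mul] at h1 h2 h3 ⊢
  rw [add_comm (Multiset.replicate i (π x')) (Multiset.replicate i' (π x))] at h1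
  have hi : (i : ℤ) - i' ≤ (m + 2 : ℕ) := by omega
  have hi' : (i' : ℤ) - i ≤ (m + 2 : ℕ) := by omega
  rcases le_total (a (π x)) (a (π x')) with hd | hd
  · nlinarith [mul_le_mul_of_nonneg_right hi (sub_nonneg.2 hd)]
  · nlinarith [mul_le_mul_of_nonneg_right hi' (sub_nonneg.2 hd)]

end Pool.Agent.MP_1ca372_al.H38
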