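import Pool.Agent.MP_1ca372_al.H38.Calc
import Pool.Agent.MP_1ca372_al.H38.Good

/-! From a geometry and a game to property (RD). -/

namespace Pool.Agent.MP_1ca372_al.H38

open Pool.Agent.MP_1ca372_al.H73
open scoped ENNReal

universe u v

namespace Red

/-- the bootstrap from exponential to polynomial bounds -/
theorem boot (B : ℕ → ℝ≥0∞ → Prop) (hmono : ∀ r M M', B r M → M ≤ M' → B r M') (W a C r0 : ℕ)
    (hW : 1 ≤ W) (hr0 : 1 ≤ r0) (hb : ∀ r, B r (W ^ (a * r + 1)))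
    (hs : ∀ μ : ℕ → ℝ≥0∞, (∀ r, B r (μ r)) → ∀ r, r0 ≤ r → ∀ ν : ℝ≥0∞,
      (∀ r1 r2, 4 * (r1 + r2) ≤ 7 * r → μ r1 * μ r2 ≤ ν ^ 2) → B r (C * ν)) :
    ∃ (A : ℝ≥0∞) (D : ℕ), A ≠ ⊤ ∧ ∀ r : ℕ, B r (A * (1 + r) ^ D) := by
  have hN : (1 : ℝ) ≤ W := by exact_mod_cast hW
  have hC0 : (0 : ℝ) < C + 1 := by positivity
  obtain ⟨D, hD⟩ := exists_pow_lt_of_lt_one (inv_pos.2 hC0) (show (15 / 16 : ℝ) < 1 by norm_num)
  have hD' : (C + 1 : ℝ) * (15 / 16) ^ D ≤ 1 := by
    exact (mul_le_mul_of_nonneg_left hD.le hC0.le).trans_eq (mul_inv_cancel₀ hC0.ne')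
  obtain ⟨η, hη⟩ : ∃ η : ℝ, η = a * Real.log W := ⟨_, rfl⟩
  have hη0 : 0 ≤ η := hη ▸ mul_nonneg (by positivity) (Real.log_nonneg hN)
  have hb' : ∀ r : ℕ, B r (ENNReal.ofReal (W ^ (a * r + 1))) := by
    intro r
    rw [ENNReal.ofReal_pow (by positivity), ENNReal.ofReal_natCast]
    exact hb r
  obtain ⟨E, hE⟩ : ∃ E : ℕ, E = a * r0 + 1 := ⟨_, rfl⟩
  have key : ∀ k r : ℕ, B r
      (ENNReal.ofReal (W ^ E * (1 + r) ^ D * Real.exp (η * (7 / 8) ^ k * r))) := by
    intro k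
    induction k with
    | zero =>
      intro r
      refine hmono _ _ _ (hb' r) (ENNReal.ofReal_le_ofReal ?_)
      have h1 : Real.exp (η * (7 / 8) ^ 0 * r) = W ^ (a * r) := by
        rw [← Real.exp_log (show (0 : ℝ) < W ^ (a * r) by positivity), Real.log_pow, hη]
        congr 1
        push_cast
        ring
      rw [h1, pow_add, mul_comm]
      refine mul_le_mul_of_nonneg_right ?_ (by positivity)
      exact (pow_le_pow_right₀ hN (by omega)).trans
        (le_mul_of_one_le_right (by positivity) (one_le_pow₀ (by simp)))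
    | succ k ih =>
      intro r
      rcases lt_or_ge r r0 with hr | hr
      · refine hmono _ _ _ (hb' r) (ENNReal.ofReal_le_ofReal ?_)
        rw [mul_assoc]
        have h0 := Nat.mul_le_mul_left a hr.le
        exact (pow_le_pow_right₀ hN (by omega)).trans (le_mul_of_one_le_right (by positivity)
          (one_le_mul_of_one_le_of_one_le (one_le_pow₀ (by simp))
            (Real.one_le_exp (by positivity))))
      have h1 := hs _ ih r hr (ENNReal.ofReal ((15 / 16) ^ D *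
        (W ^ E * (1 + r) ^ D * Real.exp (η * (7 / 8) ^ (k + 1) * r)))) fun r1 r2 h => by
          rw [← ENNReal.ofReal_mul (by positivity), ← ENNReal.ofReal_pow (by positivity)]
          refine ENNReal.ofReal_le_ofReal ?_
          have h2 : (4 : ℝ) * (r1 + r2) ≤ 7 * r := by exact_mod_cast h
          have h3 : (1 : ℝ) ≤ r := by exact_mod_cast hr0.trans hr
          have h4 : (1 + r1 : ℝ) * (1 + r2) ≤ (15 / 16 * (1 + r)) ^ 2 := by
            have h5 : (1 + r1 : ℝ) + (1 + r2) ≤ 2 * (15 / 16 * (1 + r)) := by linarith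
            have h6 : (0 : ℝ) ≤ (1 + r1) + (1 + r2) := by positivity
            nlinarith [sq_nonneg ((1 + r1 : ℝ) - (1 + r2)), pow_le_pow_left₀ h6 h5 2]
          have h5 : Real.exp (η * (7 / 8) ^ k * r1) * Real.exp (η * (7 / 8) ^ k * r2) ≤
              Real.exp (η * (7 / 8) ^ (k + 1) * r) ^ 2 := by
            rw [sq, ← Real.exp_add, ← Real.exp_add, Real.exp_le_exp, pow_succ]
            have h6 : 0 ≤ η * (7 / 8) ^ k := by positivity
            nlinarith
          calc _ = (W ^ E) ^ 2 * ((1 + r1 : ℝ) * (1 + r2)) ^ D *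
                (Real.exp (η * (7 / 8) ^ k * r1) * Real.exp (η * (7 / 8) ^ k * r2)) := by
                rw [mul_pow]
                ring
            _ ≤ (W ^ E) ^ 2 * ((15 / 16 * (1 + r)) ^ 2) ^ D *
                Real.exp (η * (7 / 8) ^ (k + 1) * r) ^ 2 := by gcongr
            _ = _ := by
                rw [← pow_mul (15 / 16 * (1 + r) : ℝ), mul_comm 2 D, pow_mul, mul_pow (15 / 16 : ℝ)]
                ring
      refine hmono _ _ _ h1 ?_
      rw [← ENNReal.ofReal_natCast C, ← ENNReal.ofReal_mul (by positivity), ← mul_assoc]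
      refine ENNReal.ofReal_le_ofReal (mul_le_of_le_one_left (by positivity) (le_trans ?_ hD'))
      gcongr
      linarith
  refine ⟨ENNReal.ofReal (W ^ E * Real.exp 1), D, ENNReal.ofReal_ne_top, fun r => ?_⟩
  obtain ⟨k, hk⟩ := exists_pow_lt_of_lt_one (show 0 < (η * r + 1)⁻¹ by positivity)
    (show (7 / 8 : ℝ) < 1 by norm_num)
  have e : (1 + r : ℝ≥0∞) ^ D = ENNReal.ofReal ((1 + r) ^ D) := by
    rw [ENNReal.ofReal_pow (by positivity), ENNReal.ofReal_add zero_le_one (by positivity),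
      ENNReal.ofReal_one, ENNReal.ofReal_natCast]
  rw [e, ← ENNReal.ofReal_mul (by positivity)]
  refine hmono _ _ _ (key k r) (ENNReal.ofReal_le_ofReal ?_)
  rw [mul_right_comm _ (Real.exp 1)]
  refine mul_le_mul_of_nonneg_left (Real.exp_le_exp.2 ?_) (by positivity)
  have h1 : (η * r + 1) * (7 / 8) ^ k ≤ 1 := by
    refine le_trans (mul_le_mul_of_nonneg_left hk.le (by positivity)) (le_of_eq ?_)
    exact mul_inv_cancel₀ (by positivity)
  have h2 : (0 : ℝ) ≤ (7 / 8) ^ k := by positivity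
  nlinarith

variable {X : Type v} {m : ℕ}

/-- the function cut off outside degree `m + 2` -/
def cut (m : ℕ) (E : Multiset X → ℤ) (s : Multiset X) : ℤ :=
  if Multiset.card s = m + 2 then E s else 0

lemma cut_eq {E : Multiset X → ℤ} {s : Multiset X} (h : Multiset.card s = m + 2) :
    cut m E s = E s := if_pos h

lemma hv_cut (E : Multiset X → ℤ) (x y z : X) {i j k : ℕ} (h : i + j + k = m + 2) :
    hv (cut m E) x y z i j k = hv E x y z i j k := cut_eq (by simpa using h)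

lemma dd_cut (E : Multiset X → ℤ) : dd m (cut m E) = dd m E := by
  funext x y
  rw [dd, dd, cut_eq (by simp), cut_eq (by simp)]

/-- the geometry with the cut function -/
def trunc (G : Geo X m) : Geo X m where
  E := cut m G.E
  St := G.St
  N := G.N
  B := G.B
  p1 := fun a b c f p hp => by
    rw [cut_eq (by simp [hp]), cut_eq (by simp [hp]), cut_eq (by simp [hp]), cut_eq (by simp [hp]),
      cut_eq (by simp [hp]), cut_eq (by simp [hp])]
    exact G.p1 a b c f p hp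
  diag := fun x => by rw [cut_eq (by simp), G.diag]
  uniq := G.uniq
  step := fun c x y z hc h => by
    obtain ⟨w, h1, h2, h3⟩ := G.step c x y z hc fun a b hab => by
      have h4 := h a b hab
      rwa [sl, hv_cut _ _ _ _ (by omega), hv_cut _ _ _ _ (by omega), hv_cut _ _ _ _ (by omega),
        hv_cut _ _ _ _ (by omega)] at h4
    exact ⟨w, h1, h2, fun a b i hi => by rw [hv_cut _ _ _ _ hi, hv_cut _ _ _ _ hi, h3 a b i hi]⟩
  split := by rw [dd_cut]; exact G.split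
  ball := by rw [dd_cut]; exact G.ball
  pot := fun y R => by
    rw [dd_cut]
    obtain ⟨a, Φ, h1, h2⟩ := G.pot y R
    refine ⟨a, Φ, h1, fun Y hY Y' hY' hne x hx i q hq => ?_⟩
    obtain ⟨x', h3, h4⟩ := h2 Y hY Y' hY' hne x hx i q hq
    exact ⟨x', h3, by rwa [cut_eq (by simpa using hq), cut_eq (by simpa using hq)]⟩

variable {Γ : Type u} [Group Γ] [MulAction Γ X] {S : ℕ}

lemma trunc_act {G : Geo X m} (hA : G.Act Γ S) : (trunc G).Act Γ S where
  E_inv := fun γ s hs => by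
    change cut m G.E _ = cut m G.E _
    rw [cut_eq hs, cut_eq (by simpa using hs), hA.E_inv γ s hs]
  St_inv := hA.St_inv
  stab := hA.stab

lemma trunc_inv {G : Geo X m} (hA : G.Act Γ S) (γ : Γ) (x y z : X) :
    hv (trunc G).E (γ • x) (γ • y) (γ • z) = hv (trunc G).E x y z := by
  funext i j k
  change hv (cut m G.E) _ _ _ i j k = hv (cut m G.E) _ _ _ i j k
  by_cases h : i + j + k = m + 2
  · rw [hv_cut _ _ _ _ h, hv_cut _ _ _ _ h, hv, hv, ← hA.E_inv γ (Multiset.replicate i x +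
      Multiset.replicate j y + Multiset.replicate k z) (by simpa using h)]
    simp
  · rw [hv, hv, cut, cut, if_neg (by simpa using h), if_neg (by simpa using h)]

/-- a free cover with bounded fibres on which all hives are invariant -/
structure Cov (G : Geo X m) (Γ : Type u) [Group Γ] [MulAction Γ X] (S : ℕ) {I : Type v}
    (π : Γ × I → X) : Prop where
  A : G.Act Γ S
  inv : ∀ (γ : Γ) x y z, hv G.E (γ • x) (γ • y) (γ • z) = hv G.E x y z
  act : ∀ γ y, π (act γ y) = γ • π y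
  surj : Function.Surjective π
  lift : ∀ P : Set X, ∑' w, ind (π w ∈ P) ≤ S * P.encard

lemma exists_cov {G : Geo X m} (hA : G.Act Γ S) :
    ∃ π : Γ × MulAction.orbitRel.Quotient Γ X → X, Cov (trunc G) Γ S π := by
  obtain ⟨π, hπ⟩ : ∃ π : Γ × MulAction.orbitRel.Quotient Γ X → X,
    π = fun y => y.1 • Quotient.out y.2 := ⟨_, rfl⟩
  have hact : ∀ γ y, π (act γ y) = γ • π y := fun γ y => hπ ▸ mul_smul γ y.1 _
  have hq : ∀ y, Quotient.mk _ (π y) = y.2 := fun y =>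
    hπ ▸ (Quotient.sound (MulAction.mem_orbit _ y.1)).trans (Quotient.out_eq y.2)
  have hs : Function.Surjective π := fun x => by
    obtain ⟨g, hg⟩ : x ∈ MulAction.orbit Γ (Quotient.out (s := MulAction.orbitRel Γ X) ⟦x⟧) :=
      Quotient.exact (s := MulAction.orbitRel Γ X) (Quotient.out_eq _).symm
    exact ⟨(g, ⟦x⟧), hπ ▸ hg⟩
  have hfib : ∀ x, ∑' w, ind (π w = x) ≤ S := by
    intro x
    obtain ⟨⟨g, i⟩, rfl⟩ := hs x
    refine (tsum_ind {w | π w = π (g, i)}).trans_le ?_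
    have h1 : {w | π w = π (g, i)}.encard ≤ S := by
      refine le_trans (Set.encard_le_encard_of_injOn (f := fun w => w.1 * g⁻¹) ?_ ?_)
        (hA.stab (π (g, i)))
      · rintro ⟨g', j⟩ hw
        obtain rfl : j = i := (hq (g', j)).symm.trans ((congrArg _ hw).trans (hq (g, i)))
        change (g' * g⁻¹) • π (g, j) = π (g, j)
        rw [← hact, act_apply, inv_mul_cancel_right]
        exact hw
      · rintro w hw w' hw' h
        exact Prod.ext (mul_right_cancel h)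
          ((hq w).symm.trans ((congrArg _ (hw.trans hw'.symm)).trans (hq w')))
    exact_mod_cast h1
  refine ⟨π, trunc_act hA, trunc_inv hA, hact, hs, fun P => ?_⟩
  calc _ ≤ ∑' w, ∑' x, ind (π w = x) * ind (x ∈ P) := by
        refine ENNReal.tsum_le_tsum fun w => le_trans (le_of_eq ?_) (ENNReal.le_tsum (π w))
        rw [ind_pos rfl, one_mul]
    _ ≤ _ := by
        rw [ENNReal.tsum_comm, ← tsum_ind, ← ENNReal.tsum_mul_left]
        refine ENNReal.tsum_le_tsum fun x => ?_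
        rw [ENNReal.tsum_mul_right]
        exact mul_le_mul' (hfib x) le_rfl

variable {I : Type v}

/-- trilinear bound for a class of hives -/
def BH (G : Geo X m) (π : Γ × I → X) (P : Hive → Prop) (M : ℝ≥0∞) : Prop :=
  Bd (fun x y z => P (hv G.E (π x) (π y) (π z))) M

/-- stability under a change that depends on the last index only -/
def CInv (m : ℕ) (P : Hive → Prop) : Prop :=
  ∀ (h h' : Hive) (C : ℕ → ℤ), (∀ i j k, i + j + k = m + 2 → h' i j k = h i j k + C k) →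
    P h → P h'

/-- the effect of `ν` steps on the line `c` -/
def Gn (m c ν : ℕ) (h h' : Hive) : Prop :=
  ∀ a b i, a + b + i = m + 2 → h' a b i = h a b i + ν * gain m c i

/-- stability under moves of the third vertex -/
def ZInv (m : ℕ) (P : Hive → Prop) : Prop :=
  ∀ (h h' : Hive) (c ν : ℕ), c ≤ m → Gn m c ν h h' → P h → P h'

lemma CInv.z {P : Hive → Prop} (h : CInv m P) : ZInv m P :=
  fun a b c ν _ hg => h a b (fun i => ν * gain m c i) hg

lemma ZInv.and {P Q : Hive → Prop} (h : ZInv m P) (h' : ZInv m Q) : ZInv m fun k => P k ∧ Q k :=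
  fun a b c ν hc hg k => ⟨h a b c ν hc hg k.1, h' a b c ν hc hg k.2⟩

lemma tinv_c {P : Hive → Prop} (h : TInv m P) : CInv m P :=
  fun a b C hg => h a b 0 0 C fun i j k hk => by simpa using hg i j k hk

lemma core1_c (τ : ℤ) : CInv m fun h => CoreZ m τ (rot h) := by
  intro h h' C hg k c hc
  obtain ⟨a, b, h1, h2⟩ := k c hc
  refine ⟨a, b, h1, ?_⟩
  simp only [sl, rot] at h2 ⊢
  rw [hg _ _ _ (by omega), hg _ _ _ (by omega), hg _ _ _ (by omega), hg _ _ _ (by omega)]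
  omega

lemma core2_c (τ : ℤ) : CInv m fun h => CoreZ m τ (rot (rot h)) := by
  intro h h' C hg k c hc
  obtain ⟨a, b, h1, h2⟩ := k c hc
  refine ⟨a, b, h1, ?_⟩
  simp only [sl, rot] at h2 ⊢
  rw [hg _ _ _ (by omega), hg _ _ _ (by omega), hg _ _ _ (by omega), hg _ _ _ (by omega)]
  omega

lemma gain_zero (m c : ℕ) : gain m c 0 = 0 := by
  rw [gain, max_eq_right (by omega)]
  simp

lemma gain_ends {c : ℕ} (hc : c ≤ m) : gain m c 1 + gain m c (m + 1) = -(m + 2) := by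
  rw [gain, gain, max_eq_right (by omega), max_eq_left (by omega)]
  push_cast
  ring

lemma gain_two (m c d : ℕ) : 2 * gain m c (d + 1) - gain m c (d + 2) - gain m c d =
    if d = c then -(m + 2 : ℤ) else 0 := by
  rw [gain, gain, gain]
  rcases lt_trichotomy d c with h | rfl | h
  · rw [max_eq_right (by omega), max_eq_right (by omega), max_eq_right (by omega), if_neg h.ne]
    push_cast
    ring
  · rw [max_eq_right (by omega), max_eq_left (by omega), max_eq_right (by omega), if_pos rfl]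
    push_cast
    ring
  · rw [max_eq_left (by omega), max_eq_left (by omega), max_eq_left (by omega), if_neg h.ne']
    push_cast
    ring

lemma Gn.sl {c ν : ℕ} {h h' : Hive} (hg : Gn m c ν h h') {a b d : ℕ} (hd : a + b + d = m) :
    sl h' a b d = sl h a b d - if d = c then ((m + 2) * ν : ℤ) else 0 := by
  have h1 := gain_two m c d
  rw [H38.sl, H38.sl, hg _ _ _ (by omega), hg _ _ _ (by omega), hg _ _ _ (by omega),
    hg _ _ _ (by omega)]
  split_ifs at h1 ⊢ <;> linear_combination (ν : ℤ) * h1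

lemma diam_z (D : ℤ) : ZInv m (Diam m D) := by
  rintro h h' c ν hc hg ⟨h1, h2, h3⟩
  have e := congrArg ((ν : ℤ) * ·) (gain_ends hc)
  have e0 : (0 : ℤ) ≤ ν * (m + 2) := by positivity
  simp only [mul_add, mul_neg] at e e0
  refine ⟨?_, ?_, ?_⟩ <;> rw [hg _ _ _ (by omega), hg _ _ _ (by omega)]
  · rw [gain_zero]
    omega
  · omega
  · omega

lemma diam_rot {D : ℤ} {h : Hive} : Diam m D (rot h) ↔ Diam m D h := by
  simp only [Diam, rot]
  omega

lemma Diam.mono' {D D' : ℤ} {h : Hive} (k : Diam m D h) (hD : D ≤ D') : Diam m D' h :=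
  ⟨k.1.trans hD, k.2.1.trans hD, k.2.2.trans hD⟩

/-- the number of steps that makes a slack small -/
lemma exists_steps (f : ℕ → ℕ → ℤ) (n : ℕ) (τ : ℤ) (hτ : 0 < τ)
    (hf : ∀ a b, a + b = n → 0 ≤ f a b) :
    ∃ l : ℕ, (∀ a b, a + b = n → l * τ ≤ f a b) ∧ ∃ a b, a + b = n ∧ f a b ≤ l * τ + τ := by
  obtain ⟨p, hp, hmin⟩ := (Finset.range (n + 1)).exists_min_image (fun p => f p (n - p))
    ⟨0, by simp⟩
  rw [Finset.mem_range] at hp
  have h0 := hf p (n - p) (by omega)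
  have h1 : ((f p (n - p) / τ).toNat : ℤ) = f p (n - p) / τ :=
    Int.toNat_of_nonneg (Int.ediv_nonneg h0 hτ.le)
  refine ⟨(f p (n - p) / τ).toNat, fun a b hab => ?_, p, n - p, by omega, ?_⟩
  · rw [h1]
    obtain rfl : b = n - a := by omega
    exact (Int.ediv_mul_le _ hτ.ne').trans (hmin a (Finset.mem_range.2 (by omega)))
  · rw [h1]
    have h2 := Int.lt_ediv_add_one_mul_self (f p (n - p)) hτ
    rw [add_mul, one_mul] at h2
    exact h2.le

variable {G : Geo X m} {π : Γ × I → X} {P P' : Hive → Prop} {M M' : ℝ≥0∞}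

omit [MulAction Γ X] in
lemma BH.mono (h : BH G π P' M') (hP : ∀ x y z, P (hv G.E x y z) → P' (hv G.E x y z))
    (hM : M' ≤ M) : BH G π P M :=
  Bd.mono h (fun _ _ _ => hP _ _ _) hM

omit [MulAction Γ X] in
lemma BH.or (h : BH G π P M) (h' : BH G π P' M') : BH G π (fun k => P k ∨ P' k) (M + M') :=
  Bd.or h h'

omit [MulAction Γ X] in
lemma BH.swp (h : BH G π P M) : BH G π (fun k => P (swp k)) M :=
  (Bd.swap h).mono (fun x y z k => by rwa [hv_swp]) le_rfl

namespace Cov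

variable (V : Cov G Γ S π)
include V

lemma inv3 (P : Hive → Prop) : Inv3 fun x y z => P (hv G.E (π x) (π y) (π z)) :=
  fun γ x y z => by simp only [V.act, V.inv]

lemma rot2 (h : BH G π P M) : BH G π (fun k => P (rot (rot k))) M :=
  (Bd.cyc (V.inv3 P) h).mono (fun x y z k => by rwa [hv_rot, hv_rot]) le_rfl

lemma rot1 (h : BH G π P M) : BH G π (fun k => P (rot k)) M := V.rot2 (V.rot2 h)

lemma dd_inv (γ : Γ) (x y : X) : dd m G.E (γ • x) (γ • y) = dd m G.E x y := by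
  rw [dd, dd, ← V.A.E_inv γ (x ::ₘ _) (by simp), ← V.A.E_inv γ (y ::ₘ _) (by simp)]
  simp

/-- reduction along all lines at the third vertex -/
lemma lines (hP : ZInv m P) {ν0 : ℕ} (hν : 0 < ν0) (F : ℕ → X → X → Set ℕ)
    (hFi : ∀ (γ : Γ) c z x, F c (γ • z) (γ • x) = F c z x) {n0 : ℕ}
    (hF : ∀ c z x, (F c z x).encard ≤ n0)
    (hsel : ∀ c ≤ m, ∀ (x y z w : X) (l : ℕ), P (hv G.E x y z) →
      Gn m c (l * ν0) (hv G.E x y z) (hv G.E x y w) →
      (∀ a b, a + b + c = m → ((m + 2) * (l * ν0 : ℕ) : ℤ) ≤ sl (hv G.E x y z) a b c) →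
      (∃ a b, a + b + c = m ∧ sl (hv G.E x y w) a b c ≤ (m + 2) * ν0) →
      l ∈ F c z x ∧ l ∈ F c z y)
    (h : BH G π (fun k => P k ∧ CoreZ m ((m + 2) * ν0) k) M) :
    BH G π P ((S * n0) ^ (m + 1) * M) := by
  classical
  have key : ∀ j, j ≤ m + 1 → BH G π (fun k => P k ∧ ∀ c, j ≤ c → c ≤ m →
      ∃ a b, a + b + c = m ∧ sl k a b c ≤ (m + 2) * ν0) ((S * n0) ^ j * M) := by
    intro j
    induction j with
    | zero =>
      intro _
      exact h.mono (fun x y z k => ⟨k.1, fun c hc => k.2 c bot_le hc⟩) (by simp)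
    | succ c ih =>
      intro hc
      have hcm : c ≤ m := by omega
      have cnt : ∀ z x : Γ × I,
          ∑' w, ind (∃ l ∈ F c (π z) (π x), G.Mv c (π x) (l * ν0) (π z) (π w)) ≤ S * n0 := by
        intro z x
        refine (V.lift {w | ∃ l ∈ F c (π z) (π x), G.Mv c (π x) (l * ν0) (π z) w}).trans
          (mul_le_mul' le_rfl ?_)
        have h1 : {w | ∃ l ∈ F c (π z) (π x), G.Mv c (π x) (l * ν0) (π z) w}.encard ≤ n0 := by
          refine le_trans (Set.encard_le_encard ?_) ((Set.encard_image_le (fun l =>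
            if k : ∃ w, G.Mv c (π x) (l * ν0) (π z) w then k.choose else π z) _).trans
            (hF c (π z) (π x)))
          rintro w ⟨l, h1, h2⟩
          refine ⟨l, h1, ?_⟩
          have k : ∃ w, G.Mv c (π x) (l * ν0) (π z) w := ⟨w, h2⟩
          exact (dif_pos k).trans (G.Mv_uniq k.choose_spec h2)
        exact_mod_cast h1
      have hR : Inv3 fun z x w : Γ × I =>
          ∃ l ∈ F c (π z) (π x), G.Mv c (π x) (l * ν0) (π z) (π w) := fun γ z x w => by
        simp only [V.act, hFi, G.Mv_inv V.A]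
      rw [pow_succ', mul_assoc]
      refine Bd.reduce (ih (by omega)) hR hR cnt cnt fun x y z k => ?_
      obtain ⟨l, h1, a, b, h2, h3⟩ := exists_steps (fun a b => sl (hv G.E (π x) (π y) (π z)) a b c)
        (m - c) ((m + 2) * ν0) (by positivity) fun a b hab => G.sl_nonneg _ _ _ (by omega)
      have h4 : ∀ a b, a + b + c = m →
          ((m + 2) * (l * ν0 : ℕ) : ℤ) ≤ sl (hv G.E (π x) (π y) (π z)) a b c := fun a b hab =>
        le_trans (le_of_eq (by push_cast; ring)) (h1 a b (by omega))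
      obtain ⟨w, h5, h6, h7⟩ := G.move hcm h4
      obtain ⟨w, rfl⟩ := V.surj w
      have h8 : ∃ a b, a + b + c = m ∧ sl (hv G.E (π x) (π y) (π w)) a b c ≤ (m + 2) * ν0 := by
        refine ⟨a, b, by omega, ?_⟩
        rw [Gn.sl h7 (by omega), if_pos rfl]
        push_cast
        linarith
      obtain ⟨h9, h10⟩ := hsel c hcm _ _ _ _ l k.1 h7 h4 h8
      refine ⟨w, ⟨hP _ _ c _ hcm h7 k.1, fun d hd hd' => ?_⟩, ⟨l, h9, h5⟩, ⟨l, h10, h6⟩⟩
      rcases hd.lt_or_eq with hd | rfl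
      · obtain ⟨a', b', e1, e2⟩ := k.2 d hd hd'
        exact ⟨a', b', e1, by rwa [Gn.sl h7 e1, if_neg hd.ne', sub_zero]⟩
      · exact h8
  exact (key (m + 1) le_rfl).mono (fun x y z k => ⟨k, fun c h1 h2 => by omega⟩) le_rfl

lemma coarseZ (hP : ZInv m P) {ν0 L : ℕ} {D : ℤ} (hν : 0 < ν0) (hD : D ≤ L * ((m + 2) * ν0))
    (h : BH G π (fun k => (P k ∧ Diam m D k) ∧ CoreZ m ((m + 2) * ν0) k) M) :
    BH G π (fun k => P k ∧ Diam m D k) ((S * (L + 1 : ℕ)) ^ (m + 1) * M) := by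
  refine V.lines (hP.and (diam_z D)) hν (fun _ _ _ => (Finset.range (L + 1) : Set ℕ))
    (fun _ _ _ _ => rfl) (fun _ _ _ => by rw [Set.encard_coe_eq_coe_finsetCard, Finset.card_range])
    (fun c hc x y z w l k _ h1 _ => ?_) h
  have h2 := (h1 (m - c) 0 (by omega)).trans (G.sl_le x y z (by omega))
  have h3 := ((diam_iff _ _ _ _ _).1 k.2).2.2
  have h4 : (l : ℤ) * ((m + 2) * ν0) ≤ L * ((m + 2) * ν0) := by
    push_cast at h2
    linarith
  have h5 : (l : ℤ) ≤ L := le_of_mul_le_mul_right h4 (by positivity)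
  simp only [Finset.coe_range, Set.mem_Iio, and_self]
  omega

/-- the coarse reduction to a core -/
lemma coarse (hP : TInv m P) {ν0 L : ℕ} {D : ℤ} (hν : 0 < ν0) (hD : D ≤ L * ((m + 2) * ν0))
    (h : BH G π (fun k => P k ∧ Core m ((m + 2) * ν0) k) M) :
    BH G π (fun k => P k ∧ Diam m D k) (((S * (L + 1 : ℕ)) ^ (m + 1)) ^ 3 * M) := by
  have h1 := V.coarseZ (P := fun k => P k ∧ CoreZ m ((m + 2) * ν0) (rot k) ∧
    CoreZ m ((m + 2) * ν0) (rot (rot k))) ((tinv_c hP).z.and ((core1_c _).z.and (core2_c _).z))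
    hν hD (h.mono (fun x y z k => ⟨k.1.1.1, k.2, k.1.1.2⟩) le_rfl)
  have h2 := V.coarseZ (P := fun k => P (rot (rot k)) ∧ CoreZ m ((m + 2) * ν0) (rot k))
    ((tinv_c hP.rot.rot).z.and (core1_c _).z) hν hD ((V.rot2 h1).mono
      (fun x y z k => ⟨⟨k.1.1.1, k.2, k.1.1.2⟩, diam_rot.2 (diam_rot.2 k.1.2)⟩) le_rfl)
  have h3 := V.coarseZ (P := fun k => P (rot k)) (tinv_c hP.rot).z hν hD ((V.rot2 h2).mono
      (fun x y z k => ⟨⟨k.1.1, k.2⟩, diam_rot.2 (diam_rot.2 k.1.2)⟩) le_rfl)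
  exact (V.rot2 h3).mono (fun x y z k => ⟨k.1, diam_rot.2 (diam_rot.2 k.2)⟩) (le_of_eq (by ring))

end Cov

/-- the constant of the good pair inequality -/
def GoodC (G : Geo X m) (π : Γ × I → X) (L C : ℕ) : Prop :=
  ∀ (y z : X) (t : ℕ) (Y : Set (Γ × I)) (_ : ∀ x ∈ Y, dd m G.E y (π x) ≤ L * t)
    (w : Γ × I → ℝ≥0∞), (∑' x, ind (x ∈ Y) * w x) ^ 2 ≤
      C * ∑' x, ∑' x', ind (x ∈ Y ∧ x' ∈ Y ∧ Sym m (4 * t) (h4 G.E (π x) (π x') y z)) *
        (w x * w x')

omit [Group Γ] [MulAction Γ X] in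
lemma exists_goodC (G : Geo X m) (π : Γ × I → X) (L : ℕ) : ∃ C, GoodC G π L C := by
  obtain ⟨C, hC⟩ := Geo.good.{u, v} G L
  exact ⟨C, hC π⟩

lemma diam_pair {x x' y z : X} {D : ℤ} (h : Diam m D (hv G.E x y z))
    (h' : Diam m D (hv G.E x' y z)) :
    Diam m (2 * D) (hv G.E x x' y) ∧ Diam m (2 * D) (hv G.E x x' z) := by
  simp only [diam_iff] at h h' ⊢
  have h1 := G.dd_tri x y x'
  have h2 := G.dd_nonneg x y
  rw [dd_comm _ y x'] at h1
  rw [dd_comm _ y x, dd_comm _ x' z]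
  omega

lemma hv_self (E : Multiset X → ℤ) (x y z : X) (a b k : ℕ) :
    hv E x x z a b k = hv E x y z (a + b) 0 k := by
  simp [hv, Multiset.replicate_add]

lemma hv_comm (E : Multiset X → ℤ) (x y z : X) (a b k : ℕ) :
    hv E y x z a b k = hv E x y z b a k := by
  rw [hv, hv, add_comm (Multiset.replicate a y)]

lemma dd_hv (E : Multiset X → ℤ) (x y z : X) :
    dd m E x y = hv E x y z 1 (m + 1) 0 + hv E x y z (m + 1) 1 0 := by
  rw [dd, hv, hv, Multiset.replicate_zero, add_zero, add_zero, Multiset.replicate_one,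
    Multiset.replicate_one, add_comm _ ({y} : Multiset X), Multiset.singleton_add, Multiset.singleton_add]

/-- the gap of `x` seen from `z` -/
def gap (G : Geo X m) (c : ℕ) (z x : X) : ℤ := sl (hv G.E x x z) (m - c) 0 c

lemma gap_eq (c : ℕ) (x y z : X) : gap G c z x = 2 * hv G.E x y z (m - c + 1) 0 (c + 1) -
    hv G.E x y z (m - c + 2) 0 c - hv G.E x y z (m - c) 0 (c + 2) := by
  rw [gap, sl, hv_self _ x y, hv_self _ x y, hv_self _ x y, hv_self _ x y]
  simp only [add_zero, zero_add, add_assoc, Nat.reduceAdd]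
  ring

lemma gap_move {c ν : ℕ} {x y z w : X} {R τ : ℤ} (hc : c ≤ m) (hR : dd m G.E x y ≤ R)
    (hg : Gn m c ν (hv G.E x y z) (hv G.E x y w))
    (h : ∃ a b, a + b + c = m ∧ sl (hv G.E x y w) a b c ≤ τ) :
    0 ≤ gap G c z x - (m + 2) * ν ∧ gap G c z x - (m + 2) * ν ≤ τ + (2 * m + 1) * R := by
  obtain ⟨a, b, h1, h2⟩ := h
  have h3 := G.far_gap (a := m - c) hR (by omega) h1 h2
  have h4 : 0 ≤ gap G c w x := G.sl_nonneg _ _ _ (by omega)
  have h5 := gain_two m c c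
  rw [← gap_eq] at h3
  have h6 : gap G c w x = gap G c z x - (m + 2) * ν := by
    rw [gap_eq c x y, gap_eq c x y, hg _ _ _ (by omega), hg _ _ _ (by omega), hg _ _ _ (by omega)]
    rw [if_pos rfl] at h5
    linear_combination (ν : ℤ) * h5
  omega

namespace Cov

variable (V : Cov G Γ S π)
include V

/-- the copy inequality for hives -/
lemma copy {L C t : ℕ} (hC : GoodC G π L C)
    (hP : ∀ x y z, P (hv G.E x y z) → dd m G.E x y ≤ L * t) {ι : Type*} (s : Finset ι)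
    {U W : ι → Hive → Prop} {μ μ' : ι → ℝ≥0∞} (bU : ∀ i ∈ s, BH G π (U i) (μ i))
    (bW : ∀ i ∈ s, BH G π (W i) (μ' i))
    (hc : ∀ x x' y z, P (hv G.E x y z) → P (hv G.E x' y z) → Sym m (4 * t) (h4 G.E x x' y z) →
      ∃ i ∈ s, U i (hv G.E x x' y) ∧ W i (hv G.E x x' z))
    (hM : C * ∑ i ∈ s, μ' i * μ i ≤ M ^ 2) : BH G π P M := by
  refine V.rot2 (P := fun k => P (rot k)) (bd_copy_good (V.inv3 fun k => P (rot k)) s
    (fun i => V.inv3 fun k => W i (rot k)) (fun i => V.inv3 fun k => U i (rot k))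
    (fun i hi => V.rot1 (bW i hi)) (fun i hi => V.rot1 (bU i hi)) (fun z y w => ?_) hM)
  simp only [← hv_rot]
  refine (hC (π y) (π z) t {x | P (hv G.E (π x) (π y) (π z))}
    (fun x hx => (dd_comm _ _ _).trans_le (hP _ _ _ hx)) w).trans (mul_le_mul' le_rfl ?_)
  refine ENNReal.tsum_le_tsum fun x => ENNReal.tsum_le_tsum fun x' =>
    mul_le_mul' (ind_mono fun k => ?_) le_rfl
  obtain ⟨i, hi, h1, h2⟩ := hc _ _ _ _ k.1 k.2.1 k.2.2
  exact ⟨i, hi, h2, h1⟩

lemma base (r : ℕ) : BH G π (Diam m r) (((S + 1) * (G.N + 1) : ℕ) ^ (r + 1)) := by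
  have h1 : (1 : ℝ≥0∞) ≤ ((S + 1) * (G.N + 1) : ℕ) := by
    exact_mod_cast Nat.mul_pos S.succ_pos G.N.succ_pos
  refine (bd_ball (R := fun y x => dd m G.E (π y) (π x) ≤ (m + 2) * (r + 1))
    (fun γ x y => by simp only [V.act, V.dd_inv]) (one_le_pow₀ h1) fun y => ?_).mono
    (fun x y z h => ?_) le_rfl
  · refine (V.lift {x | dd m G.E (π y) x ≤ (m + 2) * (r + 1)}).trans ?_
    have h2 : (({x | dd m G.E (π y) x ≤ (m + 2) * (r + 1)}.encard : ℕ∞) : ℝ≥0∞) ≤
        (G.N ^ (r + 1) : ℕ) := by exact_mod_cast G.ball_pow (π y) r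
    refine (mul_le_mul' le_rfl h2).trans ?_
    have h3 : S * G.N ^ (r + 1) ≤ ((S + 1) * (G.N + 1)) ^ (r + 1) := by
      rw [mul_pow]
      exact Nat.mul_le_mul (S.le_succ.trans (Nat.le_self_pow r.succ_ne_zero _))
        (Nat.pow_le_pow_left G.N.le_succ _)
    exact_mod_cast h3
  · have h2 := ((diam_iff _ _ _ _ _).1 h).1
    rw [dd_comm] at h2
    have h3 : (0 : ℤ) ≤ (m + 1) * r := by positivity
    refine h2.trans ?_
    nlinarith

lemma step (g : Game m) : ∃ A C r0 : ℕ, 1 ≤ A ∧ 1 ≤ r0 ∧ ∀ μ : ℕ → ℝ≥0∞,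
    (∀ r : ℕ, BH G π (fun k => g.Q r k ∧ Diam m (A * r : ℕ) k) (μ r)) → ∀ r : ℕ, r0 ≤ r →
      ∀ ν : ℝ≥0∞, (∀ r1 r2, 4 * (r1 + r2) ≤ 7 * r → μ r1 * μ r2 ≤ ν ^ 2) →
        BH G π (fun k => g.Q r k ∧ Diam m (A * r : ℕ) k) (C * ν) := by
  obtain ⟨B, hB⟩ : ∃ B : ℕ, B = 2 * (m + 1) * (1 + m * (g.c * (2 * g.K))) := ⟨_, rfl⟩
  obtain ⟨C, hC⟩ := exists_goodC G π (4 * B)
  have hK := g.hK
  refine ⟨2 * B, ((S * (2 * B * (2 * g.K) + 1)) ^ (m + 1)) ^ 3 * (6 * ((C + 1) * (4 * g.K + 1))),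
    g.K * (4 * (m + 2)), ?_, Nat.mul_pos (by omega) (by omega), fun μ hμ r hr ν hν => ?_⟩
  · have : 0 < B := by rw [hB]; positivity
    omega
  obtain ⟨t0, ht0, h1, h2⟩ : ∃ t0, 0 < t0 ∧ g.K * (4 * ((m + 2) * t0)) ≤ r ∧
      r ≤ 2 * g.K * (4 * ((m + 2) * t0)) := by
    have h0 : 0 < g.K * (4 * (m + 2)) := Nat.mul_pos (by omega) (by omega)
    have e1 := Nat.div_add_mod r (g.K * (4 * (m + 2)))
    have e2 := Nat.mod_lt r h0
    have e3 := Nat.div_pos hr h0
    obtain ⟨q, hq⟩ : ∃ q, q = r / (g.K * (4 * (m + 2))) := ⟨_, rfl⟩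
    rw [← hq] at e1 e3
    have e4 := Nat.mul_le_mul_left (g.K * (4 * (m + 2))) (show 1 ≤ q from e3)
    have e5 : g.K * (4 * ((m + 2) * q)) = g.K * (4 * (m + 2)) * q := by ring
    refine ⟨q, e3, by omega, ?_⟩
    rw [mul_assoc 2, e5]
    omega
  obtain ⟨t', ht'⟩ : ∃ t', t' = (m + 2) * t0 := ⟨_, rfl⟩
  obtain ⟨t, ht⟩ : ∃ t, t = 4 * t' := ⟨_, rfl⟩
  rw [← ht', ← ht] at h1 h2
  have htp : 0 < t := by rw [ht, ht']; positivity
  have e1 : (t : ℤ) = (m + 2) * (4 * t0 : ℕ) := by rw [ht, ht']; push_cast; ring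
  have e2 : (t : ℤ) = 4 * t' := by rw [ht]; push_cast; ring
  have h2' : (r : ℤ) ≤ 2 * g.K * t := by exact_mod_cast h2
  have hd : ∀ x y z, g.Q' r (hv G.E x y z) ∧ Core m t (hv G.E x y z) →
      Diam m (B * t) (hv G.E x y z) := by
    intro x y z k
    refine Diam.mono' (G.core_diam (T := g.c * r) (by positivity) k.2 (g.tb r _ k.1)) ?_
    have e : (B : ℤ) * t = 2 * (m + 1) * (t + m * (g.c * (2 * g.K * t))) := by
      rw [hB]; push_cast; ring
    rw [e]
    gcongr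
  have hL : BH G π (fun k => g.Q' r k ∧ Core m t k) (((C + 1) * (4 * g.K + 1) : ℕ) * ν) := by
    refine V.copy (t := t') hC (fun x y z k => ?_)
      ((Finset.range (4 * g.K + 1) ×ˢ Finset.range (4 * g.K + 1)).filter
        fun p => 4 * (p.2 * t + p.1 * t) ≤ 7 * r)
      (fun p _ => hμ (p.1 * t)) (fun p _ => hμ (p.2 * t)) (fun x x' y z k k' hs => ?_) ?_
    · refine ((diam_iff _ _ _ _ _).1 (hd x y z k)).1.trans (le_of_eq ?_)
      rw [e2]
      push_cast
      ring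
    · obtain ⟨i, j, hi, hj, h3, h4, h5⟩ := g.step r t _ htp h1 (G.isM x x' y z) (e2 ▸ hs)
        (by rw [f023_h4]; exact k.1) (by rw [f023_h4]; exact k.2)
      rw [f012_h4] at h4
      rw [f013_h4] at h5
      obtain ⟨h6, h7⟩ := diam_pair (hd x y z k) (hd x' y z k')
      have h8 : i + j ≤ 4 * g.K := by
        have h9 : 4 * (i + j) * t ≤ 4 * (4 * g.K) * t := by
          have : 4 * (4 * g.K) * t = 8 * (2 * g.K * t) := by ring
          omega
        have := Nat.le_of_mul_le_mul_right h9 htp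
        omega
      have h10 : ∀ l : ℕ, 0 < l → 2 * ((B : ℤ) * t) ≤ (2 * B * (l * t) : ℕ) := fun l hl => by
        have : 2 * (B * t) ≤ 2 * B * (l * t) := by
          rw [mul_assoc]
          exact Nat.mul_le_mul_left _ (Nat.mul_le_mul_left _ (Nat.le_mul_of_pos_left _ hl))
        exact_mod_cast this
      refine ⟨(i, j), ?_, ⟨h4, Diam.mono' h6 (h10 i hi)⟩, ⟨h5, Diam.mono' h7 (h10 j hj)⟩⟩
      simp only [Finset.mem_filter, Finset.mem_product, Finset.mem_range]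
      have : 4 * (j * t + i * t) = 4 * (i + j) * t := by ring
      omega
    · refine (mul_le_mul' le_rfl (Finset.sum_le_card_nsmul _ _ (ν ^ 2) fun p hp =>
        hν _ _ (Finset.mem_filter.1 hp).2)).trans ?_
      rw [nsmul_eq_mul, ← mul_assoc, mul_pow]
      refine mul_le_mul' ?_ le_rfl
      have h3 : C * ((Finset.range (4 * g.K + 1) ×ˢ Finset.range (4 * g.K + 1)).filter
          fun p => 4 * (p.2 * t + p.1 * t) ≤ 7 * r).card ≤ ((C + 1) * (4 * g.K + 1)) ^ 2 := by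
        rw [mul_pow]
        refine Nat.mul_le_mul (by nlinarith) ((Finset.card_filter_le _ _).trans ?_)
        rw [Finset.card_product, Finset.card_range, sq]
      exact_mod_cast h3
  have s0 := hL.swp
  have h3 := (hL.or ((V.rot1 hL).or ((V.rot2 hL).or (s0.or ((V.rot1 hL).swp.or
    (V.rot2 hL).swp))))).mono (P := fun k => g.Q r k ∧ Core m ((m + 2) * (4 * t0 : ℕ)) k)
    (fun x y z k => by
      have k2 := e1 ▸ k.2
      rcases g.types r _ k.1 with q | q | q | q | q | q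
      · exact Or.inl ⟨q, k2⟩
      · exact Or.inr (Or.inl ⟨q, core_rot.2 k2⟩)
      · exact Or.inr (Or.inr (Or.inl ⟨q, core_rot.2 (core_rot.2 k2)⟩))
      · exact Or.inr (Or.inr (Or.inr (Or.inl ⟨q, core_swp.2 k2⟩)))
      · exact Or.inr (Or.inr (Or.inr (Or.inr (Or.inl ⟨q, core_rot.2 (core_swp.2 k2)⟩))))
      · exact Or.inr (Or.inr (Or.inr (Or.inr (Or.inr
          ⟨q, core_rot.2 (core_rot.2 (core_swp.2 k2))⟩))))) le_rfl
  refine (V.coarse (L := 2 * B * (2 * g.K)) (D := (2 * B * r : ℕ)) (g.tinv r) (by omega) ?_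
    h3).mono (fun x y z k => k) (le_of_eq ?_)
  · rw [← e1]
    have : 2 * B * r ≤ 2 * B * (2 * g.K) * t := by
      rw [mul_assoc (2 * B)]
      exact Nat.mul_le_mul_left _ h2
    exact_mod_cast this
  · push_cast
    ring

lemma poly (g : Game m) : ∃ (A : ℝ≥0∞) (D : ℕ), A ≠ ⊤ ∧
    ∀ r : ℕ, BH G π (fun k => g.Q r k ∧ Diam m r k) (A * (1 + r) ^ D) := by
  obtain ⟨A, C, r0, hA, hr0, h⟩ := V.step g
  obtain ⟨A', D, h1, h2⟩ := boot (fun r M => BH G π (fun k => g.Q r k ∧ Diam m (A * r : ℕ) k) M)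
    (fun r M M' k hM => k.mono (fun _ _ _ k => k) hM) ((S + 1) * (G.N + 1)) A C r0
    (Nat.mul_pos S.succ_pos G.N.succ_pos) hr0
    (fun r => (V.base (A * r)).mono (fun _ _ _ k => k.2) le_rfl) h
  refine ⟨A', D, h1, fun r => (h2 r).mono (fun x y z k => ⟨k.1, Diam.mono' k.2 ?_⟩) le_rfl⟩
  exact_mod_cast Nat.le_mul_of_pos_left r hA

/-- all small triples -/
lemma small (g : Game m) : ∃ (A : ℝ≥0∞) (D : ℕ), A ≠ ⊤ ∧
    ∀ r : ℕ, BH G π (Diam m r) (A * (1 + r) ^ D) := by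
  obtain ⟨A, D, hA, h⟩ := V.poly g
  obtain ⟨C, hC⟩ := exists_goodC G π 1
  refine ⟨(C + 1) * A * (g.c * 4 : ℕ) ^ D, D, by finiteness, fun r => ?_⟩
  refine V.copy (t := r) hC (fun x y z k => by simpa using ((diam_iff _ _ _ _ _).1 k).1) {()}
    (fun _ _ => h (g.c * (4 * r))) (fun _ _ => h (g.c * (4 * r))) (fun x x' y z k k' hs => ?_) ?_
  · obtain ⟨h1, h2⟩ := diam_pair k k'
    have h3 : (2 * r : ℤ) ≤ (4 * r : ℕ) := by omega
    have h4 : ((4 * r : ℕ) : ℤ) ≤ (g.c * (4 * r) : ℕ) := by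
      exact_mod_cast Nat.le_mul_of_pos_left _ g.hc
    obtain ⟨h5, h6⟩ := g.start (4 * r) _ (G.isM x x' y z) (by simpa using hs)
      (by rw [f012_h4]; exact Diam.mono' h1 h3) (by rw [f013_h4]; exact Diam.mono' h2 h3)
    rw [f012_h4] at h5
    rw [f013_h4] at h6
    exact ⟨(), Finset.mem_singleton_self _, ⟨h5, Diam.mono' h1 (h3.trans h4)⟩,
      ⟨h6, Diam.mono' h2 (h3.trans h4)⟩⟩
  · have h1 : (1 + (g.c * (4 * r) : ℕ) : ℝ≥0∞) ≤ (g.c * 4 : ℕ) * (1 + r) := by
      have : 1 + g.c * (4 * r) ≤ g.c * 4 * (1 + r) := by nlinarith [g.hc]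
      exact_mod_cast this
    have h2 : (C : ℝ≥0∞) ≤ (C + 1) ^ 2 := by
      have : C ≤ (C + 1) ^ 2 := by nlinarith
      exact_mod_cast this
    rw [Finset.sum_singleton, ← sq]
    calc _ ≤ (C + 1) ^ 2 * (A * ((g.c * 4 : ℕ) * (1 + r)) ^ D) ^ 2 := by gcongr
      _ = _ := by rw [mul_pow (_ : ℝ≥0∞) (1 + r)]; ring

/-- triples with one short side -/
lemma far (g : Game m) : ∃ (A : ℝ≥0∞) (D : ℕ), A ≠ ⊤ ∧ ∀ R : ℕ,
    Bd (fun x y _ => dd m G.E (π x) (π y) ≤ R) (A * (1 + R) ^ D) := by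
  obtain ⟨A, D, hA, h⟩ := V.small g
  obtain ⟨κ, hκ⟩ : ∃ κ : ℕ, κ = 2 * m + 3 := ⟨_, rfl⟩
  refine ⟨(S * κ) ^ (m + 1) * (A * ((m + 2) * κ : ℕ) ^ D), m + 1 + D, by finiteness, fun R => ?_⟩
  obtain ⟨T, hT⟩ : ∃ T : ℕ, T = m + 2 + (2 * m + 1) * R := ⟨_, rfl⟩
  have hT' : (T : ℤ) = (m + 2) * (1 : ℕ) + (2 * m + 1) * R := by rw [hT]; push_cast; ring
  have h1 := V.lines (P := fun k => k 1 (m + 1) 0 + k (m + 1) 1 0 ≤ R) (ν0 := 1) (n0 := T + 1)
    (fun k k' c ν _ hg q => by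
      beta_reduce
      rwa [hg _ _ _ (by omega), hg _ _ _ (by omega), gain_zero, mul_zero, add_zero, add_zero])
    one_pos (fun c z x => {l | 0 ≤ gap G c z x - (m + 2) * l ∧ gap G c z x - (m + 2) * l ≤ T})
    (fun γ c z x => by simp only [gap, V.inv]) (fun c z x => ?_)
    (fun c hc x y z w l k hg _ h2 => ?_)
    ((h (R + (m + 1) * T)).mono (fun x y z k => ?_) le_rfl)
  · refine Bd.mono h1 (fun x y z k => ?_) ?_
    · exact (dd_hv _ _ _ _).symm.trans_le k
    · have h2 : ((T + 1 : ℕ) : ℝ≥0∞) ≤ κ * (1 + R) := by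
        have : T + 1 ≤ κ * (1 + R) := by rw [hT, hκ]; nlinarith
        exact_mod_cast this
      have h3 : (1 + (R + (m + 1) * T : ℕ) : ℝ≥0∞) ≤ ((m + 2) * κ : ℕ) * (1 + R) := by
        have : 1 + (R + (m + 1) * T) ≤ (m + 2) * κ * (1 + R) := by rw [hT, hκ]; nlinarith
        exact_mod_cast this
      calc _ ≤ (S * (κ * (1 + R))) ^ (m + 1) * (A * (((m + 2) * κ : ℕ) * (1 + R)) ^ D) := by
            gcongr
        _ = _ := by
            rw [← mul_assoc (S : ℝ≥0∞), mul_pow _ (1 + R : ℝ≥0∞), mul_pow _ (1 + R : ℝ≥0∞),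
              pow_add (1 + R : ℝ≥0∞) (m + 1)]
            ring
  · refine le_trans (Set.encard_le_encard_of_injOn (t := (Finset.range (T + 1) : Set ℕ))
      (f := fun l : ℕ => (gap G c z x - (m + 2) * l).toNat) (fun l hl => ?_)
      fun l hl l' hl' e => ?_) (by rw [Set.encard_coe_eq_coe_finsetCard, Finset.card_range])
    · simp only [Finset.coe_range, Set.mem_Iio, Set.mem_ofPred_eq] at hl ⊢
      omega
    · simp only [Set.mem_ofPred_eq] at hl hl' e
      have e1 : (m + 2 : ℤ) * l = (m + 2) * l' := by omega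
      exact_mod_cast mul_left_cancel₀ (by positivity) e1
  · have k' : dd m G.E x y ≤ R := (dd_hv _ _ _ z).trans_le k
    rw [mul_one] at hg
    refine ⟨hT' ▸ gap_move hc k' hg h2, hT' ▸ gap_move (y := x) (w := w) hc (dd_comm _ _ _ ▸ k')
      (fun a b i hi => ?_) ?_⟩
    · rw [hv_comm, hv_comm _ x y z, hg b a i (by omega)]
    · obtain ⟨a, b, e1, e2⟩ := h2
      refine ⟨b, a, by omega, le_trans (le_of_eq ?_) e2⟩
      simp only [sl, hv_comm _ x y w]
      ring
  · have k' : dd m G.E x y ≤ R := (dd_hv _ _ _ z).trans_le k.1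
    have h2 := G.far_diam k' k.2
    have h3 := G.dd_tri y x z
    have h4 : (0 : ℤ) ≤ (m + 1) * T := by positivity
    rw [← hT'] at h2
    rw [dd_comm _ y x, dd_comm _ x z] at h3
    rw [diam_iff]
    push_cast
    omega

theorem rd (g : Game m) (o : I) {n : ℕ} (gen : Fin n → Γ)
    (hgen : ∀ x, ∃ w : List (Fin n), (w.map gen).prod = x) : RD gen := by
  obtain ⟨A, D, hA, h⟩ := V.far g
  set ℓ : Γ → ℕ := fun y => sInf {k : ℕ | ∃ w : List (Fin n), w.length = k ∧ (w.map gen).prod = y}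
  obtain ⟨K, hK⟩ : ∃ K : ℕ, ∀ i, dd m G.E (π (1, o)) (π (gen i, o)) ≤ K :=
    ⟨Finset.univ.sup fun i => (dd m G.E (π (1, o)) (π (gen i, o))).toNat, fun i =>
      Int.toNat_le.1 (Finset.le_sup (f := fun i => (dd m G.E (π (1, o)) (π (gen i, o))).toNat)
        (Finset.mem_univ i))⟩
  have h1 : ∀ (w : List (Fin n)) (a : Γ),
      dd m G.E (π (a, o)) (π (a * (w.map gen).prod, o)) ≤ (K * w.length : ℕ) := by
    intro w
    induction w with
    | nil => simp [G.dd_self]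
    | cons i w ih =>
      intro a
      have h2 := G.dd_tri (π (a, o)) (π (a * gen i, o)) (π (a * gen i * (w.map gen).prod, o))
      have h3 := ih (a * gen i)
      have h4 := hK i
      rw [← V.dd_inv a, ← V.act, ← V.act, act_apply, act_apply, mul_one] at h4
      rw [List.map_cons, List.prod_cons, List.length_cons, ← mul_assoc, mul_add]
      omega
  have h2 : ∀ a a', dd m G.E (π (a, o)) (π (a', o)) ≤ (K * ℓ (a⁻¹ * a') : ℕ) := by
    intro a a'
    obtain ⟨w, hw⟩ := hgen (a⁻¹ * a')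
    obtain ⟨w', k1, k2⟩ := Nat.sInf_mem (s := {k : ℕ | ∃ w : List (Fin n), w.length = k ∧
      (w.map gen).prod = a⁻¹ * a'}) ⟨_, w, rfl, hw⟩
    have h3 := h1 w' a
    rwa [k1, k2, mul_inv_cancel_left] at h3
  refine ⟨_, D + 1, rd_real ℓ (c := (∑' R : ℕ, ((1 + R : ℝ≥0∞) ^ 2)⁻¹) *
    (A * (1 + K) ^ D) ^ 2) (ENNReal.mul_ne_top zeta_fin (by finiteness)) _ fun F F' => ?_⟩
  refine (conv_bound o ℓ (fun R x y => dd m G.E (π x) (π y) ≤ (K * R : ℕ)) _ (fun R => h (K * R))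
    h2 F F').trans (mul_le_mul' ?_ le_rfl)
  rw [mul_assoc]
  refine mul_le_mul' le_rfl ?_
  rw [← ENNReal.tsum_mul_left]
  refine ENNReal.tsum_le_tsum fun a => ?_
  have h3 : (1 + (K * ℓ a : ℕ) : ℝ≥0∞) ≤ (1 + K) * (1 + ℓ a) := by
    have h4 : 1 + K * ℓ a ≤ (1 + K) * (1 + ℓ a) := by nlinarith
    exact_mod_cast h4
  calc _ ≤ ((1 + ℓ a) * (A * ((1 + K) * (1 + ℓ a)) ^ D) * F a) ^ 2 := by gcongr
    _ = _ := by rw [mul_pow (1 + K : ℝ≥0∞)]; ring

end Cov

end Red

theorem rd_of_game {X : Type v} {m : ℕ} (G : Geo X m) (g : Game m) (Γ : Type u) [Group Γ]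
    [MulAction Γ X] {S : ℕ} (hA : G.Act Γ S) (x0 : X) {n : ℕ} (gen : Fin n → Γ)
    (hgen : ∀ x, ∃ w : List (Fin n), (w.map gen).prod = x) : RD gen := by
  obtain ⟨π, V⟩ := Red.exists_cov hA
  exact V.rd g ⟦x0⟧ gen hgen

end Pool.Agent.MP_1ca372_al.H38
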