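import Pool.Agent.MP_1ca372_al.H38.Defs
import Pool.Agent.MP_1ca372_al.H38.Model
import Pool.Agent.MP_1ca372_al.H38.Red

/-! Property (RD) for groups acting on lattice classes. -/

set_option linter.unusedSectionVars false

namespace Pool.Agent.MP_1ca372_al.H38

open Multiset Module WithZero Function Matrix Pool.Agent.MP_1ca372_al.H73
open scoped MatrixGroups

universe u

section

variable {O K : Type*} [CommRing O] [IsDomain O] [IsPrincipalIdealRing O] [Field K] [Algebra O K]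
  [IsFractionRing O K] {n m : ℕ}

/-- image of a lattice under a matrix -/
noncomputable def gact (g : GL (Fin n) K) : Lat O K n → Lat O K n :=
  act (GeneralLinearGroup.toLin g).toLinearEquiv

lemma coe_gact (g : GL (Fin n) K) (L : Lat O K n) :
    ((gact g L).1 : Set (Fin n → K)) = g.val.mulVec '' L.1 := rfl

lemma gact_mul (g h : GL (Fin n) K) (L : Lat O K n) : gact (g * h) L = gact g (gact h L) :=
  Subtype.ext (SetLike.coe_injective (by
    simp only [coe_gact, Set.image_image, mulVec_mulVec, Units.val_mul]))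

lemma gact_one (L : Lat O K n) : gact 1 L = L :=
  Subtype.ext (SetLike.coe_injective (by simp [coe_gact]))

namespace Val

variable (W : Val O K)

lemma gact_scalar (c : Kˣ) (L : Lat O K n) :
    gact (GeneralLinearGroup.scalar (Fin n) c) L = W.sc (log (W.v c)) L := by
  have h0 : W.v c ≠ 0 := by simp
  have h1 : W.v (W.π ^ log (W.v c) * c) = 1 := by
    rw [map_mul, v_pow, WithZero.exp_neg, exp_log h0, inv_mul_cancel₀ h0]
  have h2 : ∀ w : Fin n → K, (GeneralLinearGroup.scalar (Fin n) c).val.mulVec w = c.val • w :=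
    fun w => by
      ext i
      simp [GeneralLinearGroup.coe_scalar, mulVec_diagonal]
  refine Subtype.ext (Submodule.ext fun u => ?_)
  rw [mem_sc, ← SetLike.mem_coe, coe_gact]
  constructor
  · rintro ⟨w, hw, rfl⟩
    rw [h2, smul_smul]
    exact W.smul_mem h1.le hw
  · intro hu
    have h3 : W.π ^ log (W.v c) * c ≠ 0 := mul_ne_zero (zpow_ne_zero _ W.π_ne) c.ne_zero
    refine ⟨_, W.smul_mem (c := (W.π ^ log (W.v c) * c)⁻¹) (by rw [map_inv₀, h1, inv_one]) hu, ?_⟩
    rw [h2, smul_smul, smul_smul, mul_assoc, mul_left_comm, mul_comm (c : K), inv_mul_cancel₀ h3,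
      one_smul]

noncomputable instance : MulAction (GL (Fin n) K) (W.Cls n) where
  smul g := Quotient.map (gact g) fun _ _ ⟨k, h⟩ => ⟨k, by rw [h, gact, act_sc]⟩
  one_smul x := Quotient.inductionOn x fun L => congrArg W.cl (gact_one L)
  mul_smul g h x := Quotient.inductionOn x fun L => congrArg W.cl (gact_mul g h L)

lemma smul_cl (g : GL (Fin n) K) (L : Lat O K n) : g • W.cl L = W.cl (gact g L) := rfl

lemma scalar_smul (c : Kˣ) (x : W.Cls n) : GeneralLinearGroup.scalar (Fin n) c • x = x :=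
  Quotient.inductionOn x fun L => by rw [smul_cl, W.gact_scalar, cl_sc]

theorem rd {τ : Type*} [Finite τ] (res : O → τ)
    (hres : ∀ a a', res a = res a' → W.v (algebraMap O K (a - a')) ≤ exp (-1)) (g : Game m)
    {Γ : Type u} [Group Γ] (ρ : Γ →* ProjGenLinGroup (Fin (m + 2)) K) (N : ℕ)
    (hN : ∀ L : Submodule O (Fin (m + 2) → K), L.IsLattice K → (stab ρ L).encard ≤ N)
    {k : ℕ} (gen : Fin k → Γ) (hgen : ∀ x, ∃ w : List (Fin k), (w.map gen).prod = x) : RD gen := by
  let := ProjGenLinGroup.mulActionOfGL (W.scalar_smul (n := m + 2))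
  let : MulAction Γ (W.Cls (m + 2)) := MulAction.compHom _ ρ
  have key : ∀ γ : Γ, ∃ g : GL (Fin (m + 2)) K, ProjGenLinGroup.mk g = ρ γ ∧
      ∀ L, γ • W.cl L = W.cl (gact g L) := fun γ => by
    obtain ⟨g, hg⟩ := ProjGenLinGroup.mk_surjective (ρ γ)
    refine ⟨g, hg, fun L => ?_⟩
    change ρ γ • W.cl L = _
    rw [← hg]
    rfl
  obtain ⟨A, -⟩ := W.exists_dg (Pi.basisFun K (Fin (m + 2))) 0
  refine rd_of_game (W.geo res hres m) g Γ (S := N) ⟨fun γ s hs => ?_, ?_, fun x => ?_⟩ (W.cl A)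
    gen hgen
  · obtain ⟨g, -, hg⟩ := key γ
    obtain ⟨s, rfl⟩ := W.exists_cl s
    rw [card_map] at hs
    have h1 : (s.map W.cl).map (γ • ·) = (s.map (gact g)).map W.cl := by
      simp only [Multiset.map_map, Function.comp_apply, hg]
    change W.Eb _ = W.Eb _
    rw [h1, W.Eb_cl hs, W.Eb_cl (by simpa using hs)]
    exact W.E0_act _ hs
  · rintro γ c _ _ _ ⟨Z, X, V, rfl, rfl, rfl, h⟩
    obtain ⟨g, -, hg⟩ := key γ
    exact ⟨_, _, _, (hg Z).symm, (hg X).symm, (hg V).symm, W.St_act h _⟩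
  · induction x using Quotient.ind with | _ L
    refine le_trans (Set.encard_le_encard fun γ hγ => ?_) (hN L.1 L.2)
    obtain ⟨g, h1, hg⟩ := key γ
    obtain ⟨k, hk⟩ := Quotient.exact ((hg L).symm.trans hγ)
    refine ⟨GeneralLinearGroup.scalar _ (Units.mk0 (W.π ^ (-k)) (zpow_ne_zero _ W.π_ne)) * g,
      by simpa using h1, ?_⟩
    rw [← coe_gact, gact_mul, W.gact_scalar, Units.val_mk0, v_pow, log_exp, neg_neg, ← hk]

end Val

end

lemma stab_conj {O K Γ : Type*} [CommRing O] [Field K] [Algebra O K] [Group Γ] {n : ℕ}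
    (ρ : Γ →* ProjGenLinGroup (Fin n) K) {L L' : Submodule O (Fin n → K)} {γ : Γ} {g : GL (Fin n) K}
    (h : ProjGenLinGroup.mk g = ρ γ) (h' : g.val.mulVec '' L = L') :
    (stab ρ L).encard ≤ (stab ρ L').encard := by
  refine Set.encard_le_encard_of_injOn (f := fun δ => γ * δ * γ⁻¹) ?_
    fun w _ w' _ h => by simpa using h
  rintro δ ⟨d, h1, h2⟩
  refine ⟨g * d * g⁻¹, by simp [h, h1], ?_⟩
  rw [← h']
  conv_rhs => rw [← h2]
  simp only [Set.image_image, mulVec_mulVec, Units.val_mul, mul_assoc, Units.inv_mul, mul_one]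

theorem rd_pgl {m : ℕ} (g : Game m) (O K : Type*) [CommRing O] [IsDomain O]
    [IsDiscreteValuationRing O] [Finite (IsLocalRing.ResidueField O)] [Field K] [Algebra O K]
    [IsFractionRing O K] (Γ : Type u) [Group Γ] (ρ : Γ →* ProjGenLinGroup (Fin (m + 2)) K)
    (hb : (∃ N : ℕ, ∀ L : Submodule O (Fin (m + 2) → K), L.IsLattice K → (stab ρ L).encard ≤ N) ∨
      ((∀ L : Submodule O (Fin (m + 2) → K), L.IsLattice K → (stab ρ L).Finite) ∧
        ∃ F : Finset (Submodule O (Fin (m + 2) → K)), ∀ L : Submodule O (Fin (m + 2) → K),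
          L.IsLattice K → ∃ (γ : Γ) (g : GL (Fin (m + 2)) K), ∃ L' ∈ F,
            ProjGenLinGroup.mk g = ρ γ ∧ g.val.mulVec '' L = L'))
    {k : ℕ} (gen : Fin k → Γ) (hgen : ∀ x, ∃ w : List (Fin k), (w.map gen).prod = x) : RD gen := by
  let p := IsDiscreteValuationRing.maximalIdeal O
  obtain ⟨π, hπ⟩ := p.valuation_exists_uniformizer K
  let W : Val O K := ⟨p.valuation K, π, hπ, fun c =>
    ⟨IsDiscreteValuationRing.exists_lift_of_le_one, fun ⟨a, h⟩ => h ▸ p.valuation_le_one a⟩⟩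
  obtain ⟨N, hN⟩ : ∃ N : ℕ, ∀ L : Submodule O (Fin (m + 2) → K), L.IsLattice K →
      (stab ρ L).encard ≤ N := by
    refine hb.elim id fun ⟨h1, F, hF⟩ => ⟨F.sup fun L => (stab ρ L).ncard, fun L hL => ?_⟩
    obtain ⟨γ, g, L', h2, h3, h4⟩ := hF L hL
    have h5 : L' = (gact g ⟨L, hL⟩).1 := SetLike.coe_injective h4.symm
    refine (stab_conj ρ h3 h4).trans ?_
    rw [← (h1 L' (h5 ▸ (gact g ⟨L, hL⟩).2)).cast_ncard_eq]
    exact_mod_cast Finset.le_sup (f := fun L => (stab ρ L).ncard) h2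
  refine W.rd (IsLocalRing.residue O) (fun a a' h => ?_) g ρ N hN gen hgen
  have h1 : p.valuation K (algebraMap O K (a - a')) < 1 :=
    (p.valuation_lt_one_iff_mem _).2 (Ideal.Quotient.eq.1 h)
  rw [← lt_mul_exp_iff_le exp_ne_zero, ← WithZero.exp_add]
  simpa using h1

end Pool.Agent.MP_1ca372_al.H38
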