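import Pool.Agent.MP_1ca372_al.H38.Spec

/-! The game in degree five: isosceles triples contract. -/

namespace Pool.Agent.MP_1ca372_al.H38

/-- the potential -/
def phi5 (h : Hive) : ℤ :=
  max (8 * tt h 2 0 0) (-5 * tt h 2 0 0) + max (9 * tt h 1 0 1) (-5 * tt h 1 0 1)

/-- nearly isosceles triples -/
def Iso5 (d : ℤ) (h : Hive) : Prop :=
  |tt h 0 0 2| ≤ d ∧ |tt h 1 1 0| ≤ d ∧ |tt h 0 2 0 + tt h 2 0 0| ≤ d ∧ |tt h 0 1 1 + tt h 1 0 1| ≤ d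

/-- nearly isosceles triples of size at most `r` -/
def Q5 (r : ℕ) (h : Hive) : Prop := ∃ d, 12000 * d ≤ (r : ℤ) ∧ Iso5 d h ∧ phi5 h ≤ r

lemma coreZ3 {τ : ℤ} {h : Hive} (hc : CoreZ 3 τ h) :
    (sl h 0 3 0 ≤ τ ∨ sl h 1 2 0 ≤ τ ∨ sl h 2 1 0 ≤ τ ∨ sl h 3 0 0 ≤ τ) ∧
      (sl h 0 2 1 ≤ τ ∨ sl h 1 1 1 ≤ τ ∨ sl h 2 0 1 ≤ τ) ∧ (sl h 0 1 2 ≤ τ ∨ sl h 1 0 2 ≤ τ) ∧
      sl h 0 0 3 ≤ τ := by
  obtain ⟨a, b, h1, h2⟩ := hc 0 (by norm_num)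
  obtain ⟨a1, b1, h3, h4⟩ := hc 1 (by norm_num)
  obtain ⟨a2, b2, h5, h6⟩ := hc 2 (by norm_num)
  obtain ⟨a3, b3, h7, h8⟩ := hc 3 le_rfl
  obtain ⟨rfl, rfl⟩ : a3 = 0 ∧ b3 = 0 := by omega
  refine ⟨?_, ?_, ?_, h8⟩
  · obtain ⟨rfl, rfl⟩ | ⟨rfl, rfl⟩ | ⟨rfl, rfl⟩ | ⟨rfl, rfl⟩ :
      (a = 0 ∧ b = 3) ∨ (a = 1 ∧ b = 2) ∨ (a = 2 ∧ b = 1) ∨ (a = 3 ∧ b = 0) := by omega
    all_goals simp only [h2, true_or, or_true]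
  · obtain ⟨rfl, rfl⟩ | ⟨rfl, rfl⟩ | ⟨rfl, rfl⟩ :
      (a1 = 0 ∧ b1 = 2) ∨ (a1 = 1 ∧ b1 = 1) ∨ (a1 = 2 ∧ b1 = 0) := by omega
    all_goals simp only [h4, true_or, or_true]
  · obtain ⟨rfl, rfl⟩ | ⟨rfl, rfl⟩ : (a2 = 0 ∧ b2 = 1) ∨ (a2 = 1 ∧ b2 = 0) := by omega
    all_goals simp only [h6, true_or, or_true]

lemma core5 {t d e p q u v : ℤ} {h : Hive} (hc : Core 3 t h) (hi : Iso5 d h) (he : t + 3 * d ≤ e)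
    (ea : tt h 2 0 0 = p - q) (eb : tt h 1 0 1 = u - v) (p0 : 0 ≤ p) (q0 : 0 ≤ q) (u0 : 0 ≤ u)
    (v0 : 0 ≤ v) :
    sl (rot h) 0 3 0 ≤ e + p + u ∧ sl (rot h) 2 1 0 ≤ e + p + v ∧ sl (rot h) 3 0 0 ≤ e + q + v ∧
      sl (rot h) 0 2 1 ≤ e + v ∧ sl (rot h) 1 1 1 ≤ e + u ∧ sl (rot h) 2 0 1 ≤ e + u ∧
      sl (rot h) 0 1 2 ≤ e + q ∧ sl (rot h) 1 0 2 ≤ e + p ∧ sl (rot h) 0 0 3 ≤ e ∧
      sl (rot (rot h)) 0 3 0 ≤ e + q + v ∧ sl (rot (rot h)) 1 2 0 ≤ e + p + v ∧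
      sl (rot (rot h)) 3 0 0 ≤ e + p + u ∧ sl (rot (rot h)) 0 2 1 ≤ e + u ∧
      sl (rot (rot h)) 1 1 1 ≤ e + u ∧ sl (rot (rot h)) 0 1 2 ≤ e + p ∧
      sl (rot (rot h)) 1 0 2 ≤ e + q ∧ sl (rot (rot h)) 0 0 3 ≤ e ∧ sl h 0 3 0 ≤ e + p ∧
      sl h 1 2 0 ≤ e + q ∧ sl h 2 1 0 ≤ e + q ∧ sl h 3 0 0 ≤ e + p ∧ sl h 0 2 1 ≤ e + u ∧
      sl h 1 1 1 ≤ e + v ∧ sl h 2 0 1 ≤ e + u ∧ sl h 0 1 2 ≤ e ∧ sl h 1 0 2 ≤ e ∧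
      sl h 0 0 3 ≤ e := by
  obtain ⟨z0, z1, z2, z3⟩ := coreZ3 hc.1
  obtain ⟨x0, x1, x2, x3⟩ := coreZ3 hc.2.1
  obtain ⟨y0, y1, y2, y3⟩ := coreZ3 hc.2.2
  obtain ⟨d1, d2, d3, d4⟩ := hi
  have d0 : 0 ≤ d := (abs_nonneg _).trans d1
  rw [abs_le] at d1 d2 d3 d4
  obtain ⟨d1, d5⟩ := d1
  obtain ⟨d2, d6⟩ := d2
  obtain ⟨d3, d7⟩ := d3
  obtain ⟨d4, d8⟩ := d4
  simp only [tt, sl, rot, Nat.reduceAdd] at *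
  refine ⟨?_, ?_, ?_, ?_, ?_, ?_, ?_, ?_, ?_, ?_, ?_, ?_, ?_, ?_, ?_, ?_, ?_, ?_, ?_, ?_, ?_, ?_,
    ?_, ?_, ?_, ?_, ?_⟩
  iterate 3 rcases x0 with k | k | k | k <;> linarith
  iterate 3 rcases x1 with k | k | k <;> linarith
  iterate 2 rcases x2 with k | k <;> linarith
  · linarith
  iterate 3 rcases y0 with k | k | k | k <;> linarith
  iterate 2 rcases y1 with k | k | k <;> linarith
  iterate 2 rcases y2 with k | k <;> linarith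
  · linarith
  iterate 4 rcases z0 with k | k | k | k <;> linarith
  iterate 3 rcases z1 with k | k | k <;> linarith
  iterate 2 rcases z2 with k | k <;> linarith
  · linarith

lemma parts (α β x : ℤ) (h1 : 0 ≤ α) (h2 : 0 ≤ β) :
    ∃ p q, 0 ≤ p ∧ 0 ≤ q ∧ x = p - q ∧ max (α * x) (-β * x) = α * p + β * q := by
  rcases le_total 0 x with k | k
  · exact ⟨x, 0, k, le_rfl, by ring, by rw [max_eq_left (by nlinarith)]; ring⟩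
  · exact ⟨0, -x, le_rfl, by linarith, by ring, by rw [max_eq_right (by nlinarith)]; ring⟩

lemma contract5 {t d : ℤ} {H : Four} (h : IsM 3 H) (hs : Sym 3 t H) (hi : Iso5 d (f023 H))
    (hc : Core 3 t (f023 H)) :
    10 * (phi5 (f012 H) + phi5 (f013 H)) ≤ 17 * phi5 (f023 H) + 1300 * (t + 3 * d) := by
  obtain ⟨p, q, p0, q0, ea, ha⟩ := parts 8 5 (tt (f023 H) 2 0 0) (by norm_num) (by norm_num)
  obtain ⟨u, v, u0, v0, eb, hb⟩ := parts 9 5 (tt (f023 H) 1 0 1) (by norm_num) (by norm_num)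
  have t0 : 0 ≤ t := by linarith [hs 0 0 2 3 rfl]
  have d0 : 0 ≤ d := (abs_nonneg _).trans hi.1
  obtain ⟨c000, c002, c003, c010, c011, c012, c020, c021, c030, c100, c101, c103, c110, c111,
    c120, c121, c130, c200, c201, c202, c203, c210, c211, c212, c220, c221, c230⟩ :=
    core5 hc hi le_rfl ea eb p0 q0 u0 v0
  unfold phi5
  rw [ha, hb]
  clear ha hb hi hc
  rcases max_choice (8 * tt (f012 H) 2 0 0) (-5 * tt (f012 H) 2 0 0) with k1 | k1 <;>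
  rcases max_choice (9 * tt (f012 H) 1 0 1) (-5 * tt (f012 H) 1 0 1) with k2 | k2 <;>
  rcases max_choice (8 * tt (f013 H) 2 0 0) (-5 * tt (f013 H) 2 0 0) with k3 | k3 <;>
  rcases max_choice (9 * tt (f013 H) 1 0 1) (-5 * tt (f013 H) 1 0 1) with k4 | k4 <;>
  rw [k1, k2, k3, k4] <;> clear k1 k2 k3 k4 <;>
  simp only [tt, sl, rot, f012, f013, f023, Nat.reduceAdd] at *
  · linarith only [t0, d0, u0, v0, c000, c003, c020, c021, c110, c130, c200, c212, c230,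
      hs 0 1 0 4 rfl, hs 0 1 3 1 rfl, hs 0 1 4 0 rfl, hs 2 1 0 2 rfl, hs 2 1 2 0 rfl,
      h.r012 2 0 1 0 rfl, h.r013 2 1 0 0 rfl, h.r102 3 0 0 0 rfl, h.r103 3 0 0 0 rfl,
      h.r201 0 0 3 0 rfl, h.r201 1 1 1 0 rfl, h.r301 0 0 0 3 rfl, h.r301 0 0 3 0 rfl,
      h.r301 1 1 0 1 rfl]
  · linarith only [t0, d0, ea, eb, q0, u0, c003, c011, c021, c030, c103, c110, c130, c201, c202,
      c211, c220, c221, hs 0 1 4 0 rfl, hs 1 2 0 2 rfl, hs 2 1 2 0 rfl, hs 3 2 0 0 rfl,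
      h.r012 1 0 1 1 rfl, h.r012 2 0 1 0 rfl, h.r013 1 2 0 0 rfl, h.r013 3 0 0 0 rfl,
      h.r102 3 0 0 0 rfl, h.r103 1 0 0 2 rfl, h.r123 2 1 0 0 rfl, h.r201 0 0 3 0 rfl,
      h.r201 1 1 1 0 rfl, h.r201 2 1 0 0 rfl, h.r301 1 0 0 2 rfl, h.r301 1 2 0 0 rfl,
      h.r301 2 0 0 1 rfl, h.r301 2 1 0 0 rfl, h.r312 1 0 2 0 rfl]
  · linarith only [t0, d0, ea, v0, c000, c002, c003, c020, c030, c101, c110, c130, c201, c210,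
      c212, c230, hs 0 1 0 4 rfl, hs 0 1 2 2 rfl, hs 0 1 3 1 rfl, hs 0 1 4 0 rfl, hs 2 1 0 2 rfl,
      hs 2 1 2 0 rfl, h.r012 2 0 1 0 rfl, h.r013 2 0 1 0 rfl, h.r013 3 0 0 0 rfl,
      h.r102 3 0 0 0 rfl, h.r103 2 0 0 1 rfl, h.r201 0 0 3 0 rfl, h.r201 1 1 0 1 rfl,
      h.r201 1 1 1 0 rfl, h.r201 2 1 0 0 rfl, h.r203 1 1 1 0 rfl, h.r213 1 1 1 0 rfl,
      h.r301 0 0 0 3 rfl, h.r301 0 0 2 1 rfl, h.r301 0 0 3 0 rfl, h.r301 1 1 0 1 rfl]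
  · linarith only [t0, d0, ea, p0, u0, c002, c020, c030, c101, c103, c110, c201, c211, c220,
      hs 0 1 3 1 rfl, hs 2 1 2 0 rfl, h.r012 2 0 1 0 rfl, h.r013 3 0 0 0 rfl, h.r103 1 0 0 2 rfl,
      h.r201 1 1 1 0 rfl, h.r201 2 1 0 0 rfl, h.r213 1 1 0 1 rfl, h.r213 1 1 1 0 rfl,
      h.r213 3 0 0 0 rfl, h.r301 0 0 3 0 rfl, h.r301 2 0 0 1 rfl, h.r312 1 0 0 2 rfl]
  · linarith only [t0, d0, ea, p0, u0, v0, c000, c012, c021, c030, c100, c120, c212, c230,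
      hs 0 1 0 4 rfl, hs 2 1 0 2 rfl, h.r012 2 0 0 1 rfl, h.r012 3 0 0 0 rfl, h.r023 1 2 0 0 rfl,
      h.r103 3 0 0 0 rfl, h.r201 1 0 2 0 rfl, h.r201 2 1 0 0 rfl, h.r203 1 2 0 0 rfl,
      h.r213 2 1 0 0 rfl, h.r301 0 0 0 3 rfl, h.r301 1 1 0 1 rfl]
  · linarith only [t0, d0, ea, eb, p0, q0, u0, c012, c030, c101, c121, c200, c202, c221,
      hs 1 2 0 2 rfl, hs 2 1 1 1 rfl, hs 3 2 0 0 rfl, h.r012 1 1 1 0 rfl, h.r012 3 0 0 0 rfl,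
      h.r013 1 1 0 1 rfl, h.r013 3 0 0 0 rfl, h.r023 1 2 0 0 rfl, h.r103 1 1 1 0 rfl,
      h.r201 1 0 2 0 rfl, h.r201 1 2 0 0 rfl, h.r301 1 0 0 2 rfl, h.r301 2 1 0 0 rfl,
      h.r312 2 0 1 0 rfl]
  · rcases le_max_iff.1 (h.o3 2 0 0 1 rfl) with k | k
    · linarith only [t0, d0, p0, q0, v0, c000, c012, c030, c100, c103, c120, c212, c230, k,
        hs 0 1 0 4 rfl, hs 0 1 1 3 rfl, hs 2 1 0 2 rfl, h.r012 1 1 1 0 rfl, h.r012 1 2 0 0 rfl,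
        h.r012 3 0 0 0 rfl, h.r103 3 0 0 0 rfl, h.r201 0 0 0 3 rfl, h.r201 1 0 2 0 rfl,
        h.r201 1 2 0 0 rfl, h.r213 2 1 0 0 rfl, h.r301 0 0 0 3 rfl, h.r301 1 1 0 1 rfl]
    · linarith only [t0, d0, ea, u0, v0, c000, c012, c021, c100, c103, c120, c212, c230, k,
        hs 0 1 0 4 rfl, hs 0 1 1 3 rfl, hs 2 1 0 2 rfl, h.r012 1 1 1 0 rfl, h.r012 2 0 0 1 rfl,
        h.r102 2 0 0 1 rfl, h.r103 3 0 0 0 rfl, h.r201 0 0 0 3 rfl, h.r201 1 0 2 0 rfl,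
        h.r213 2 1 0 0 rfl, h.r301 0 0 0 3 rfl, h.r301 1 1 0 1 rfl]
  · linarith only [t0, d0, p0, q0, u0, c003, c010, c012, c020, c030, c100, c120, c200, c212, c221,
      hs 0 1 3 1 rfl, hs 1 2 0 2 rfl, hs 3 1 1 0 rfl, h.r012 1 1 1 0 rfl, h.r012 1 2 0 0 rfl,
      h.r012 2 0 1 0 rfl, h.r013 1 1 0 1 rfl, h.r013 1 1 1 0 rfl, h.r013 3 0 0 0 rfl,
      h.r023 1 2 0 0 rfl, h.r102 2 1 0 0 rfl, h.r103 1 0 0 2 rfl, h.r201 1 0 2 0 rfl,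
      h.r203 1 2 0 0 rfl, h.r301 0 0 3 0 rfl, h.r301 1 0 0 2 rfl, h.r301 1 0 1 1 rfl,
      h.r301 2 0 0 1 rfl, h.r312 1 0 0 2 rfl]
  · linarith only [t0, d0, ea, q0, u0, v0, c000, c003, c021, c110, c130, c212, c230,
      hs 0 1 0 4 rfl, hs 0 1 4 0 rfl, hs 2 1 0 2 rfl, hs 2 1 2 0 rfl, h.r012 2 1 0 0 rfl,
      h.r013 2 0 0 1 rfl, h.r013 2 0 1 0 rfl, h.r102 2 0 1 0 rfl, h.r103 2 0 1 0 rfl,
      h.r103 3 0 0 0 rfl, h.r201 0 0 3 0 rfl, h.r201 1 1 1 0 rfl, h.r301 0 0 0 3 rfl,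
      h.r301 1 1 0 1 rfl]
  · linarith only [t0, d0, q0, u0, v0, c003, c010, c021, c030, c110, c130, c203, c221,
      hs 0 1 4 0 rfl, hs 2 1 2 0 rfl, h.r012 1 1 0 1 rfl, h.r013 2 0 1 0 rfl, h.r013 3 0 0 0 rfl,
      h.r102 2 0 1 0 rfl, h.r102 3 0 0 0 rfl, h.r201 0 0 3 0 rfl, h.r201 1 1 1 0 rfl,
      h.r301 1 0 0 2 rfl, h.r301 2 1 0 0 rfl, h.r302 1 2 0 0 rfl, h.r312 2 1 0 0 rfl]
  · linarith only [t0, d0, ea, p0, v0, c000, c002, c021, c110, c201, c212, c230, hs 0 1 0 4 rfl,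
      hs 0 1 3 1 rfl, hs 2 1 0 2 rfl, hs 2 1 2 0 rfl, h.r012 2 0 1 0 rfl, h.r012 2 1 0 0 rfl,
      h.r013 2 1 0 0 rfl, h.r102 2 0 1 0 rfl, h.r103 2 0 0 1 rfl, h.r103 3 0 0 0 rfl,
      h.r201 1 1 1 0 rfl, h.r301 0 0 0 3 rfl, h.r301 0 0 3 0 rfl, h.r301 1 1 0 1 rfl]
  · linarith only [t0, d0, ea, p0, q0, u0, v0, c010, c020, c110, c212, c221, hs 1 2 0 2 rfl,
      hs 2 1 2 0 rfl, h.r012 1 0 2 0 rfl, h.r012 2 1 0 0 rfl, h.r013 1 1 0 1 rfl,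
      h.r013 2 1 0 0 rfl, h.r201 1 1 1 0 rfl, h.r301 1 0 0 2 rfl, h.r301 2 0 0 1 rfl]
  · linarith only [t0, d0, p0, q0, u0, v0, c000, c021, c202, c203, c212, c230, hs 0 1 0 4 rfl,
      hs 2 1 0 2 rfl, h.r012 2 0 0 1 rfl, h.r102 1 0 2 0 rfl, h.r103 3 0 0 0 rfl,
      h.r301 0 0 0 3 rfl, h.r301 1 1 0 1 rfl, h.r302 2 1 0 0 rfl, h.r312 3 0 0 0 rfl]
  · linarith only [t0, d0, p0, q0, u0, v0, c010, c012, c030, c110, c120, c203, c221,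
      h.r012 1 1 1 0 rfl, h.r013 1 1 0 1 rfl, h.r013 1 2 0 0 rfl, h.r013 3 0 0 0 rfl,
      h.r201 1 0 2 0 rfl, h.r213 2 0 1 0 rfl, h.r301 1 0 0 2 rfl, h.r301 1 2 0 0 rfl,
      h.r312 2 1 0 0 rfl]
  · linarith only [t0, d0, p0, q0, u0, v0, c011, c020, c021, c111, c120, c212, hs 1 2 2 0 rfl,
      hs 2 1 0 2 rfl, h.r012 1 1 1 0 rfl, h.r012 2 1 0 0 rfl, h.r013 1 0 0 2 rfl,
      h.r013 2 1 0 0 rfl, h.r201 1 0 2 0 rfl, h.r201 2 0 1 0 rfl, h.r301 1 1 0 1 rfl]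
  · linarith only [t0, d0, p0, q0, u0, v0, c010, c012, c020, c021, c110, c120, c212, c221,
      h.r012 1 1 1 0 rfl, h.r012 2 1 0 0 rfl, h.r013 1 1 0 1 rfl, h.r013 2 1 0 0 rfl,
      h.r201 1 0 2 0 rfl, h.r201 2 0 1 0 rfl, h.r301 1 0 0 2 rfl, h.r301 2 0 0 1 rfl]

lemma defect5 {t : ℤ} {h : Hive} (hs : ∀ i j k, i + j + k = 5 → h i j k ≤ h j i k + t) :
    Iso5 (5 * t) h := by
  have b0 := hs 0 0 5 rfl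
  simp only [Iso5, tt, abs_le, Nat.reduceAdd]
  refine ⟨⟨?_, ?_⟩, ⟨?_, ?_⟩, ⟨?_, ?_⟩, ?_, ?_⟩ <;>
    linarith [hs 2 0 3 rfl, hs 0 2 3 rfl, hs 1 2 2 rfl, hs 2 1 2 rfl, hs 0 1 4 rfl, hs 1 0 4 rfl,
      hs 3 1 1 rfl, hs 1 3 1 rfl, hs 2 3 0 rfl, hs 3 2 0 rfl, hs 4 0 1 rfl, hs 0 4 1 rfl,
      hs 3 0 2 rfl, hs 0 3 2 rfl, hs 4 1 0 rfl, hs 1 4 0 rfl]

lemma phi5_bd (h : Hive) : 5 * |tt h 2 0 0| + 5 * |tt h 1 0 1| ≤ phi5 h ∧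
    phi5 h ≤ 8 * |tt h 2 0 0| + 9 * |tt h 1 0 1| := by
  simp only [phi5, abs_eq_max_neg]
  omega

lemma round5 {t : ℕ} (ht : 0 < t) {h : Hive}
    (hs : ∀ i j k, i + j + k = 5 → h i j k ≤ h j i k + t) :
    ∃ i : ℕ, 0 < i ∧ (i * t : ℤ) ≤ phi5 h + 60001 * t ∧ Q5 (i * t) h := by
  have h0 : 0 ≤ phi5 h := le_trans (by positivity) (phi5_bd h).1
  obtain ⟨u, hu⟩ := Int.eq_ofNat_of_zero_le h0
  have h3 : ((u / t : ℕ) : ℤ) * t + (u % t : ℕ) = u := by exact_mod_cast Nat.div_add_mod' u t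
  have h4 : ((u % t : ℕ) : ℤ) < t := by exact_mod_cast Nat.mod_lt u ht
  have h5 : (0 : ℤ) ≤ (u % t : ℕ) := by positivity
  have h6 : (0 : ℤ) ≤ ((u / t : ℕ) : ℤ) * t := by positivity
  refine ⟨u / t + 60001, Nat.succ_pos _, ?_, 5 * t, ?_, defect5 hs, ?_⟩ <;>
    simp only [Nat.cast_mul, Nat.cast_add, Nat.cast_ofNat, add_mul] <;> linarith

lemma start5 {R : ℕ} {h : Hive} (hs : ∀ i j k, i + j + k = 5 → h i j k ≤ h j i k + R)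
    (r1 : ∀ a b c, a + b + c = 3 →
      h (a + 2) b c + h a (b + 1) (c + 1) ≤ h (a + 1) (b + 1) c + h (a + 1) b (c + 1))
    (r2 : ∀ a b c, a + b + c = 3 →
      h a (b + 2) c + h (a + 1) b (c + 1) ≤ h (a + 1) (b + 1) c + h a (b + 1) (c + 1))
    (e1 : h 5 0 0 = 0) (e2 : h 0 5 0 = 0) (hd : Diam 3 R h) : Q5 (60000 * R) h := by
  have hR : (0 : ℤ) ≤ R := by positivity
  have k : |tt h 2 0 0| ≤ 2 * R ∧ |tt h 1 0 1| ≤ 2 * R := by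
    have a1 := hd.1
    simp only [tt, Nat.reduceAdd, abs_le] at *
    refine ⟨⟨?_, ?_⟩, ?_, ?_⟩ <;>
      linarith [r1 3 0 0 rfl, r1 2 1 0 rfl, r1 1 2 0 rfl, r1 0 3 0 rfl, r1 2 0 1 rfl, r1 1 1 1 rfl,
        r1 0 2 1 rfl, r1 1 0 2 rfl, r1 0 1 2 rfl, r2 3 0 0 rfl, r2 2 1 0 rfl, r2 1 2 0 rfl,
        r2 0 3 0 rfl, r2 2 0 1 rfl, r2 1 1 1 rfl, r2 0 2 1 rfl, r2 1 0 2 rfl, r2 0 1 2 rfl]
  refine ⟨5 * R, ?_, defect5 hs, ?_⟩ <;> push_cast <;> linarith [(phi5_bd h).2, k.1, k.2]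

theorem game5 : Nonempty (Game 3) := by
  refine ⟨⟨Q5, Q5, 7000000, 60000, by norm_num, by norm_num, fun r h h' A B C e q => ?_,
    fun r h q => Or.inl q, fun r h q a b d e => ?_, fun R H h hs d1 d2 => ⟨?_, ?_⟩,
    fun r t H ht hr h hs q c => ?_⟩⟩
  · have k : tt h' 0 0 2 = tt h 0 0 2 ∧ tt h' 1 1 0 = tt h 1 1 0 ∧ tt h' 0 2 0 = tt h 0 2 0 ∧
        tt h' 2 0 0 = tt h 2 0 0 ∧ tt h' 0 1 1 = tt h 0 1 1 ∧ tt h' 1 0 1 = tt h 1 0 1 := by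
      simp only [tt, Nat.reduceAdd]
      refine ⟨?_, ?_, ?_, ?_, ?_, ?_⟩ <;> (repeat rw [e _ _ _ rfl]) <;> ring
    unfold Q5 Iso5 phi5 at *
    rwa [k.1, k.2.1, k.2.2.1, k.2.2.2.1, k.2.2.2.2.1, k.2.2.2.2.2]
  · obtain ⟨x, q0, ⟨q1, q2, q3, q4⟩, q5⟩ := q
    have q6 := (phi5_bd h).1
    simp only [abs_eq_max_neg] at *
    obtain ⟨rfl, rfl, rfl⟩ | ⟨rfl, rfl, rfl⟩ | ⟨rfl, rfl, rfl⟩ | ⟨rfl, rfl, rfl⟩ | ⟨rfl, rfl, rfl⟩ |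
      ⟨rfl, rfl, rfl⟩ : (a = 0 ∧ b = 0 ∧ d = 2) ∨ (a = 1 ∧ b = 1 ∧ d = 0) ∨ (a = 0 ∧ b = 2 ∧ d = 0) ∨
        (a = 2 ∧ b = 0 ∧ d = 0) ∨ (a = 0 ∧ b = 1 ∧ d = 1) ∨ (a = 1 ∧ b = 0 ∧ d = 1) := by omega
    all_goals omega
  · exact start5 (fun i j k e => hs i j k 0 e) (fun a b c e => h.r012 a b c 0 e)
      (fun a b c e => h.r102 a b c 0 e) h.d0 h.d1 d1
  · exact start5 (fun i j k e => hs i j 0 k e) (fun a b c e => h.r013 a b 0 c e)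
      (fun a b c e => h.r103 a b 0 c e) h.d0 h.d1 d2
  · obtain ⟨i, i0, i1, i2⟩ := round5 ht (h := f012 H) fun i j k e => hs i j k 0 e
    obtain ⟨j, j0, j1, j2⟩ := round5 ht (h := f013 H) fun i j k e => hs i j 0 k e
    obtain ⟨d, q1, q2, q3⟩ := q
    have k := contract5 h hs q2 c
    refine ⟨i, j, i0, j0, ?_, i2, j2⟩
    have hr' : (7000000 * t : ℤ) ≤ r := by exact_mod_cast hr
    have : (4 * (i + j) * t : ℤ) ≤ 7 * r := by linarith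
    exact_mod_cast this

end Pool.Agent.MP_1ca372_al.H38
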