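import Pool.Agent.MP_1ca372_al.H38.Spec

/-! The game in degree four: isosceles triples contract. -/

namespace Pool.Agent.MP_1ca372_al.H38

/-- nearly isosceles triples of size at most `r` -/
def Q4 (r : ℕ) (h : Hive) : Prop :=
  384 * |tt h 0 0 1| ≤ r ∧ 384 * |tt h 0 1 0 + tt h 1 0 0| ≤ r ∧ 4 * tt h 1 0 0 ≤ r ∧
    -3 * tt h 1 0 0 ≤ r

lemma coreZ2 {τ : ℤ} {h : Hive} (hc : CoreZ 2 τ h) :
    (sl h 0 2 0 ≤ τ ∨ sl h 1 1 0 ≤ τ ∨ sl h 2 0 0 ≤ τ) ∧ (sl h 0 1 1 ≤ τ ∨ sl h 1 0 1 ≤ τ) ∧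
      sl h 0 0 2 ≤ τ := by
  obtain ⟨a, b, h1, h2⟩ := hc 0 (by norm_num)
  obtain ⟨a', b', h3, h4⟩ := hc 1 (by norm_num)
  obtain ⟨a'', b'', h5, h6⟩ := hc 2 le_rfl
  obtain ⟨rfl, rfl⟩ : a'' = 0 ∧ b'' = 0 := by omega
  refine ⟨?_, ?_, h6⟩
  · obtain ⟨rfl, rfl⟩ | ⟨rfl, rfl⟩ | ⟨rfl, rfl⟩ :
      (a = 0 ∧ b = 2) ∨ (a = 1 ∧ b = 1) ∨ (a = 2 ∧ b = 0) := by omega
    exacts [Or.inl h2, Or.inr (Or.inl h2), Or.inr (Or.inr h2)]
  · obtain ⟨rfl, rfl⟩ | ⟨rfl, rfl⟩ : (a' = 0 ∧ b' = 1) ∨ (a' = 1 ∧ b' = 0) := by omega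
    exacts [Or.inl h4, Or.inr h4]

lemma contract4 {r : ℕ} {t : ℤ} {H : Four} (h : IsM 2 H) (hs : Sym 2 t H) (hq : Q4 r (f023 H))
    (hc : Core 2 t (f023 H)) :
    8 * (max (4 * tt (f012 H) 1 0 0) (-3 * tt (f012 H) 1 0 0) +
      max (4 * tt (f013 H) 1 0 0) (-3 * tt (f013 H) 1 0 0)) ≤ 13 * r + 192 * t := by
  obtain ⟨q1, q2, q3, q4⟩ := hq
  obtain ⟨z1, z2, z3⟩ := coreZ2 hc.1
  obtain ⟨x1, x2, x3⟩ := coreZ2 hc.2.1
  obtain ⟨y1, y2, y3⟩ := coreZ2 hc.2.2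
  have q5 := le_abs_self (tt (f023 H) 0 0 1)
  have q6 := neg_abs_le (tt (f023 H) 0 0 1)
  have q7 := le_abs_self (tt (f023 H) 0 1 0 + tt (f023 H) 1 0 0)
  have q8 := neg_abs_le (tt (f023 H) 0 1 0 + tt (f023 H) 1 0 0)
  have ht : 0 ≤ t := by linarith [hs 0 0 2 2 rfl]
  have hr : (0 : ℤ) ≤ r := by positivity
  generalize |tt (f023 H) 0 0 1| = d1 at *
  generalize |tt (f023 H) 0 1 0 + tt (f023 H) 1 0 0| = d2 at *
  have a1 := h.r012 2 0 0 0 rfl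
  have a2 := h.r301 1 1 0 0 rfl
  have a3 := h.r013 2 0 0 0 rfl
  have a4 := h.r201 1 1 0 0 rfl
  have a5 := h.r213 1 1 0 0 rfl
  have a6 := h.r312 1 0 0 1 rfl
  have a7 := h.r301 0 0 0 2 rfl
  have a8 := h.r213 1 0 1 0 rfl
  have a9 := hs 0 1 0 3 rfl
  have a10 := hs 2 1 0 1 rfl
  have a11 := h.r312 1 1 0 0 rfl
  have a12 := h.r102 1 0 1 0 rfl
  have a13 := h.r201 1 0 1 0 rfl
  have a14 := h.r013 1 1 0 0 rfl
  have a15 := h.r012 1 1 0 0 rfl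
  have a16 := h.r301 1 0 0 1 rfl
  have a17 := h.r023 0 0 1 1 rfl
  have a18 := h.r203 2 0 0 0 rfl
  have a19 := h.r203 1 0 0 1 rfl
  rcases le_total 0 (tt (f023 H) 1 0 0) with hsg | hsg
  · simp only [tt, sl, rot, f012, f013, f023, Nat.reduceAdd] at *
    have c1 : 384 * (H 1 0 3 0 + H 1 0 2 1 - H 2 0 2 0 - H 0 0 3 1) ≤ 384 * t + 2 * r := by
      rcases x1 with k | k | k <;> linarith
    have c2 : 384 * (H 2 0 1 1 + H 2 0 0 2 - H 3 0 0 1 - H 1 0 1 2) ≤ 384 * t + 2 * r := by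
      rcases x2 with k | k <;> linarith
    have c3 : 384 * (H 3 0 1 0 + H 2 0 1 1 - H 2 0 2 0 - H 3 0 0 1) ≤ 384 * t + 2 * r := by
      rcases y1 with k | k | k <;> linarith
    have c4 : 384 * (H 1 0 2 1 + H 0 0 2 2 - H 0 0 3 1 - H 1 0 1 2) ≤ 384 * t + 2 * r := by
      rcases y2 with k | k <;> linarith
    have c5 : 384 * (H 2 0 1 1 + H 1 0 2 1 - H 1 0 1 2 - H 2 0 2 0) ≤ 384 * t + 2 * r := by
      rcases z1 with k | k | k <;> linarith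
    have c6 : 384 * (H 1 0 1 2 + H 0 0 2 2 - H 0 0 1 3 - H 1 0 2 1) ≤ 384 * t + 2 * r := by
      rcases z2 with k | k <;> linarith
    clear x1 x2 y1 y2 z1 z2
    rcases max_choice (4 * (H 3 0 1 0 + H 2 2 0 0 + H 1 1 2 0 - H 1 2 1 0 - H 2 0 2 0 - H 3 1 0 0))
      (-3 * (H 3 0 1 0 + H 2 2 0 0 + H 1 1 2 0 - H 1 2 1 0 - H 2 0 2 0 - H 3 1 0 0)) with k | k <;>
    rcases max_choice (4 * (H 3 0 0 1 + H 2 2 0 0 + H 1 1 0 2 - H 1 2 0 1 - H 2 0 0 2 - H 3 1 0 0))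
      (-3 * (H 3 0 0 1 + H 2 2 0 0 + H 1 1 0 2 - H 1 2 0 1 - H 2 0 0 2 - H 3 1 0 0)) with k' | k' <;>
    rw [k, k'] <;> linarith
  · simp only [tt, sl, rot, f012, f013, f023, Nat.reduceAdd] at *
    have c1 : 384 * (H 1 0 1 2 + H 1 0 0 3 - H 2 0 0 2 - H 0 0 1 3) ≤ 384 * t + 2 * r := by
      rcases x1 with k | k | k <;> linarith
    have c2 : 384 * (H 2 0 2 0 + H 2 0 1 1 - H 3 0 1 0 - H 1 0 2 1) ≤ 384 * t + 2 * r := by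
      rcases x2 with k | k <;> linarith
    have c3 : 384 * (H 1 0 1 2 + H 0 0 1 3 - H 0 0 2 2 - H 1 0 0 3) ≤ 384 * t + 2 * r := by
      rcases y1 with k | k | k <;> linarith
    have c4 : 384 * (H 2 0 2 0 + H 1 0 2 1 - H 1 0 3 0 - H 2 0 1 1) ≤ 384 * t + 2 * r := by
      rcases y2 with k | k <;> linarith
    have c5 : 384 * (H 1 0 2 1 + H 0 0 3 1 - H 0 0 2 2 - H 1 0 3 0) ≤ 384 * t + 2 * r := by
      rcases z1 with k | k | k <;> linarith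
    have c6 : 384 * (H 1 0 1 2 + H 0 0 2 2 - H 0 0 1 3 - H 1 0 2 1) ≤ 384 * t + 2 * r := by
      rcases z2 with k | k <;> linarith
    clear x1 x2 y1 y2 z1 z2
    rcases max_choice (4 * (H 3 0 1 0 + H 2 2 0 0 + H 1 1 2 0 - H 1 2 1 0 - H 2 0 2 0 - H 3 1 0 0))
      (-3 * (H 3 0 1 0 + H 2 2 0 0 + H 1 1 2 0 - H 1 2 1 0 - H 2 0 2 0 - H 3 1 0 0)) with k | k <;>
    rcases max_choice (4 * (H 3 0 0 1 + H 2 2 0 0 + H 1 1 0 2 - H 1 2 0 1 - H 2 0 0 2 - H 3 1 0 0))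
      (-3 * (H 3 0 0 1 + H 2 2 0 0 + H 1 1 0 2 - H 1 2 0 1 - H 2 0 0 2 - H 3 1 0 0)) with k' | k' <;>
    rw [k, k'] <;> linarith

lemma defect4 {t : ℤ} {h : Hive} (hs : ∀ i j k, i + j + k = 4 → h i j k ≤ h j i k + t) :
    |tt h 0 0 1| ≤ 4 * t ∧ |tt h 0 1 0 + tt h 1 0 0| ≤ 4 * t := by
  have b0 := hs 0 0 4 rfl
  have b1 := hs 2 0 2 rfl
  have b2 := hs 0 2 2 rfl
  have b3 := hs 1 2 1 rfl
  have b4 := hs 2 1 1 rfl
  have b5 := hs 0 1 3 rfl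
  have b6 := hs 1 0 3 rfl
  have b7 := hs 1 3 0 rfl
  have b8 := hs 3 1 0 rfl
  have b9 := hs 3 0 1 rfl
  have b10 := hs 0 3 1 rfl
  simp only [tt, abs_le, Nat.reduceAdd]
  refine ⟨⟨?_, ?_⟩, ?_, ?_⟩ <;> linarith

lemma round4 {t : ℕ} (ht : 0 < t) {h : Hive}
    (hs : ∀ i j k, i + j + k = 4 → h i j k ≤ h j i k + t) :
    ∃ i : ℕ, 0 < i ∧ (i * t : ℤ) ≤ max (4 * tt h 1 0 0) (-3 * tt h 1 0 0) + 1537 * t ∧
      Q4 (i * t) h := by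
  obtain ⟨d1, d2⟩ := defect4 hs
  have h0 : 0 ≤ max (4 * tt h 1 0 0) (-3 * tt h 1 0 0) := by
    rcases le_total 0 (tt h 1 0 0) with k | k
    · exact le_max_of_le_left (by linarith)
    · exact le_max_of_le_right (by linarith)
  have h1 := le_max_left (4 * tt h 1 0 0) (-3 * tt h 1 0 0)
  have h2 := le_max_right (4 * tt h 1 0 0) (-3 * tt h 1 0 0)
  obtain ⟨u, hu⟩ := Int.eq_ofNat_of_zero_le h0
  rw [hu] at h1 h2 ⊢
  have h3 : ((u / t : ℕ) : ℤ) * t + (u % t : ℕ) = u := by exact_mod_cast Nat.div_add_mod' u t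
  have h4 : ((u % t : ℕ) : ℤ) < t := by exact_mod_cast Nat.mod_lt u ht
  have h5 : (0 : ℤ) ≤ (u % t : ℕ) := by positivity
  have h6 : (0 : ℤ) ≤ ((u / t : ℕ) : ℤ) * t := by positivity
  refine ⟨u / t + 1537, Nat.succ_pos _, ?_, ?_, ?_, ?_, ?_⟩ <;>
    simp only [Nat.cast_mul, Nat.cast_add, Nat.cast_ofNat, add_mul] <;> linarith

lemma start4 {R : ℕ} {h : Hive} (hs : ∀ i j k, i + j + k = 4 → h i j k ≤ h j i k + R)
    (hb : |tt h 1 0 0| ≤ 2 * R) : Q4 (1536 * R) h := by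
  obtain ⟨d1, d2⟩ := defect4 hs
  have hR : (0 : ℤ) ≤ R := by positivity
  rw [abs_le] at hb
  refine ⟨?_, ?_, ?_, ?_⟩ <;> push_cast <;> linarith [hb.1, hb.2]

theorem game4 : Nonempty (Game 2) := by
  refine ⟨⟨Q4, Q4, 25000, 1536, by norm_num, by norm_num, fun r h h' A B C e q => ?_,
    fun r h q => Or.inl q, fun r h q a b d e => ?_, fun R H h hs d1 d2 => ⟨?_, ?_⟩,
    fun r t H ht hr h hs q c => ?_⟩⟩
  · have k : tt h' 0 0 1 = tt h 0 0 1 ∧ tt h' 0 1 0 = tt h 0 1 0 ∧ tt h' 1 0 0 = tt h 1 0 0 := by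
      simp only [tt, Nat.reduceAdd]
      refine ⟨?_, ?_, ?_⟩ <;> (repeat rw [e _ _ _ rfl]) <;> ring
    unfold Q4 at *
    rwa [k.1, k.2.1, k.2.2]
  · obtain ⟨q1, q2, q3, q4⟩ := q
    have q7 := le_abs_self (tt h 0 1 0 + tt h 1 0 0)
    have q8 := neg_abs_le (tt h 0 1 0 + tt h 1 0 0)
    have hr : (0 : ℤ) ≤ r := by positivity
    obtain ⟨rfl, rfl, rfl⟩ | ⟨rfl, rfl, rfl⟩ | ⟨rfl, rfl, rfl⟩ :
      (a = 0 ∧ b = 0 ∧ d = 1) ∨ (a = 0 ∧ b = 1 ∧ d = 0) ∨ (a = 1 ∧ b = 0 ∧ d = 0) := by omega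
    · push_cast
      linarith
    · rw [abs_le]
      constructor <;> push_cast <;> linarith
    · rw [abs_le]
      constructor <;> push_cast <;> linarith
  · refine start4 (fun i j k e => hs i j k 0 e) ?_
    have a1 := d1.1
    have a2 := h.d0
    have a3 := h.d1
    simp only [tt, f012, Nat.reduceAdd, abs_le] at *
    constructor <;> linarith [h.r012 2 0 0 0 rfl, h.r012 1 1 0 0 rfl, h.r012 1 0 1 0 rfl,
      h.r012 0 2 0 0 rfl, h.r012 0 1 1 0 rfl, h.r102 2 0 0 0 rfl, h.r102 1 1 0 0 rfl,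
      h.r102 1 0 1 0 rfl, h.r102 0 2 0 0 rfl, h.r102 0 1 1 0 rfl]
  · refine start4 (fun i j k e => hs i j 0 k e) ?_
    have a1 := d2.1
    have a2 := h.d0
    have a3 := h.d1
    simp only [tt, f013, Nat.reduceAdd, abs_le] at *
    constructor <;> linarith [h.r013 2 0 0 0 rfl, h.r013 1 1 0 0 rfl, h.r013 1 0 0 1 rfl,
      h.r013 0 2 0 0 rfl, h.r013 0 1 0 1 rfl, h.r103 2 0 0 0 rfl, h.r103 1 1 0 0 rfl,
      h.r103 1 0 0 1 rfl, h.r103 0 2 0 0 rfl, h.r103 0 1 0 1 rfl]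
  · obtain ⟨i, i0, i1, i2⟩ := round4 ht (h := f012 H) fun i j k e => hs i j k 0 e
    obtain ⟨j, j0, j1, j2⟩ := round4 ht (h := f013 H) fun i j k e => hs i j 0 k e
    have k := contract4 h hs q c
    refine ⟨i, j, i0, j0, ?_, i2, j2⟩
    have hr' : (25000 * t : ℤ) ≤ r := by exact_mod_cast hr
    have : (4 * (i + j) * t : ℤ) ≤ 7 * r := by linarith
    exact_mod_cast this

end Pool.Agent.MP_1ca372_al.H38
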