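import Pool.Agent.MP_1ca372_al.H38.Det

/-! Lattices over a discrete valuation ring, Smith form, volumes of pairs. -/

set_option linter.unusedSectionVars false

namespace Pool.Agent.MP_1ca372_al.H38

open Multiset Module WithZero Function

section general

variable {K V ι : Type*} [Field K] [AddCommGroup V] [Module K V] [Fintype ι] [DecidableEq ι]
  {v : Valuation K ℤᵐ⁰} {e : Basis ι K V} {α : Type*} {r : V → α → Prop}

lemma dv_base (e' : Basis ι K V) (m : Multiset V) : dv v e m = v (e.det e') * dv v e' m := by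
  by_cases h : card m = Fintype.card ι
  · obtain ⟨u, rfl⟩ := exists_enum h
    rw [dv_map, dv_map, ← map_mul]
    conv_lhs => rw [e.det.eq_smul_basis_det e']
    rfl
  · rw [dv_zero v e h, dv_zero v e' h, mul_zero]

lemma exp_sum (γ : ι → ℤ) : exp (∑ i, γ i) = ∏ i, exp (γ i) :=
  map_prod (⟨⟨fun a => exp a.toAdd, rfl⟩, fun _ _ => rfl⟩ : Multiplicative ℤ →* ℤᵐ⁰)
    (fun i => Multiplicative.ofAdd (γ i)) Finset.univ

lemma rel_map_univ {β : Type*} {u : β → V} {L : β → α} (s : Multiset β) (h : ∀ i, r (u i) (L i)) :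
    Rel r (s.map u) (s.map L) :=
  rel_map.2 (rel_refl_of_refl_on fun i _ => h i)

lemma fine_of {s : Multiset α} (hs : card s = Fintype.card ι) (R R' : ℤ)
    (h1 : ∀ A ∈ s, ∀ l, ∃ c, exp (-R) ≤ v c ∧ r (c • e l) A)
    (h2 : ∀ A ∈ s, ∀ u, r u A → ∀ l, v (e.repr u l) ≤ exp R') :
    Fine v e r s ∧ -(Fintype.card ι * R) ≤ D v e r s ∧ D v e r s ≤ Fintype.card ι * R' := by
  obtain ⟨L, rfl⟩ := exists_enum hs
  choose c c1 c2 using fun i => h1 (L i) (mem_map_of_mem _ (Finset.mem_univ_val i)) i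
  have k1 := rel_map_univ (u := fun i => c i • e i) Finset.univ.val c2
  have k2 : exp (-(Fintype.card ι * R)) ≤ dv v e (Finset.univ.val.map fun i => c i • e i) := by
    rw [dv_map, val_det_diag]
    refine le_trans (le_of_eq ?_) (Finset.prod_le_prod' fun i _ => c1 i)
    rw [← exp_sum]
    simp
  have k3 : ∀ m, Rel r m (Finset.univ.val.map L) → dv v e m ≤ exp (Fintype.card ι * R') := by
    intro m hm
    obtain ⟨u, rfl⟩ := exists_enum ((card_eq_card_of_rel hm).trans hs)
    rw [dv_map]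
    refine val_det_le v e u (fun _ _ => R') _ (fun i l => ?_) fun σ => by simp
    obtain ⟨A, a1, a2⟩ := exists_mem_of_rel_of_mem hm (mem_map_of_mem u (Finset.mem_univ_val i))
    exact h2 A a1 _ a2 l
  have k4 : Fine v e r (Finset.univ.val.map L) :=
    ⟨⟨_, k1, (exp_pos.trans_le k2).ne'⟩, _, k3⟩
  exact ⟨k4, k4.le_D k1 k2, k4.D_le k3⟩

end general

/-- the sum of the first `a` values -/
def top {n : ℕ} (δ : Fin n → ℤ) (a : ℕ) : ℤ := ∑ l with l.val < a, δ l

lemma top_zero {n : ℕ} (δ : Fin n → ℤ) : top δ 0 = 0 := by simp [top]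

lemma top_succ {n : ℕ} (δ : Fin n → ℤ) {a : ℕ} (h : a < n) : top δ (a + 1) = top δ a + δ ⟨a, h⟩ := by
  have h1 : (Finset.univ.filter fun l : Fin n => l.val < a + 1) =
      insert ⟨a, h⟩ (Finset.univ.filter fun l : Fin n => l.val < a) := by
    ext l
    simp only [Finset.mem_filter, Finset.mem_univ, true_and, Finset.mem_insert, Fin.ext_iff]
    omega
  rw [top, h1, Finset.sum_insert (by simp), add_comm, top]

lemma top_all {n : ℕ} (δ : Fin n → ℤ) : top δ n = ∑ l, δ l := by simp [top]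

lemma card_lt {n a : ℕ} (h : a ≤ n) : (Finset.univ.filter fun l : Fin n => l.val < a).card = a := by
  rw [Fin.card_filter_val_lt, min_eq_right h]

lemma sum_le_top {n : ℕ} {δ : Fin n → ℤ} (hδ : Antitone δ) (S : Finset (Fin n)) :
    ∑ l ∈ S, δ l ≤ top δ S.card := by
  have h0 : S.card ≤ n := by simpa using S.card_le_univ
  set T := Finset.univ.filter fun l : Fin n => l.val < S.card with hT
  have h1 : (S \ T).card = (T \ S).card := Finset.card_sdiff_comm (card_lt h0).symm
  rw [top, ← Finset.sum_inter_add_sum_sdiff S T, ← Finset.sum_inter_add_sum_sdiff T S,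
    Finset.inter_comm T S]
  refine add_le_add_right ?_ _
  rcases (S \ T).eq_empty_or_nonempty with h2 | ⟨l0, h2⟩
  · rw [h2, Finset.card_empty, eq_comm, Finset.card_eq_zero] at h1
    rw [h1, h2]
  · have h3 : S.card < n := by
      have := (Finset.mem_sdiff.1 h2).2
      simp only [hT, Finset.mem_filter, Finset.mem_univ, true_and] at this
      omega
    refine (Finset.sum_le_card_nsmul _ _ (δ ⟨S.card, h3⟩) fun l hl => hδ ?_).trans ?_
    · have := (Finset.mem_sdiff.1 hl).2
      simp only [hT, Finset.mem_filter, Finset.mem_univ, true_and] at this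
      rw [Fin.le_def]
      exact not_lt.1 this
    · rw [h1]
      refine Finset.card_nsmul_le_sum _ _ _ fun l hl => hδ ?_
      have := (Finset.mem_sdiff.1 hl).1
      simp only [hT, Finset.mem_filter, Finset.mem_univ, true_and] at this
      rw [Fin.le_def]
      exact this.le

/-- a normalised valuation with valuation ring `O` -/
structure Val (O K : Type*) [CommRing O] [Field K] [Algebra O K] where
  v : Valuation K ℤᵐ⁰
  π : K
  hπ : v π = exp (-1)
  int : ∀ c, v c ≤ 1 ↔ ∃ a : O, algebraMap O K a = c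

abbrev Lat (O K : Type*) [CommRing O] [Field K] [Algebra O K] (n : ℕ) :=
  {L : Submodule O (Fin n → K) // L.IsLattice K}

variable {O K : Type*} [CommRing O] [IsDomain O] [IsPrincipalIdealRing O] [Field K] [Algebra O K]
  [IsFractionRing O K] {n : ℕ}

noncomputable instance : Lattice (Lat O K n) :=
  Subtype.lattice (fun _ _ _ _ => Submodule.IsLattice.sup K _ _)
    fun _ _ _ _ => Submodule.IsLattice.inf K _ _

lemma val_sup (A B : Lat O K n) : (A ⊔ B).1 = A.1 ⊔ B.1 := rfl

lemma val_inf (A B : Lat O K n) : (A ⊓ B).1 = A.1 ⊓ B.1 := rfl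

lemma le_iff {A B : Lat O K n} : A ≤ B ↔ ∀ u ∈ A.1, u ∈ B.1 := Iff.rfl

/-- image of a lattice -/
def act (f : (Fin n → K) ≃ₗ[K] (Fin n → K)) (L : Lat O K n) : Lat O K n :=
  ⟨L.1.map (f.restrictScalars O).toLinearMap, L.2.fg.map _, by
    have h := congrArg (Submodule.map f.toLinearMap) L.2.span_eq_top
    rw [Submodule.map_span, Submodule.map_top, LinearEquiv.range] at h
    exact h⟩

lemma mem_act {f : (Fin n → K) ≃ₗ[K] (Fin n → K)} {L : Lat O K n} {u : Fin n → K} :
    u ∈ (act f L).1 ↔ f.symm u ∈ L.1 :=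
  Submodule.mem_map_equiv (e := f.restrictScalars O) L.1

lemma act_sup (f : (Fin n → K) ≃ₗ[K] (Fin n → K)) (A B : Lat O K n) :
    act f (A ⊔ B) = act f A ⊔ act f B :=
  Subtype.ext (Submodule.map_sup _ _ _)

lemma act_inf (f : (Fin n → K) ≃ₗ[K] (Fin n → K)) (A B : Lat O K n) :
    act f (A ⊓ B) = act f A ⊓ act f B :=
  Subtype.ext (Submodule.map_inf _ (f.restrictScalars O).injective)

namespace Val

variable (W : Val O K)

lemma π_ne : W.π ≠ 0 := fun h => by
  have h1 := W.hπ
  rw [h, W.v.map_zero] at h1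
  exact exp_ne_zero h1.symm

lemma v_pow (k : ℤ) : W.v (W.π ^ k) = exp (-k) := by
  rw [map_zpow₀, W.hπ, ← exp_zsmul]
  simp

lemma smul_mem {L : Submodule O (Fin n → K)} {c : K} {u : Fin n → K} (hc : W.v c ≤ 1)
    (hu : u ∈ L) : c • u ∈ L := by
  obtain ⟨a, rfl⟩ := (W.int c).1 hc
  rw [algebraMap_smul]
  exact L.smul_mem a hu

/-- the lattice `π ^ (-k) L` -/
noncomputable def sc (k : ℤ) (L : Lat O K n) : Lat O K n :=
  act (LinearEquiv.smulOfNeZero K _ (W.π ^ k) (zpow_ne_zero k W.π_ne)).symm L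

lemma mem_sc {k : ℤ} {L : Lat O K n} {u : Fin n → K} : u ∈ (W.sc k L).1 ↔ W.π ^ k • u ∈ L.1 :=
  mem_act

lemma sc_sup (k : ℤ) (A B : Lat O K n) : W.sc k (A ⊔ B) = W.sc k A ⊔ W.sc k B := act_sup _ _ _

lemma sc_inf (k : ℤ) (A B : Lat O K n) : W.sc k (A ⊓ B) = W.sc k A ⊓ W.sc k B := act_inf _ _ _

lemma sc_sc (k l : ℤ) (A : Lat O K n) : W.sc k (W.sc l A) = W.sc (k + l) A :=
  Subtype.ext (Submodule.ext fun u => by
    rw [mem_sc, mem_sc, mem_sc, smul_smul, ← zpow_add₀ W.π_ne, add_comm])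

lemma sc_zero (A : Lat O K n) : W.sc 0 A = A :=
  Subtype.ext (Submodule.ext fun u => by rw [mem_sc, zpow_zero, one_smul])

lemma sc_mono {k l : ℤ} {A B : Lat O K n} (h : k ≤ l) (h' : A ≤ B) : W.sc k A ≤ W.sc l B := by
  refine le_iff.2 fun u hu => ?_
  rw [mem_sc] at hu ⊢
  have h1 := W.smul_mem (c := W.π ^ (l - k)) (by rw [v_pow, ← exp_zero, exp_le_exp]; omega) hu
  rw [smul_smul, ← zpow_add₀ W.π_ne, sub_add_cancel] at h1
  exact le_iff.1 h' _ h1

lemma act_sc (f : (Fin n → K) ≃ₗ[K] (Fin n → K)) (k : ℤ) (A : Lat O K n) :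
    act f (W.sc k A) = W.sc k (act f A) :=
  Subtype.ext (Submodule.ext fun u => by rw [mem_act, mem_sc, mem_sc, mem_act, map_smul])

/-- `A` is diagonal in the basis `e` with exponents `α` -/
def Dg (e : Basis (Fin n) K (Fin n → K)) (α : Fin n → ℤ) (A : Lat O K n) : Prop :=
  ∀ u, u ∈ A.1 ↔ ∀ l, W.v (e.repr u l) ≤ exp (α l)

variable {W} {e : Basis (Fin n) K (Fin n → K)} {α β : Fin n → ℤ} {A B : Lat O K n}

lemma mem_span {c : Fin n → K} (hc : ∀ l, W.v (c l) = exp (α l)) (u : Fin n → K) :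
    u ∈ Submodule.span O (Set.range fun l => c l • e l) ↔ ∀ l, W.v (e.repr u l) ≤ exp (α l) := by
  have h0 : ∀ l, c l ≠ 0 := fun l h => by
    have h1 := hc l
    rw [h, W.v.map_zero] at h1
    exact exp_ne_zero h1.symm
  constructor
  · intro hu l
    obtain ⟨a, rfl⟩ := (Submodule.mem_span_range_iff_exists_fun O).1 hu
    simp only [← algebraMap_smul K (a _), smul_smul, Basis.repr_sum_self, map_mul, hc]
    exact mul_le_of_le_one_left' ((W.int _).2 ⟨_, rfl⟩)
  · intro hu
    rw [← e.sum_repr u]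
    refine Submodule.sum_mem _ fun l _ => ?_
    rw [← div_mul_cancel₀ (e.repr u l) (h0 l), ← smul_smul]
    refine W.smul_mem ?_ (Submodule.subset_span ⟨l, rfl⟩)
    rw [map_div₀, hc]
    exact div_le_one_of_le₀ (hu l) zero_le

lemma exists_dg (W : Val O K) (e : Basis (Fin n) K (Fin n → K)) (α : Fin n → ℤ) :
    ∃ A, W.Dg e α A := by
  refine ⟨⟨Submodule.span O (Set.range fun l => W.π ^ (-α l) • e l),
    Submodule.fg_span (Set.finite_range _), ?_⟩, mem_span fun l => by rw [v_pow, neg_neg]⟩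
  rw [Submodule.span_span_of_tower, eq_top_iff, ← e.span_eq, Submodule.span_le]
  rintro _ ⟨l, rfl⟩
  have h := Submodule.smul_mem (Submodule.span K (Set.range fun l => W.π ^ (-α l) • e l))
    (W.π ^ α l) (Submodule.subset_span ⟨l, rfl⟩)
  rwa [smul_smul, ← zpow_add₀ W.π_ne, add_neg_cancel, zpow_zero, one_smul] at h

lemma dg_of_basis (A : Lat O K n) (b : Basis (Fin n) O A.1) :
    W.Dg (haveI := A.2; b.extendOfIsLattice K) 0 A := by
  have := A.2
  intro u
  rw [← mem_span (c := fun _ => 1) fun l => by simp]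
  have h := congrArg (Submodule.map A.1.subtype) b.span_eq
  rw [Submodule.map_span, Submodule.map_top, Submodule.range_subtype, ← Set.range_comp] at h
  simp only [one_smul, Basis.extendOfIsLattice_apply]
  exact (SetLike.ext_iff.1 h u).symm

lemma exists_obasis (A : Lat O K n) : Nonempty (Basis (Fin n) O A.1) := by
  have := A.2
  exact ⟨(finBasis O A.1).reindex (finCongr (by
    rw [Submodule.IsLattice.finrank_of_pi K, Fintype.card_fin]))⟩

lemma Dg.sc (h : W.Dg e α A) (k : ℤ) : W.Dg e (fun l => α l + k) (W.sc k A) := by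
  intro u
  rw [mem_sc, h]
  refine forall_congr' fun l => ?_
  rw [map_smul, Finsupp.smul_apply, smul_eq_mul, map_mul, v_pow, exp_neg, exp_add,
    inv_mul_le_iff₀ exp_pos, mul_comm]

lemma Dg.le (h : W.Dg e α A) (h' : W.Dg e β B) (hl : ∀ l, α l ≤ β l) : A ≤ B :=
  le_iff.2 fun u hu => (h' u).2 fun l => ((h u).1 hu l).trans (exp_le_exp.2 (hl l))

lemma Dg.mem (h : W.Dg e α A) (l : Fin n) {c : K} (hc : W.v c ≤ exp (α l)) : c • e l ∈ A.1 := by
  refine (h _).2 fun j => ?_
  rw [map_smul, Basis.repr_self, Finsupp.smul_apply, Finsupp.single_apply]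
  split_ifs with hj
  · subst hj
    simpa using hc
  · simp

lemma Dg.le_exp (h : W.Dg e α A) (h' : W.Dg e β B) (hl : A ≤ B) (l : Fin n) : α l ≤ β l := by
  have h1 := (h' _).1 (le_iff.1 hl _ (h.mem l (c := W.π ^ (-α l)) (by rw [v_pow, neg_neg]))) l
  rw [map_smul, Basis.repr_self, Finsupp.smul_apply, Finsupp.single_eq_same, smul_eq_mul, mul_one,
    v_pow, neg_neg, exp_le_exp] at h1
  exact h1

lemma Dg.inf (h : W.Dg e α A) (h' : W.Dg e β B) : W.Dg e (fun l => min (α l) (β l)) (A ⊓ B) := by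
  intro u
  rw [val_inf, Submodule.mem_inf, h, h', ← forall_and]
  refine forall_congr' fun l => ?_
  beta_reduce
  rcases le_total (α l) (β l) with k | k
  · rw [min_eq_left k]
    exact ⟨fun a => a.1, fun a => ⟨a, a.trans (exp_le_exp.2 k)⟩⟩
  · rw [min_eq_right k]
    exact ⟨fun a => a.2, fun a => ⟨a.trans (exp_le_exp.2 k), a⟩⟩

lemma Dg.sup (h : W.Dg e α A) (h' : W.Dg e β B) : W.Dg e (fun l => max (α l) (β l)) (A ⊔ B) := by
  obtain ⟨C, hC⟩ := exists_dg W e fun l => max (α l) (β l)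
  have h1 : A ⊔ B = C := by
    refine le_antisymm (sup_le (h.le hC fun l => le_max_left _ _)
      (h'.le hC fun l => le_max_right _ _)) (le_iff.2 fun u hu => ?_)
    rw [← e.sum_repr u]
    refine Submodule.sum_mem _ fun l _ => ?_
    have h2 := (hC u).1 hu l
    beta_reduce at h2
    rcases le_total (α l) (β l) with k | k
    · exact Submodule.mem_sup_right (h'.mem l (by rwa [max_eq_right k] at h2))
    · exact Submodule.mem_sup_left (h.mem l (by rwa [max_eq_left k] at h2))
  rwa [h1]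

lemma near (W : Val O K) (A B : Lat O K n) : ∃ R : ℕ, W.sc (-R) A ≤ B := by
  obtain ⟨b⟩ := exists_obasis B
  have hB := dg_of_basis (W := W) B b
  generalize (haveI := B.2; b.extendOfIsLattice K) = e at hB
  obtain ⟨s, hs⟩ := A.2.fg
  obtain ⟨R, hR⟩ : ∃ R : ℕ, ∀ u ∈ s, ∀ l, W.v (e.repr u l) ≤ exp (R : ℤ) := by
    refine ⟨s.sup fun u => Finset.univ.sup fun l => (log (W.v (e.repr u l))).toNat,
      fun u hu l => le_exp_of_log_le ((Int.self_le_toNat _).trans ?_)⟩
    exact_mod_cast le_trans (Finset.le_sup (f := fun l => (log (W.v (e.repr u l))).toNat)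
      (Finset.mem_univ l)) (Finset.le_sup
        (f := fun u => Finset.univ.sup fun l => (log (W.v (e.repr u l))).toNat) hu)
  have h1 : A ≤ W.sc R B := by
    change A.1 ≤ _
    rw [← hs, Submodule.span_le]
    exact fun u hu => (hB.sc R u).2 fun l => by simpa using hR u hu l
  refine ⟨R, (W.sc_mono le_rfl h1).trans_eq ?_⟩
  rw [sc_sc, neg_add_cancel, sc_zero]

/-- Smith normal form -/
lemma smith (W : Val O K) (A B : Lat O K n) :
    ∃ e μ, Antitone μ ∧ W.Dg e 0 A ∧ W.Dg e μ B := by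
  obtain ⟨R, hR⟩ := W.near B A
  obtain ⟨b⟩ := exists_obasis A
  have i1 := A.2
  have i2 := (W.sc (-R) B).2
  obtain ⟨b', a, ab, h⟩ := Submodule.exists_smith_normal_form_of_rank_eq
    (N := (W.sc (-R) B).1.comap A.1.subtype) b (by
      rw [(Submodule.comapSubtypeEquivOfLe hR).finrank_eq, Submodule.IsLattice.finrank_of_pi K,
        Submodule.IsLattice.finrank_of_pi K])
  have hA := dg_of_basis (W := W) A b'
  have h0 : ∀ l, W.v (algebraMap O K (a l)) ≠ 0 := fun l hl => by
    rw [Valuation.zero_iff, FaithfulSMul.algebraMap_eq_zero_iff] at hl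
    exact ab.ne_zero l (Subtype.ext (by rw [h, hl, zero_smul]; rfl))
  have hB : W.Dg (b'.extendOfIsLattice K) (fun l => log (W.v (algebraMap O K (a l))))
      (W.sc (-R) B) := by
    intro u
    rw [← mem_span (c := fun l => algebraMap O K (a l)) fun l => (exp_log (h0 l)).symm]
    have h1 := congrArg (Submodule.map (A.1.subtype.comp (Submodule.subtype _))) ab.span_eq
    rw [Submodule.map_span, Submodule.map_top, LinearMap.range_comp, Submodule.range_subtype,
      Submodule.map_comap_subtype, inf_eq_right.2 (show (W.sc (-R) B).1 ≤ A.1 from hR),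
      ← Set.range_comp] at h1
    rw [← h1]
    congr! 3
    funext l
    simp [h]
  have hB' := hB.sc R
  rw [sc_sc, add_neg_cancel, sc_zero] at hB'
  generalize b'.extendOfIsLattice K = e at hA hB'
  generalize (fun l => log (W.v (algebraMap O K (a l))) + (R : ℤ)) = μ at hB'
  have key : ∀ (α : Fin n → ℤ) (A : Lat O K n) (σ : Equiv.Perm (Fin n)), W.Dg e α A →
      W.Dg (e.reindex σ.symm) (α ∘ σ) A := fun α A σ h u => by
    rw [h, σ.forall_congr_right.symm]
    simp
  exact ⟨_, μ ∘ Tuple.sort fun l => -μ l,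
    fun i j hij => neg_le_neg_iff.1 (Tuple.monotone_sort (fun l => -μ l) hij),
    key 0 A _ hA, key μ B _ hB'⟩

end Val

end Pool.Agent.MP_1ca372_al.H38
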