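import Pool.Agent.MP_1ca372_al.H73.Main

/-! Abstract data for the rapid decay argument in type affine A: volumes of multisets of points. -/

namespace Pool.Agent.MP_1ca372_al.H38

open Multiset

universe u v

abbrev Hive := ℕ → ℕ → ℕ → ℤ

abbrev Four := ℕ → ℕ → ℕ → ℕ → ℤ

/-- the hive of a triple -/
def hv {X : Type v} (E : Multiset X → ℤ) (x y z : X) : Hive := fun i j k =>
  E (replicate i x + replicate j y + replicate k z)

/-- the function of four points -/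
def h4 {X : Type v} (E : Multiset X → ℤ) (x x' y z : X) : Four := fun i i' j k =>
  E (replicate i x + replicate i' x' + replicate j y + replicate k z)

/-- the distance; the degree is `m + 2` -/
def dd {X : Type v} (m : ℕ) (E : Multiset X → ℤ) (x y : X) : ℤ :=
  E (x ::ₘ replicate (m + 1) y) + E (y ::ₘ replicate (m + 1) x)

/-- slack of the rhombus at the third vertex on the line `k = c + 1` -/
def sl (h : Hive) (a b c : ℕ) : ℤ :=
  h (a + 1) b (c + 1) + h a (b + 1) (c + 1) - h a b (c + 2) - h (a + 1) (b + 1) c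

/-- tropical triple ratio at the interior point `(a + 1, b + 1, c + 1)` -/
def tt (h : Hive) (a b c : ℕ) : ℤ :=
  h (a + 2) b (c + 1) + h (a + 1) (b + 2) c + h a (b + 1) (c + 2) -
    h a (b + 2) (c + 1) - h (a + 1) b (c + 2) - h (a + 2) (b + 1) c

/-- `hv E y z x = rot (hv E x y z)` -/
def rot (h : Hive) : Hive := fun j k i => h i j k

/-- `hv E x z y = swp (hv E x y z)` -/
def swp (h : Hive) : Hive := fun i k j => h i j k

/-- change of the hive under one step of the third vertex on the line `k = c + 1` -/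
def gain (m c i : ℕ) : ℤ := (m + 2) * max (i - (c + 1) : ℤ) 0 - i * (m + 1 - c)

def Diam (m : ℕ) (Δ : ℤ) (h : Hive) : Prop :=
  h 1 (m + 1) 0 + h (m + 1) 1 0 ≤ Δ ∧ h 0 1 (m + 1) + h 0 (m + 1) 1 ≤ Δ ∧
    h (m + 1) 0 1 + h 1 0 (m + 1) ≤ Δ

def CoreZ (m : ℕ) (τ : ℤ) (h : Hive) : Prop := ∀ c ≤ m, ∃ a b, a + b + c = m ∧ sl h a b c ≤ τ

def Core (m : ℕ) (τ : ℤ) (h : Hive) : Prop :=
  CoreZ m τ h ∧ CoreZ m τ (rot h) ∧ CoreZ m τ (rot (rot h))

/-- the predicate depends only on the triple ratios -/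
def TInv (m : ℕ) (Q : Hive → Prop) : Prop :=
  ∀ (h h' : Hive) (A B C : ℕ → ℤ),
    (∀ i j k, i + j + k = m + 2 → h' i j k = h i j k + A i + B j + C k) → Q h → Q h'

def Sym (m : ℕ) (ε : ℤ) (H : Four) : Prop :=
  ∀ i i' j k, i + i' + j + k = m + 2 → H i i' j k ≤ H i' i j k + ε

def f012 (H : Four) : Hive := fun i j k => H i j k 0

def f013 (H : Four) : Hive := fun i j k => H i j 0 k

def f023 (H : Four) : Hive := fun i j k => H i 0 j k

def f123 (H : Four) : Hive := fun i j k => H 0 i j k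

/-- rhombus and octahedron inequalities -/
structure IsM (m : ℕ) (H : Four) : Prop where
  r012 : ∀ a b c d, a + b + c + d = m →
    H (a + 2) b c d + H a (b + 1) (c + 1) d ≤ H (a + 1) (b + 1) c d + H (a + 1) b (c + 1) d
  r013 : ∀ a b c d, a + b + c + d = m →
    H (a + 2) b c d + H a (b + 1) c (d + 1) ≤ H (a + 1) (b + 1) c d + H (a + 1) b c (d + 1)
  r023 : ∀ a b c d, a + b + c + d = m →
    H (a + 2) b c d + H a b (c + 1) (d + 1) ≤ H (a + 1) b (c + 1) d + H (a + 1) b c (d + 1)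
  r102 : ∀ a b c d, a + b + c + d = m →
    H a (b + 2) c d + H (a + 1) b (c + 1) d ≤ H (a + 1) (b + 1) c d + H a (b + 1) (c + 1) d
  r103 : ∀ a b c d, a + b + c + d = m →
    H a (b + 2) c d + H (a + 1) b c (d + 1) ≤ H (a + 1) (b + 1) c d + H a (b + 1) c (d + 1)
  r123 : ∀ a b c d, a + b + c + d = m →
    H a (b + 2) c d + H a b (c + 1) (d + 1) ≤ H a (b + 1) (c + 1) d + H a (b + 1) c (d + 1)
  r201 : ∀ a b c d, a + b + c + d = m →
    H a b (c + 2) d + H (a + 1) (b + 1) c d ≤ H (a + 1) b (c + 1) d + H a (b + 1) (c + 1) d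
  r203 : ∀ a b c d, a + b + c + d = m →
    H a b (c + 2) d + H (a + 1) b c (d + 1) ≤ H (a + 1) b (c + 1) d + H a b (c + 1) (d + 1)
  r213 : ∀ a b c d, a + b + c + d = m →
    H a b (c + 2) d + H a (b + 1) c (d + 1) ≤ H a (b + 1) (c + 1) d + H a b (c + 1) (d + 1)
  r301 : ∀ a b c d, a + b + c + d = m →
    H a b c (d + 2) + H (a + 1) (b + 1) c d ≤ H (a + 1) b c (d + 1) + H a (b + 1) c (d + 1)
  r302 : ∀ a b c d, a + b + c + d = m →
    H a b c (d + 2) + H (a + 1) b (c + 1) d ≤ H (a + 1) b c (d + 1) + H a b (c + 1) (d + 1)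
  r312 : ∀ a b c d, a + b + c + d = m →
    H a b c (d + 2) + H a (b + 1) (c + 1) d ≤ H a (b + 1) c (d + 1) + H a b (c + 1) (d + 1)
  o1 : ∀ a b c d, a + b + c + d = m →
    H (a + 1) (b + 1) c d + H a b (c + 1) (d + 1) ≤
      max (H (a + 1) b (c + 1) d + H a (b + 1) c (d + 1))
        (H (a + 1) b c (d + 1) + H a (b + 1) (c + 1) d)
  o2 : ∀ a b c d, a + b + c + d = m →
    H (a + 1) b (c + 1) d + H a (b + 1) c (d + 1) ≤
      max (H (a + 1) (b + 1) c d + H a b (c + 1) (d + 1))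
        (H (a + 1) b c (d + 1) + H a (b + 1) (c + 1) d)
  o3 : ∀ a b c d, a + b + c + d = m →
    H (a + 1) b c (d + 1) + H a (b + 1) (c + 1) d ≤
      max (H (a + 1) (b + 1) c d + H a b (c + 1) (d + 1))
        (H (a + 1) b (c + 1) d + H a (b + 1) c (d + 1))
  d0 : H (m + 2) 0 0 0 = 0
  d1 : H 0 (m + 2) 0 0 = 0
  d2 : H 0 0 (m + 2) 0 = 0
  d3 : H 0 0 0 (m + 2) = 0

/-- the geometry of a building of type affine A of rank `m + 1`, seen through normalised volumes -/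
structure Geo (X : Type v) (m : ℕ) where
  E : Multiset X → ℤ
  St : ℕ → X → X → X → Prop
  N : ℕ
  B : ℕ
  p1 : ∀ a b c f (p : Multiset X), card p = m → E (a ::ₘ b ::ₘ p) + E (c ::ₘ f ::ₘ p) ≤
    max (E (a ::ₘ c ::ₘ p) + E (b ::ₘ f ::ₘ p)) (E (a ::ₘ f ::ₘ p) + E (b ::ₘ c ::ₘ p))
  diag : ∀ x, E (replicate (m + 2) x) = 0
  uniq : ∀ c z x w w', St c z x w → St c z x w' → w = w'
  step : ∀ c x y z, c ≤ m → (∀ a b, a + b + c = m → (m + 2 : ℤ) ≤ sl (hv E x y z) a b c) →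
    ∃ w, St c z x w ∧ St c z y w ∧
      ∀ a b i, a + b + i = m + 2 → hv E x y w a b i = hv E x y z a b i + gain m c i
  split : ∀ x y (R : ℕ), dd m E x y ≤ (m + 2) * (R + 1) →
    ∃ w, dd m E x w ≤ (m + 2) * R ∧ dd m E w y ≤ m + 2
  ball : ∀ x, {y | dd m E x y ≤ m + 2}.encard ≤ N
  pot : ∀ (y : X) (R : ℕ), ∃ (a : X → ℤ) (Φ : Set X → ℤ),
    (∀ Y ⊆ {x | dd m E y x ≤ R}, Y.Nonempty → 0 ≤ Φ Y ∧ Φ Y ≤ B * R) ∧
    ∀ Y ⊆ {x | dd m E y x ≤ R}, ∀ Y' ⊆ Y, Y'.Nonempty → ∀ x ∈ Y, ∀ (i : ℕ) (q : Multiset X),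
      i + card q = m + 2 → ∃ x' ∈ Y',
        E (replicate i x + q) + i * a x ≤ E (replicate i x' + q) + i * a x' + (Φ Y - Φ Y')

/-- the group preserves the geometry and has bounded stabilisers -/
structure Geo.Act {X : Type v} {m : ℕ} (G : Geo X m) (Γ : Type u) [Group Γ] [MulAction Γ X]
    (S : ℕ) : Prop where
  E_inv : ∀ (γ : Γ) (s : Multiset X), card s = m + 2 → G.E (s.map (γ • ·)) = G.E s
  St_inv : ∀ (γ : Γ) c z x w, G.St c z x w → G.St c (γ • z) (γ • x) (γ • w)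
  stab : ∀ x : X, (MulAction.stabilizer Γ x : Set Γ).encard ≤ S

/-- the arithmetic input, special to the rank: classes `Q r` of triples of size `r` -/
structure Game (m : ℕ) where
  Q : ℕ → Hive → Prop
  Q' : ℕ → Hive → Prop
  K : ℕ
  c : ℕ
  hK : 100 ≤ K
  hc : 1 ≤ c
  tinv : ∀ r, TInv m (Q r)
  types : ∀ r h, Q r h → Q' r h ∨ Q' r (rot h) ∨ Q' r (rot (rot h)) ∨ Q' r (swp h) ∨
    Q' r (rot (swp h)) ∨ Q' r (rot (rot (swp h)))
  tb : ∀ (r : ℕ) h, Q' r h → ∀ a b d, a + b + d + 1 = m → |tt h a b d| ≤ c * r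
  start : ∀ (R : ℕ) H, IsM m H → Sym m R H → Diam m R (f012 H) → Diam m R (f013 H) →
    Q (c * R) (f012 H) ∧ Q (c * R) (f013 H)
  step : ∀ (r t : ℕ) H, 0 < t → K * t ≤ r → IsM m H → Sym m t H → Q' r (f023 H) → Core m t (f023 H) →
    ∃ i j, 0 < i ∧ 0 < j ∧ 4 * (i + j) * t ≤ 7 * r ∧ Q (i * t) (f012 H) ∧ Q (j * t) (f013 H)

end Pool.Agent.MP_1ca372_al.H38
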