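import Pool.Agent.MP_1ca372_al.H38.Vol
import Pool.Agent.MP_1ca372_al.H38.Spec

/-! The move lemma for lattices. -/

set_option linter.unusedSectionVars false

namespace Pool.Agent.MP_1ca372_al.H38

open Multiset Module WithZero Function

lemma legendre {d : ℕ} {g : ℕ → ℕ → ℤ}
    (hg : ∀ a b, a + b + 2 = d → g (a + 2) b + g a (b + 2) ≤ 2 * g (a + 1) (b + 1)) {a b : ℕ}
    (hab : a + b = d) : ∃ s : ℤ, ∀ a' b', a' + b' = d → g a' b' + a' * s ≤ g a b + a * s := by
  set f : ℕ → ℤ := fun a => g a (d - a) with hf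
  have h1 : ∀ i, i + 2 ≤ d → f (i + 2) - f (i + 1) ≤ f (i + 1) - f i := by
    intro i hi
    obtain ⟨j, rfl⟩ : ∃ j, d = i + j + 2 := ⟨d - i - 2, by omega⟩
    have := hg i j rfl
    simp only [hf, show i + j + 2 - (i + 2) = j by omega, show i + j + 2 - (i + 1) = j + 1 by omega,
      show i + j + 2 - i = j + 2 by omega]
    omega
  have h2 : ∀ k i, i + k + 1 ≤ d → f (i + k + 1) - f (i + k) ≤ f (i + 1) - f i := by
    intro k
    induction k with
    | zero => exact fun i _ => le_rfl
    | succ k ih => exact fun i hi => (h1 (i + k) (by omega)).trans (ih i (by omega))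
  obtain ⟨s, s1, s2⟩ : ∃ s : ℤ, (∀ i, a ≤ i → i + 1 ≤ d → f (i + 1) - f i + s ≤ 0) ∧
      ∀ i, i + 1 ≤ a → 0 ≤ f (i + 1) - f i + s := by
    refine ⟨f (a - 1) - f (a - 1 + 1), fun i hi hd => ?_, fun i hi => ?_⟩
    · have := h2 (i - (a - 1)) (a - 1) (by omega)
      rw [show a - 1 + (i - (a - 1)) = i by omega] at this
      omega
    · have := h2 (a - 1 - i) i (by omega)
      rw [show i + (a - 1 - i) = a - 1 by omega] at this
      omega
  have h3 : ∀ k, a + k ≤ d → f (a + k) + (a + k : ℕ) * s ≤ f a + a * s := by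
    intro k
    induction k with
    | zero => exact fun _ => le_rfl
    | succ k ih =>
      intro hk
      have k1 := ih (by omega)
      have k2 := s1 (a + k) (by omega) hk
      rw [← add_assoc]
      push_cast at *
      linarith
  have h4 : ∀ k i, i + k = a → f i + i * s ≤ f a + a * s := by
    intro k
    induction k with
    | zero =>
      rintro i rfl
      exact le_rfl
    | succ k ih =>
      intro i hi
      have k1 := ih (i + 1) (by omega)
      have k2 := s2 i (by omega)
      push_cast at *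
      linarith
  refine ⟨s, fun a' b' h => ?_⟩
  rw [show b' = d - a' by omega, show b = d - a by omega]
  rcases le_total a a' with k | k
  · obtain ⟨j, rfl⟩ := Nat.exists_eq_add_of_le k
    exact h3 j (by omega)
  · exact h4 (a - a') a' (by omega)

lemma hive_gap {m c : ℕ} {h : Hive}
    (hx : ∀ a b, a + b + c = m →
      h (a + 2) b c + h a (b + 1) (c + 1) ≤ h (a + 1) (b + 1) c + h (a + 1) b (c + 1))
    (hs : ∀ a b, a + b + c = m → 1 ≤ sl h a b c) (k : ℕ) :
    ∀ a b b', a + b + c = m → b' + k = b + 1 →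
      h a b (c + 2) + h (a + k + 1) b' c + 1 ≤ h (a + 1) b (c + 1) + h (a + k) b' (c + 1) := by
  induction k with
  | zero =>
    intro a b b' h1 h2
    obtain rfl : b' = b + 1 := h2
    have := hs a b h1
    unfold sl at this
    simp only [add_zero]
    omega
  | succ k ih =>
    intro a b b' h1 h2
    have k1 := ih a b (b' + 1) h1 (by omega)
    have k2 := hx (a + k) b' (by omega)
    simp only [← add_assoc]
    rw [show a + k + 1 + 1 = a + k + 2 from rfl]
    omega

variable {O K : Type*} [CommRing O] [IsDomain O] [IsPrincipalIdealRing O] [Field K] [Algebra O K]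
  [IsFractionRing O K] {n m : ℕ}

namespace Val

variable (W : Val O K)

lemma DL_p1 (A B C F : Lat O K (m + 2)) (p : Multiset (Lat O K (m + 2))) (hp : card p = m) :
    W.DL (A ::ₘ B ::ₘ p) + W.DL (C ::ₘ F ::ₘ p) ≤
      max (W.DL (A ::ₘ C ::ₘ p) + W.DL (B ::ₘ F ::ₘ p))
        (W.DL (A ::ₘ F ::ₘ p) + W.DL (B ::ₘ C ::ₘ p)) :=
  D_p1 (fun _ hs => W.fine hs) (fun A _ _ => A.1.add_mem) A B C F p hp

lemma rhx (x y z : Lat O K (m + 2)) {a b c : ℕ} (h : a + b + c = m) :
    hv W.DL x y z (a + 2) b c + hv W.DL x y z a (b + 1) (c + 1) ≤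
      hv W.DL x y z (a + 1) (b + 1) c + hv W.DL x y z (a + 1) b (c + 1) := by
  have h1 := W.DL_p1 x x y z (replicate a x + replicate b y + replicate c z) (by simpa using h)
  rw [add_comm (W.DL (x ::ₘ z ::ₘ _)), max_self] at h1
  unfold hv
  convert h1 using 3 <;> simp only [replicate_succ, ← singleton_add] <;> abel

lemma hv_sw (x y z : Lat O K n) (a b c : ℕ) : hv W.DL y x z b a c = hv W.DL x y z a b c := by
  unfold hv
  rw [add_comm (replicate b y)]

lemma conc (x y z : Lat O K (m + 2)) {a b c : ℕ} (h : a + b + 2 + c = m + 2) :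
    hv W.DL x y z (a + 2) b c + hv W.DL x y z a (b + 2) c ≤
      2 * hv W.DL x y z (a + 1) (b + 1) c := by
  have h1 := W.rhx x y z (a := a) (b := b) (c := c) (by omega)
  have h2 := W.rhx y x z (a := b) (b := a) (c := c) (by omega)
  simp only [W.hv_sw x y z] at h2
  omega

/-- one step from `Z` towards `M` -/
def St (j : ℕ) (Z M w : Lat O K n) : Prop :=
  ∃ k : ℤ, w = Z ⊔ W.sc 1 (W.sc (-k) M ⊓ Z) ∧ W.vol w = W.vol Z + j

variable {W}

lemma St.uniq {j : ℕ} {Z M M' w w' : Lat O K n} (h : W.St j Z M w) (h' : W.St j Z M' w')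
    (h1 : M ≤ M') (h2 : M' ≤ W.sc 1 M) : w = w' := by
  obtain ⟨k, rfl, hk⟩ := h
  obtain ⟨k', rfl, hk'⟩ := h'
  rcases le_or_gt k' k with h3 | h3
  · exact eq_of_vol (sup_le_sup_left (W.sc_mono le_rfl
      (inf_le_inf_right _ (W.sc_mono (by omega) h1))) _) (hk'.trans hk.symm).le
  · refine (eq_of_vol (sup_le_sup_left (W.sc_mono le_rfl (inf_le_inf_right _ ?_)) _)
      (hk.trans hk'.symm).le).symm
    refine (W.sc_mono le_rfl h2).trans ?_
    rw [sc_sc]
    exact W.sc_mono (by omega) le_rfl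

lemma St.of_sc {j : ℕ} {Z M w : Lat O K n} {s : ℤ} (h : W.St j Z (W.sc s M) w) : W.St j Z M w := by
  obtain ⟨k, h1, h2⟩ := h
  refine ⟨k - s, ?_, h2⟩
  rw [h1, sc_sc, neg_sub, sub_eq_neg_add]

lemma exists_St (Z M : Lat O K (m + 2)) {a c : ℕ} (h : a + c = m)
    (hg : W.DL (replicate a M + replicate (c + 2) Z) + W.DL (replicate (a + 2) M + replicate c Z) +
      1 ≤ 2 * W.DL (replicate (a + 1) M + replicate (c + 1) Z)) :
    ∃ w, W.St (a + 1) Z M w ∧ ∀ b i, b + i = m + 2 → W.DL (replicate b M + replicate i w) =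
      W.DL (replicate b M + replicate i Z) + max (i - (c + 1) : ℤ) 0 := by
  obtain ⟨e, μ, hμ, hZ, hM⟩ := W.smith Z M
  have two : ∀ b i, b + i = m + 2 → W.DL (replicate b M + replicate i Z) = W.κ e + top μ b :=
    fun b i hb => by simpa using hZ.two hM (by simpa using hμ) hb
  have ha : a < m + 2 := by omega
  have ha' : a + 1 < m + 2 := by omega
  rw [two _ _ (by omega), two _ _ (by omega), two _ _ (by omega), top_succ μ ha', top_succ μ ha]
    at hg
  set ν : Fin (m + 2) → ℤ := fun l => if l.val < a + 1 then 1 else 0 with hν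
  have k1 : ∀ l : Fin (m + 2), l.val < a + 1 → μ ⟨a, ha⟩ ≤ μ l := fun l hl =>
    hμ (Fin.le_def.2 (by simpa using Nat.lt_succ_iff.1 hl))
  have k2 : ∀ l : Fin (m + 2), ¬ l.val < a + 1 → μ l + 1 ≤ μ ⟨a, ha⟩ := fun l hl => by
    have : μ l ≤ μ ⟨a + 1, ha'⟩ := hμ (Fin.le_def.2 (by simpa using hl))
    omega
  have hw := hZ.sup (((hM.sc (-μ ⟨a, ha⟩)).inf hZ).sc 1)
  have e1 : (fun l => max ((0 : Fin (m + 2) → ℤ) l)
      (min (μ l + -μ ⟨a, ha⟩) ((0 : Fin (m + 2) → ℤ) l) + 1)) = ν := by
    funext l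
    simp only [hν, Pi.zero_apply]
    split_ifs with hl
    · have := k1 l hl
      omega
    · have := k2 l hl
      omega
  rw [e1] at hw
  have t1 : ∀ b, b ≤ m + 2 → top ν b = min b (a + 1 : ℕ) := by
    intro b
    induction b with
    | zero => simp [top_zero]
    | succ b ih =>
      intro hb
      rw [top_succ ν hb, ih (by omega)]
      simp only [hν]
      split_ifs <;> omega
  have t2 : ∑ l, ν l = (a + 1 : ℕ) := by
    rw [← top_all, t1 _ le_rfl]
    omega
  refine ⟨_, ⟨μ ⟨a, ha⟩, rfl, ?_⟩, fun b i hb => ?_⟩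
  · rw [hw.vol, hZ.vol, t2]
    simp
  · rw [hw.two hM ?_ hb, two b i hb, t2]
    · have t3 : top (fun l => μ l - ν l) b = top μ b - top ν b := Finset.sum_sub_distrib _ _
      rw [t3, t1 b (by omega)]
      omega
    · intro l l' hl
      have h1 := hμ hl
      have h2 := k1 l
      have h3 := k2 l'
      simp only [hν]
      rw [Fin.le_def] at hl
      split_ifs <;> omega

theorem step {c : ℕ} (x y z : Lat O K (m + 2)) (hc : c ≤ m)
    (h : ∀ a b, a + b + c = m → 1 ≤ sl (hv W.DL x y z) a b c) :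
    ∃ w, W.St (m + 1 - c) z x w ∧ W.St (m + 1 - c) z y w ∧ ∀ a b i, a + b + i = m + 2 →
      hv W.DL x y w a b i = hv W.DL x y z a b i + max (i - (c + 1) : ℤ) 0 := by
  obtain ⟨j, rfl⟩ := Nat.exists_eq_add_of_le' hc
  rw [show j + c + 1 - c = j + 1 by omega]
  have F1 : ∀ (Z : Lat O K (j + c + 2)) (s : ℤ) a b i, a + b + i = j + c + 2 →
      hv W.DL x y Z a b i + a * s ≤ W.DL (replicate (a + b) (W.sc s x ⊔ y) + replicate i Z) := by
    intro Z s a b i hi
    refine le_trans (le_of_eq ?_) (W.le_DL_rep_sup (by simpa using hi))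
    rw [add_assoc (replicate a _), W.DL_rep_sc s (by simp; omega), hv, add_assoc (replicate a _)]
  have F2 : ∀ (Z : Lat O K (j + c + 2)) (s : ℤ) d i, d + i = j + c + 2 → ∃ a b, a + b = d ∧
      W.DL (replicate d (W.sc s x ⊔ y) + replicate i Z) ≤ hv W.DL x y Z a b i + a * s := by
    intro Z s d i hi
    obtain ⟨a, b, h1, h2⟩ := W.DL_rep_sup (A := W.sc s x) (B := y) (c := d) (q := replicate i Z)
      (by simpa using hi)
    refine ⟨a, b, h1, h2.trans_eq ?_⟩
    rw [add_assoc (replicate a _), W.DL_rep_sc s (by simp; omega), hv, add_assoc (replicate a _)]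
  have gap : ∀ s : ℤ, W.DL (replicate j (W.sc s x ⊔ y) + replicate (c + 2) z) +
      W.DL (replicate (j + 2) (W.sc s x ⊔ y) + replicate c z) + 1 ≤
        2 * W.DL (replicate (j + 1) (W.sc s x ⊔ y) + replicate (c + 1) z) := by
    intro s
    obtain ⟨a, b, h1, h2⟩ := F2 z s j (c + 2) (by omega)
    obtain ⟨a', b', h3, h4⟩ := F2 z s (j + 2) c (by omega)
    rcases lt_or_ge a a' with h5 | h5
    · obtain ⟨k, rfl⟩ := Nat.exists_eq_add_of_lt h5
      have g1 := hive_gap (fun a b => W.rhx x y z) h k a b b' (by omega) (by omega)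
      have g2 := F1 z s (a + 1) b (c + 1) (by omega)
      have g3 := F1 z s (a + k) b' (c + 1) (by omega)
      rw [show a + 1 + b = j + 1 by omega] at g2
      rw [show a + k + b' = j + 1 by omega] at g3
      push_cast at *
      linarith
    · obtain ⟨k, rfl⟩ := Nat.exists_eq_add_of_lt (show b < b' by omega)
      have g1 := hive_gap (c := c) (h := hv W.DL y x z) (fun a b => W.rhx y x z) (fun a b hab => by
        have := h b a (by omega)
        simp only [sl, W.hv_sw x y z] at this ⊢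
        omega) k b a a' (by omega) (by omega)
      simp only [W.hv_sw x y z] at g1
      have g2 := F1 z s a (b + 1) (c + 1) (by omega)
      have g3 := F1 z s a' (b + k) (c + 1) (by omega)
      rw [show a + (b + 1) = j + 1 by omega] at g2
      rw [show a' + (b + k) = j + 1 by omega] at g3
      linarith
  choose w w1 w2 using fun s => exists_St z (W.sc s x ⊔ y) rfl (gap s)
  have adj : ∀ s, w s = w (s + 1) := fun s => (w1 s).uniq (w1 (s + 1))
    (sup_le_sup_right (W.sc_mono (by omega) le_rfl) _) (by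
      rw [sc_sup, sc_sc, add_comm 1 s]
      exact sup_le_sup_left ((W.sc_zero y).ge.trans (W.sc_mono zero_le_one le_rfl)) _)
  have cst : ∀ s, w s = w 0 := fun s => by
    induction s using Int.induction_on with
    | zero => rfl
    | succ i ih => rw [← adj, ih]
    | pred i ih => rw [adj, sub_add_cancel, ih]
  simp only [cst] at w1 w2
  refine ⟨w 0, ?_, ?_, fun a b i hi => le_antisymm ?_ ?_⟩
  · obtain ⟨R, hR⟩ := W.near y x
    have h1 := W.sc_mono (le_refl (R : ℤ)) hR
    rw [sc_sc, add_neg_cancel, sc_zero] at h1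
    have h2 := w1 R
    rw [sup_eq_left.2 h1] at h2
    exact h2.of_sc
  · obtain ⟨R, hR⟩ := W.near x y
    have h2 := w1 (-R)
    rwa [sup_eq_right.2 hR] at h2
  · obtain ⟨s, hs⟩ := legendre (d := a + b) (g := fun a b => hv W.DL x y z a b i)
      (fun a' b' h' => W.conc x y z (by omega)) rfl
    obtain ⟨a', b', h1, h2⟩ := F2 z s (a + b) i hi
    have h3 := hs a' b' h1
    have h4 := F1 (w 0) s a b i hi
    rw [w2 s _ _ hi] at h4
    linarith
  · obtain ⟨s, hs⟩ := legendre (d := a + b) (g := fun a b => hv W.DL x y (w 0) a b i)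
      (fun a' b' h' => W.conc x y (w 0) (by omega)) rfl
    obtain ⟨a', b', h1, h2⟩ := F2 (w 0) s (a + b) i hi
    have h3 := hs a' b' h1
    have h4 := F1 z s a b i hi
    rw [w2 s _ _ hi] at h2
    linarith

end Val

end Pool.Agent.MP_1ca372_al.H38
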