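import Pool.Agent.MP_1ca372_al.H38.Lat

/-! Mixed volumes of lattices. -/

set_option linter.unusedSectionVars false

namespace Pool.Agent.MP_1ca372_al.H38

open Multiset Module WithZero Function

variable {O K : Type*} [CommRing O] [IsDomain O] [IsPrincipalIdealRing O] [Field K] [Algebra O K]
  [IsFractionRing O K] {n : ℕ}

abbrev mem (u : Fin n → K) (L : Lat O K n) : Prop := u ∈ L.1

namespace Val

variable (W : Val O K)

/-- the mixed volume -/
noncomputable def DL (s : Multiset (Lat O K n)) : ℤ := D W.v (Pi.basisFun K (Fin n)) mem s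

lemma near_all (A : Lat O K n) (s : Multiset (Lat O K n)) :
    ∃ R : ℕ, ∀ B ∈ s, W.sc (-R) A ≤ B ∧ W.sc (-R) B ≤ A := by
  induction s using Multiset.induction_on with
  | empty => exact ⟨0, by simp⟩
  | cons B s ih =>
    obtain ⟨R, hR⟩ := ih
    obtain ⟨R1, h1⟩ := W.near A B
    obtain ⟨R2, h2⟩ := W.near B A
    refine ⟨R + R1 + R2, fun C hC => ?_⟩
    rcases mem_cons.1 hC with rfl | hC
    · exact ⟨(W.sc_mono (by omega) le_rfl).trans h1, (W.sc_mono (by omega) le_rfl).trans h2⟩
    · exact ⟨(W.sc_mono (by omega) le_rfl).trans (hR C hC).1,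
        (W.sc_mono (by omega) le_rfl).trans (hR C hC).2⟩

lemma fine {s : Multiset (Lat O K n)} (hs : card s = n) :
    Fine W.v (Pi.basisFun K (Fin n)) mem s := by
  obtain ⟨A, hA⟩ := W.exists_dg (Pi.basisFun K (Fin n)) 0
  obtain ⟨R, hR⟩ := W.near_all A s
  refine (fine_of (by simpa using hs) R R (fun B hB l => ⟨W.π ^ (R : ℤ), (W.v_pow _).ge,
    le_iff.1 (hR B hB).1 _ ((hA.sc _).mem l (by rw [v_pow]; simp))⟩) fun B hB u hu l => ?_).1
  have h1 := W.sc_mono (le_refl (R : ℤ)) (hR B hB).2
  rw [sc_sc, add_neg_cancel, sc_zero] at h1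
  simpa using ((hA.sc R) u).1 (le_iff.1 h1 u hu) l

variable {A B : Lat O K n} {q : Multiset (Lat O K n)}

lemma DL_mono (h : A ≤ B) (hq : card q + 1 = n) : W.DL (A ::ₘ q) ≤ W.DL (B ::ₘ q) := by
  refine (W.fine (by simpa using hq)).D_le fun m hm => ?_
  obtain ⟨u, m, h1, h2, rfl⟩ := rel_cons_right.1 hm
  exact (W.fine (by simpa using hq)).dv_le (h2.cons (le_iff.1 h u h1))

lemma DL_sup (hq : card q + 1 = n) :
    W.DL ((A ⊔ B) ::ₘ q) ≤ max (W.DL (A ::ₘ q)) (W.DL (B ::ₘ q)) := by
  refine (W.fine (by simpa using hq)).D_le fun m hm => ?_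
  obtain ⟨u, m, h1, h2, rfl⟩ := rel_cons_right.1 hm
  obtain ⟨a, ha, b, hb, rfl⟩ := Submodule.mem_sup.1 h1
  refine (dv_add _ _ _ _ _).trans (max_le ?_ ?_)
  · exact ((W.fine (by simpa using hq)).dv_le (h2.cons ha)).trans (exp_le_exp.2 (le_max_left _ _))
  · exact ((W.fine (by simpa using hq)).dv_le (h2.cons hb)).trans (exp_le_exp.2 (le_max_right _ _))

lemma DL_sc (k : ℤ) (hq : card q + 1 = n) : W.DL (W.sc k A ::ₘ q) = W.DL (A ::ₘ q) + k := by
  have key : ∀ (k : ℤ) (A : Lat O K n), W.DL (W.sc k A ::ₘ q) ≤ W.DL (A ::ₘ q) + k := by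
    intro k A
    refine (W.fine (by simpa using hq)).D_le fun m hm => ?_
    obtain ⟨u, m, h1, h2, rfl⟩ := rel_cons_right.1 hm
    have h3 := (W.fine (s := A ::ₘ q) (by simpa using hq)).dv_le (h2.cons (W.mem_sc.1 h1))
    rwa [dv_smul, v_pow, exp_neg, inv_mul_le_iff₀ exp_pos, mul_comm, ← exp_add] at h3
  have h1 := key (-k) (W.sc k A)
  rw [sc_sc, neg_add_cancel, sc_zero] at h1
  exact le_antisymm (key k A) (by omega)

lemma DL_act (f : (Fin n → K) ≃ₗ[K] (Fin n → K)) {s : Multiset (Lat O K n)} (hs : card s = n) :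
    W.DL (s.map (act f)) = W.DL s + log (W.v (LinearMap.det f.toLinearMap)) := by
  have h0 : W.v (LinearMap.det f.toLinearMap) ≠ 0 := by
    rw [Valuation.ne_zero_iff]
    exact f.isUnit_det'.ne_zero
  have hs' : card (s.map (act f)) = n := by simpa using hs
  refine le_antisymm ((W.fine hs').D_le fun m hm => ?_) ?_
  · have h1 : Rel mem (m.map f.symm) s :=
      rel_map_left.2 ((rel_map_right.1 hm).mono fun u _ L _ h => mem_act.1 h)
    have h2 := dv_comp W.v (Pi.basisFun K (Fin n)) f.toLinearMap (m.map f.symm)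
    rw [Multiset.map_map] at h2
    simp only [LinearEquiv.coe_coe, comp_apply, LinearEquiv.apply_symm_apply, map_id'] at h2
    rw [h2, exp_add, exp_log h0, mul_comm]
    exact mul_le_mul' ((W.fine hs).dv_le h1) le_rfl
  · obtain ⟨m, h1, h2⟩ := (W.fine hs).max
    refine (W.fine hs').le_D (m := m.map f.toLinearMap)
      (rel_map.2 (h1.mono fun u _ L _ h => mem_act.2 (by simpa using h))) ?_
    rw [dv_comp, exp_add, exp_log h0, mul_comm]
    exact mul_le_mul' le_rfl h2

lemma DL_rep_mono (h : A ≤ B) {a : ℕ} (hq : a + card q = n) :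
    W.DL (replicate a A + q) ≤ W.DL (replicate a B + q) := by
  induction a generalizing q with
  | zero => simp
  | succ a ih =>
    have h1 := ih (q := B ::ₘ q) (by simp; omega)
    have h2 := W.DL_mono (q := replicate a A + q) h (by simp; omega)
    simp only [replicate_succ, cons_add, add_cons] at *
    exact h2.trans h1

lemma DL_rep_sc (k : ℤ) {a : ℕ} (hq : a + card q = n) :
    W.DL (replicate a (W.sc k A) + q) = W.DL (replicate a A + q) + a * k := by
  induction a generalizing q with
  | zero => simp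
  | succ a ih =>
    have h1 := ih (q := A ::ₘ q) (by simp; omega)
    have h2 := W.DL_sc (A := A) (q := replicate a (W.sc k A) + q) k (by simp; omega)
    simp only [replicate_succ, cons_add, add_cons] at *
    rw [h2, h1]
    push_cast
    ring

lemma DL_rep_sup {c : ℕ} (hq : c + card q = n) : ∃ a b, a + b = c ∧
    W.DL (replicate c (A ⊔ B) + q) ≤ W.DL (replicate a A + replicate b B + q) := by
  induction c generalizing q with
  | zero => exact ⟨0, 0, rfl, by simp⟩
  | succ c ih =>
    have h2 := W.DL_sup (A := A) (B := B) (q := replicate c (A ⊔ B) + q) (by simp; omega)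
    rcases le_max_iff.1 h2 with h3 | h3
    · obtain ⟨a, b, h4, h5⟩ := ih (q := A ::ₘ q) (by simp; omega)
      refine ⟨a + 1, b, by omega, ?_⟩
      simp only [replicate_succ, cons_add, add_cons] at *
      exact h3.trans h5
    · obtain ⟨a, b, h4, h5⟩ := ih (q := B ::ₘ q) (by simp; omega)
      refine ⟨a, b + 1, by omega, ?_⟩
      simp only [replicate_succ, cons_add, add_cons] at *
      exact h3.trans h5

lemma le_DL_rep_sup {a b : ℕ} (hq : a + b + card q = n) :
    W.DL (replicate a A + replicate b B + q) ≤ W.DL (replicate (a + b) (A ⊔ B) + q) := by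
  have h1 := W.DL_rep_mono (le_sup_left : A ≤ A ⊔ B) (a := a) (q := replicate b B + q)
    (by simp; omega)
  have h2 := W.DL_rep_mono (le_sup_right : B ≤ A ⊔ B) (a := b) (q := replicate a (A ⊔ B) + q)
    (by simp; omega)
  rw [add_left_comm] at h2
  rw [add_assoc, add_comm a b, replicate_add, add_assoc]
  exact h1.trans h2

/-- the volume of the basis -/
noncomputable def κ (e : Basis (Fin n) K (Fin n → K)) : ℤ :=
  log (W.v ((Pi.basisFun K (Fin n)).det e))

variable {W} {e : Basis (Fin n) K (Fin n → K)} {α β : Fin n → ℤ}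

/-- the two point formula -/
lemma Dg.two (hA : W.Dg e α A) (hB : W.Dg e β B) (h : Antitone fun l => β l - α l) {a i : ℕ}
    (hi : a + i = n) :
    W.DL (replicate a B + replicate i A) = W.κ e + ∑ l, α l + top (fun l => β l - α l) a := by
  have h0 : exp (W.κ e) = W.v ((Pi.basisFun K (Fin n)).det e) :=
    exp_log (by
      rw [Valuation.ne_zero_iff]
      exact ((Pi.basisFun K (Fin n)).isUnit_det e).ne_zero)
  have hf := W.fine (s := replicate a B + replicate i A) (by simpa using hi)
  have hsum : ∀ S : Finset (Fin n), ∑ l, (if l ∈ S then β l else α l) =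
      ∑ l, α l + ∑ l ∈ S, (β l - α l) := fun S => by
    rw [← Finset.sum_ite_mem_eq S fun l => β l - α l, ← Finset.sum_add_distrib]
    exact Finset.sum_congr rfl fun l _ => by split_ifs <;> ring
  refine le_antisymm (hf.D_le fun m hm => ?_) ?_
  · obtain ⟨u, rfl⟩ := exists_enum (ι := Fin n) (m := m)
      (by simpa [hi] using card_eq_card_of_rel hm)
    obtain ⟨t1, t2, k1, k2, k3⟩ := rel_add_right.1 (rel_map_left.1 hm)
    have k4 : t1.Nodup := nodup_of_le (k3 ▸ le_add_right t1 t2) Finset.univ.nodup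
    rw [dv_base e, dv_map, add_assoc, exp_add, h0]
    refine mul_le_mul' le_rfl (val_det_le _ _ u (fun j l => if j ∈ t1 then β l else α l) _
      (fun j l => ?_) fun σ => ?_)
    · split_ifs with hj
      · exact (hB _).1 ((rel_rep.1 k1).2 j hj) l
      · exact (hA _).1 ((rel_rep.1 k2).2 j
          ((mem_add.1 (k3 ▸ Finset.mem_univ_val j)).resolve_left hj)) l
    · have k5 := hsum ((⟨t1, k4⟩ : Finset (Fin n)).map σ.toEmbedding)
      have k6 := sum_le_top h ((⟨t1, k4⟩ : Finset (Fin n)).map σ.toEmbedding)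
      rw [Finset.card_map, Finset.card_mk, (rel_rep.1 k1).1] at k6
      rw [← Equiv.sum_comp σ] at k5
      simp only [Finset.mem_map_equiv, Equiv.symm_apply_apply, Finset.mem_mk] at k5
      rw [k5]
      exact add_le_add_right k6 _
  · set S := Finset.univ.filter fun l : Fin n => l.val < a with hS
    refine hf.le_D (m := Finset.univ.val.map fun l =>
      W.π ^ (-(if l ∈ S then β l else α l)) • e l) ?_ (le_of_eq ?_)
    · rw [← filter_add_not (· ∈ S) Finset.univ.val, Multiset.map_add]
      have k1 : card (filter (· ∈ S) Finset.univ.val) = a := by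
        rw [← card_lt (show a ≤ n by omega)]
        congr 1
        ext l
        simp [hS]
      refine Rel.add (rel_rep.2 ⟨by rw [card_map, k1], ?_⟩) (rel_rep.2 ⟨?_, ?_⟩)
      · intro u hu
        obtain ⟨l, hl, rfl⟩ := Multiset.mem_map.1 hu
        exact hB.mem l (by rw [v_pow, neg_neg, if_pos (of_mem_filter hl)])
      · have k2 := congrArg card (filter_add_not (· ∈ S) (Finset.univ : Finset (Fin n)).val)
        rw [card_add, k1, Finset.card_val, Finset.card_fin] at k2
        rw [card_map]
        omega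
      · intro u hu
        obtain ⟨l, hl, rfl⟩ := Multiset.mem_map.1 hu
        exact hA.mem l (by rw [v_pow, neg_neg, if_neg (mem_filter.1 hl).2])
    · rw [dv_base e, dv_map, val_det_diag, add_assoc, exp_add, h0, top, ← hsum, exp_sum]
      simp only [v_pow, neg_neg, hS]

/-- the volume -/
noncomputable def vol (W : Val O K) (A : Lat O K n) : ℤ := W.DL (replicate n A)

lemma Dg.vol (hA : W.Dg e α A) : W.vol A = W.κ e + ∑ l, α l := by
  have h := hA.two hA (by simpa using antitone_const) (zero_add n)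
  simpa [top_zero, Val.vol] using h

lemma eq_of_vol (h : A ≤ B) (hv : W.vol B ≤ W.vol A) : A = B := by
  obtain ⟨e, μ, -, hA, hB⟩ := W.smith A B
  rw [hA.vol, hB.vol] at hv
  have h1 : ∀ l, 0 ≤ μ l := hA.le_exp hB h
  have h2 := (Finset.sum_eq_zero_iff_of_nonneg fun l _ => h1 l).1
    (le_antisymm (by simpa using hv) (Finset.sum_nonneg fun l (_ : l ∈ Finset.univ) => h1 l))
  exact le_antisymm h (hB.le hA fun l => (h2 l (Finset.mem_univ l)).le)

end Val

end Pool.Agent.MP_1ca372_al.H38
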